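import Mathlib
import Pool.Agent.Y201.C3.Stm

/-! # Project C3, job AN: anisotropy at a smooth point of rank one -/

set_option autoImplicit false

namespace Pool.Agent.R845

open MvPolynomial Pool.Agent.Y201.C3

section Taylor

variable {σ : Type} [Fintype σ]

/-- the Taylor expansion at `η` -/
noncomputable def ps (η : σ → ℂ) :
    MvPolynomial σ ℂ →ₐ[ℂ] Polynomial (MvPolynomial σ ℂ) :=
  aeval fun l => Polynomial.C (C (η l)) + Polynomial.X * Polynomial.C (X l)

theorem ps_X (η : σ → ℂ) (l : σ) : ps η (X l) =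
    Polynomial.C (C (η l)) + Polynomial.X * Polynomial.C (X l) := by
  unfold ps
  rw [aeval_X]

theorem ps_C (η : σ → ℂ) (a : ℂ) : ps η (C a) = Polynomial.C (C a) := by
  unfold ps
  rw [aeval_C]
  rfl

theorem ps_coeff_zero (η : σ → ℂ) (f : MvPolynomial σ ℂ) :
    (ps η f).coeff 0 = C (eval η f) := by
  induction f using MvPolynomial.induction_on with
  | C a => rw [ps_C, Polynomial.coeff_C_zero, eval_C]
  | add f g hf hg => rw [map_add, Polynomial.coeff_add, hf, hg, map_add, map_add]
  | mul_X f i hf =>
    rw [map_mul, Polynomial.mul_coeff_zero, hf, ps_X]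
    simp

theorem ps_coeff_one (η : σ → ℂ) (f : MvPolynomial σ ℂ) :
    (ps η f).coeff 1 = ∑ l, C (eval η (pderiv l f)) * X l := by
  classical
  induction f using MvPolynomial.induction_on with
  | C a =>
    rw [ps_C]
    simp [Polynomial.coeff_C]
  | add f g hf hg =>
    rw [map_add, Polynomial.coeff_add, hf, hg, ← Finset.sum_add_distrib]
    refine Finset.sum_congr rfl fun l _ => ?_
    rw [map_add, map_add, map_add, add_mul]
  | mul_X f i hf =>
    rw [map_mul, Polynomial.mul_coeff_one, hf, ps_coeff_zero, ps_X]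
    have h1 : (Polynomial.C (C (η i) : MvPolynomial σ ℂ) +
        Polynomial.X * Polynomial.C (X i)).coeff 1 = X i := by
      simp [Polynomial.coeff_C]
    have h0 : (Polynomial.C (C (η i) : MvPolynomial σ ℂ) +
        Polynomial.X * Polynomial.C (X i)).coeff 0 = C (η i) := by
      simp
    rw [h1, h0]
    have h2 : ∀ l, C (eval η (pderiv l (f * X i))) * X l =
        C (eval η (pderiv l f)) * X l * C (η i) +
          (if l = i then C (eval η f) * X i else (0 : MvPolynomial σ ℂ)) := by
      intro l
      rw [Derivation.leibniz, smul_eq_mul, smul_eq_mul, pderiv_X, map_add, map_mul, map_mul, eval_X,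
        map_add]
      by_cases hl : l = i
      · subst hl
        simp
        ring
      · rw [if_neg hl, Pi.single_eq_of_ne (Ne.symm hl)]
        simp
        ring
    rw [Finset.sum_congr rfl fun l _ => h2 l, Finset.sum_add_distrib, ← Finset.sum_mul,
      Finset.sum_ite_eq' Finset.univ i, if_pos (Finset.mem_univ _)]
    ring

theorem ps_inj (η : σ → ℂ) (f : MvPolynomial σ ℂ) (h : ps η f = 0) : f = 0 := by
  have h2 : aeval (fun l => X l - C (η l) : σ → MvPolynomial σ ℂ) ((ps η f).eval 1) = f := by
    clear h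
    induction f using MvPolynomial.induction_on with
    | C a =>
      rw [ps_C, Polynomial.eval_C, aeval_C]
      rfl
    | add f g hf hg => rw [map_add, Polynomial.eval_add, map_add, hf, hg]
    | mul_X f i hf =>
      rw [map_mul, Polynomial.eval_mul, map_mul, hf, ps_X]
      congr 1
      rw [Polynomial.eval_add, Polynomial.eval_C, Polynomial.eval_mul, Polynomial.eval_X,
        Polynomial.eval_C, one_mul, map_add, aeval_C, aeval_X]
      change C (η i) + (X i - C (η i)) = X i
      ring
  rw [← h2, h, Polynomial.eval_zero, map_zero]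

end Taylor

theorem exists_lowest {R : Type} [CommRing R] {ι : Type} [Fintype ι] :
    ∀ (n : ℕ) (W : ι → Polynomial R), (∀ i, (W i).natDegree ≤ n) → (∃ i, W i ≠ 0) →
    ∃ (r : ℕ) (V : ι → Polynomial R), (∀ i, W i = Polynomial.X ^ r * V i) ∧
      ∃ i, (V i).coeff 0 ≠ 0 := by
  intro n
  induction n with
  | zero =>
    rintro W hW ⟨i, hi⟩
    refine ⟨0, W, fun i => by rw [pow_zero, one_mul], i, ?_⟩
    intro h0
    apply hi
    rw [Polynomial.eq_C_of_natDegree_le_zero (hW i), h0, Polynomial.C_0]
  | succ n ih =>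
    rintro W hW ⟨i, hi⟩
    by_cases h : ∃ i, (W i).coeff 0 ≠ 0
    · exact ⟨0, W, fun i => by rw [pow_zero, one_mul], h⟩
    · push Not at h
      have h1 : ∀ i, W i = Polynomial.X * (W i).divX := by
        intro i
        have := Polynomial.divX_mul_X_add (W i)
        rw [h i, Polynomial.C_0, add_zero] at this
        rw [mul_comm, this]
      obtain ⟨r, V, hV, hV0⟩ := ih (fun i => (W i).divX) (by
        intro i
        rw [Polynomial.natDegree_divX_eq_natDegree_tsub_one]
        have := hW i
        omega) ⟨i, by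
          intro h2
          apply hi
          rw [h1 i]
          rw [show (W i).divX = 0 from h2, mul_zero]⟩
      refine ⟨r + 1, V, fun i => ?_, hV0⟩
      rw [h1 i, hV i, pow_succ]
      ring

/-- a nonzero linear form is irreducible -/
theorem linear_irreducible {σ : Type} {f : MvPolynomial σ ℂ} (hf : f.IsHomogeneous 1)
    (h0 : f ≠ 0) : Irreducible f := by
  have hd := hf.totalDegree h0
  constructor
  · intro hu
    rw [MvPolynomial.isUnit_iff_eq_C_of_isReduced] at hu
    obtain ⟨c, -, hc⟩ := hu
    rw [hc, totalDegree_C] at hd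
    exact absurd hd (by norm_num)
  · intro a b hab
    have ha : a ≠ 0 := by
      rintro rfl
      rw [zero_mul] at hab
      exact h0 hab
    have hb : b ≠ 0 := by
      rintro rfl
      rw [mul_zero] at hab
      exact h0 hab
    have h1 := totalDegree_mul_of_isDomain ha hb
    rw [← hab, hd] at h1
    have key : ∀ p : MvPolynomial σ ℂ, p ≠ 0 → p.totalDegree = 0 → IsUnit p := by
      intro p hp hp0
      rw [totalDegree_eq_zero_iff_eq_C] at hp0
      rw [hp0]
      rw [hp0] at hp
      have : coeff 0 p ≠ 0 := by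
        intro h
        rw [h, C_0] at hp
        exact hp rfl
      exact (isUnit_iff_ne_zero.2 this).map C
    rcases (by omega : a.totalDegree = 0 ∨ b.totalDegree = 0) with h | h
    · exact Or.inl (key a ha h)
    · exact Or.inr (key b hb h)

/-- a binary quadratic form with coefficients linear forms, which does not vanish for constants, is
anisotropic -/
theorem binary_aniso {σ : Type} {α β γ : MvPolynomial σ ℂ} (hα : α.IsHomogeneous 1)
    (hβ : β.IsHomogeneous 1) (hγ : γ.IsHomogeneous 1)
    (h : ∀ s t : ℂ, C (s ^ 2) * α + C (2 * s * t) * β + C (t ^ 2) * γ = 0 → s = 0 ∧ t = 0)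
    (P Q : MvPolynomial σ ℂ) (hPQ : α * P ^ 2 + 2 * β * P * Q + γ * Q ^ 2 = 0) :
    P = 0 ∧ Q = 0 := by
  have hα0 : α ≠ 0 := by
    intro h0
    have := (h 1 0 (by rw [h0]; simp)).1
    exact one_ne_zero this
  have hγ0 : γ ≠ 0 := by
    intro h0
    have := (h 0 1 (by rw [h0]; simp)).2
    exact one_ne_zero this
  by_cases hQ : Q = 0
  · rw [hQ] at hPQ
    have h1 : α * P ^ 2 = 0 := by linear_combination hPQ
    rcases mul_eq_zero.1 h1 with h2 | h2
    · exact absurd h2 hα0
    · exact ⟨pow_eq_zero_iff (two_ne_zero) |>.1 h2, hQ⟩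
  exfalso
  have h1 : (α * P + β * Q) ^ 2 = (β ^ 2 - α * γ) * Q ^ 2 := by
    linear_combination α * hPQ
  have h2 : Q ∣ α * P + β * Q := by
    have : Q ^ 2 ∣ (α * P + β * Q) ^ 2 := ⟨_, by rw [h1, mul_comm]⟩
    exact (UniqueFactorizationMonoid.pow_dvd_pow_iff_dvd two_ne_zero).1 this
  obtain ⟨δ, hδ⟩ := h2
  have h3 : (β - δ) * (β + δ) = α * γ := by
    have h4 : Q ^ 2 * δ ^ 2 = Q ^ 2 * (β ^ 2 - α * γ) := by
      rw [← mul_pow, ← hδ, h1, mul_comm]
    have h5 := mul_left_cancel₀ (pow_ne_zero 2 hQ) h4
    linear_combination -h5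
  have hαi := linear_irreducible hα hα0
  have hγi := linear_irreducible hγ hγ0
  have key : ∀ δ : MvPolynomial σ ℂ, (β - δ) * (β + δ) = α * γ → α ∣ β - δ → False := by
    rintro δ hδ ⟨e, he⟩
    have h4 : e * (β + δ) = γ := by
      have : α * (e * (β + δ)) = α * γ := by
        rw [← hδ, he]
        ring
      exact mul_left_cancel₀ hα0 this
    rcases hγi.isUnit_or_isUnit h4.symm with hu | hu
    · rw [MvPolynomial.isUnit_iff_eq_C_of_isReduced] at hu
      obtain ⟨c, hc, hce⟩ := hu
      have hc0 : c ≠ 0 := hc.ne_zero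
      have h5 := h (-c) 1 (by
        have e1 : (C c : MvPolynomial σ ℂ) * (β + δ) = γ := by rw [← hce]; exact h4
        have e2 : β - δ = α * C c := by rw [← hce]; exact he
        have e3 : (C ((-c) ^ 2) : MvPolynomial σ ℂ) = C c * C c := by rw [← C_mul]; ring_nf
        have e4 : (C (2 * -c * 1) : MvPolynomial σ ℂ) = -2 * C c := by
          have : (2 * -c * 1 : ℂ) = -2 * c := by ring
          rw [this, C_mul]
          congr 1
          exact map_neg C 2 |>.trans (congrArg Neg.neg (map_ofNat C 2))
        rw [e3, e4, one_pow, C_1, one_mul, ← e1]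
        linear_combination (-(C c : MvPolynomial σ ℂ)) * e2)
      exact one_ne_zero h5.2
    · rw [MvPolynomial.isUnit_iff_eq_C_of_isReduced] at hu
      obtain ⟨c, hc, hce⟩ := hu
      have hc0 : c ≠ 0 := hc.ne_zero
      have h5 := congrArg (eval (0 : σ → ℂ)) hce
      have h6 := congrArg (eval (0 : σ → ℂ)) he
      have hz : ∀ p : MvPolynomial σ ℂ, p.IsHomogeneous 1 → eval (0 : σ → ℂ) p = 0 := by
        intro p hp
        by_contra hne
        have h7 : p.coeff 0 ≠ 0 := by
          rwa [← constantCoeff_eq, ← eval_zero]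
        have := hp h7
        simp at this
      rw [map_add, hz β hβ, zero_add, eval_C] at h5
      rw [map_sub, map_mul, hz β hβ, hz α hα, zero_mul, zero_sub, neg_eq_zero] at h6
      exact hc0 (by rw [← h5, h6])
  rcases hαi.prime.dvd_or_dvd (⟨γ, h3⟩ : α ∣ (β - δ) * (β + δ)) with h4 | h4
  · exact key δ h3 h4
  · exact key (-δ) (by rw [← h3]; ring) (by rwa [sub_neg_eq_add])

theorem sum3 {R : Type} [AddCommMonoid R] (m : Fin 3) (f : Fin 3 → R) :
    ∑ i, f i = f m + f (m + 1) + f (m + 2) := by
  fin_cases m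
  · rw [Fin.sum_univ_three]
    rfl
  · rw [Fin.sum_univ_three]
    change f 0 + f 1 + f 2 = f 1 + f 2 + f 0
    abel
  · rw [Fin.sum_univ_three]
    change f 0 + f 1 + f 2 = f 2 + f 0 + f 1
    abel

theorem an : S_AN := by
  classical
  intro A hA η hne hrk hsm V hV
  by_contra hV0
  -- lowest terms
  obtain ⟨i0, hi0⟩ : ∃ i, V i ≠ 0 := by
    by_contra hcon
    push Not at hcon
    exact hV0 (funext hcon)
  obtain ⟨r, W, hW, iW, hiW⟩ := exists_lowest (∑ i, (ps η (V i)).natDegree)
    (fun i => ps η (V i)) (fun i => Finset.single_le_sum (f := fun i => (ps η (V i)).natDegree)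
      (fun _ _ => Nat.zero_le _) (Finset.mem_univ i)) ⟨i0, fun h => hi0 (ps_inj η _ h)⟩
  have hW' : ∑ i, ∑ j, W i * ps η (A i j) * W j = 0 := by
    have h1 := congrArg (ps η) hV
    rw [map_zero, map_sum] at h1
    have h2 : ∑ i, ps η (∑ j, V i * A i j * V j) =
        Polynomial.X ^ r * (Polynomial.X ^ r * ∑ i, ∑ j, W i * ps η (A i j) * W j) := by
      rw [Finset.mul_sum, Finset.mul_sum]
      refine Finset.sum_congr rfl fun i _ => ?_
      rw [map_sum, Finset.mul_sum, Finset.mul_sum]
      refine Finset.sum_congr rfl fun j _ => ?_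
      rw [map_mul, map_mul, hW i, hW j]
      ring
    rw [h2] at h1
    have hX : (Polynomial.X : Polynomial (MvPolynomial (Fin 4) ℂ)) ^ r ≠ 0 :=
      pow_ne_zero _ Polynomial.X_ne_zero
    exact (mul_eq_zero.1 ((mul_eq_zero.1 h1).resolve_left hX)).resolve_left hX
  set a : Fin 3 → Fin 3 → ℂ := fun i j => eval η (A i j) with ha
  set A1 : Fin 3 → Fin 3 → MvPolynomial (Fin 4) ℂ := fun i j => (ps η (A i j)).coeff 1 with hA1
  set U : Fin 3 → MvPolynomial (Fin 4) ℂ := fun i => (W i).coeff 0 with hU
  set U' : Fin 3 → MvPolynomial (Fin 4) ℂ := fun i => (W i).coeff 1 with hU'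
  have hsym : ∀ i j, a i j = a j i := fun i j => by
    rw [ha]
    simp only
    rw [hA.apply]
  have hsym1 : ∀ i j, A1 i j = A1 j i := fun i j => by
    rw [hA1]
    simp only
    rw [hA.apply]
  have c0 : ∑ i, ∑ j, U i * C (a i j) * U j = 0 := by
    have h1 := congrArg (fun p => Polynomial.coeff p 0) hW'
    simp only [Polynomial.finsetSum_coeff, Polynomial.mul_coeff_zero, ps_coeff_zero,
      Polynomial.coeff_zero] at h1
    exact h1
  have c1 : ∑ i, ∑ j, (U i * A1 i j * U j + (U' i * C (a i j) * U j + U i * C (a i j) * U' j)) =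
      0 := by
    have h1 := congrArg (fun p => Polynomial.coeff p 1) hW'
    simp only [Polynomial.finsetSum_coeff, Polynomial.mul_coeff_one, Polynomial.mul_coeff_zero,
      ps_coeff_zero, Polynomial.coeff_zero] at h1
    rw [← h1]
    refine Finset.sum_congr rfl fun i _ => Finset.sum_congr rfl fun j _ => ?_
    simp only [hU, hU', hA1, ha]
    ring
  obtain ⟨i, j, hij⟩ := hne
  -- a diagonal entry is not zero
  have hdiag : a i i ≠ 0 := by
    intro h0
    have h1 := hrk i j j i
    have h2 : a i j * a j i = a i i * a j j := h1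
    rw [h0, zero_mul, hsym j i] at h2
    exact hij (mul_self_eq_zero.1 h2)
  generalize i = m at hdiag
  clear hij
  have hrk1 : ∀ k l, a m m * a k l = a m k * a m l := by
    intro k l
    have h1 := hrk m k m l
    have h2 : a m m * a k l = a m l * a k m := h1
    rw [h2, hsym k m, mul_comm]
  -- the linear form
  set lam : MvPolynomial (Fin 4) ℂ := ∑ k, C (a m k) * U k with hlam
  have hl0 : lam = 0 := by
    have h1 : lam * lam = C (a m m) * ∑ i, ∑ j, U i * C (a i j) * U j := by
      rw [hlam, Finset.sum_mul_sum, Finset.mul_sum]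
      refine Finset.sum_congr rfl fun k _ => ?_
      rw [Finset.mul_sum]
      refine Finset.sum_congr rfl fun l _ => ?_
      have : C (a m m) * (U k * C (a k l) * U l) = C (a m m * a k l) * U k * U l := by
        rw [C_mul]
        ring
      rw [this, hrk1, C_mul]
      ring
    rw [c0, mul_zero] at h1
    exact mul_self_eq_zero.1 h1
  have hmm : (C (a m m) : MvPolynomial (Fin 4) ℂ) ≠ 0 := by
    rw [Ne, C_eq_zero]
    exact hdiag
  have hker : ∀ k, ∑ l, C (a k l) * U l = 0 := by
    intro k
    have h1 : C (a m m) * ∑ l, C (a k l) * U l = C (a m k) * lam := by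
      rw [hlam, Finset.mul_sum, Finset.mul_sum]
      refine Finset.sum_congr rfl fun l _ => ?_
      rw [← mul_assoc, ← C_mul, hrk1, C_mul]
      ring
    rw [hl0, mul_zero] at h1
    exact (mul_eq_zero.1 h1).resolve_left hmm
  have c2 : ∑ i, ∑ j, U i * A1 i j * U j = 0 := by
    have h1 : ∑ i, ∑ j, (U' i * C (a i j) * U j + U i * C (a i j) * U' j) = 0 := by
      have h2 : ∀ i, ∑ j, U' i * C (a i j) * U j = 0 := by
        intro i
        have := hker i
        calc ∑ j, U' i * C (a i j) * U j = U' i * ∑ l, C (a i l) * U l := by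
              rw [Finset.mul_sum]
              exact Finset.sum_congr rfl fun j _ => by ring
          _ = 0 := by rw [this, mul_zero]
      have h3 : ∑ i, ∑ j, U i * C (a i j) * U' j = 0 := by
        rw [Finset.sum_comm]
        refine Finset.sum_eq_zero fun j _ => ?_
        have := hker j
        calc ∑ i, U i * C (a i j) * U' j = U' j * ∑ l, C (a j l) * U l := by
              rw [Finset.mul_sum]
              exact Finset.sum_congr rfl fun i _ => by rw [hsym j i]; ring
          _ = 0 := by rw [this, mul_zero]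
      simp only [Finset.sum_add_distrib]
      rw [h3, add_zero]
      exact Finset.sum_eq_zero fun i _ => h2 i
    have h4 := c1
    simp only [Finset.sum_add_distrib] at h4 h1
    rw [h1, add_zero] at h4
    exact h4
  -- basis of the kernel
  set p : Fin 3 := m + 1 with hp
  set q : Fin 3 := m + 2 with hq
  set c : ℂ := a m p / a m m with hc
  set e : ℂ := a m q / a m m with he
  have hUm : U m = -(C c * U p + C e * U q) := by
    have h1 : lam = C (a m m) * U m + C (a m p) * U p + C (a m q) * U q := by
      rw [hlam, sum3 m]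
    rw [hl0] at h1
    have h2 : C (a m m) * (U m + (C c * U p + C e * U q)) = 0 := by
      have e1 : C (a m m) * C c = (C (a m p) : MvPolynomial (Fin 4) ℂ) := by
        rw [← C_mul, hc, mul_div_cancel₀ _ hdiag]
      have e2 : C (a m m) * C e = (C (a m q) : MvPolynomial (Fin 4) ℂ) := by
        rw [← C_mul, he, mul_div_cancel₀ _ hdiag]
      linear_combination -h1 + U p * e1 + U q * e2
    have h3 := (mul_eq_zero.1 h2).resolve_left hmm
    linear_combination h3
  -- constants in the kernel
  have hkc : ∀ s t : ℂ, ∃ u : Fin 3 → ℂ, u m = -(c * s + e * t) ∧ u p = s ∧ u q = t ∧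
      ∀ k, ∑ l, a k l * u l = 0 := by
    intro s t
    have hpm : p ≠ m := by rw [hp]; simp
    have hqm : q ≠ m := by rw [hq]; fin_cases m <;> decide
    have hqp : q ≠ p := by rw [hq, hp]; fin_cases m <;> decide
    refine ⟨fun k => if k = m then -(c * s + e * t) else if k = p then s else t, ?_, ?_, ?_, ?_⟩
    · simp
    · simp [hpm]
    · simp [hqm, hqp]
    · intro k
      have h1 : a m m * ∑ l, a k l * (if l = m then -(c * s + e * t) else if l = p then s else t) =
          a m k * ∑ l, a m l * (if l = m then -(c * s + e * t) else if l = p then s else t) := by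
        rw [Finset.mul_sum, Finset.mul_sum]
        refine Finset.sum_congr rfl fun l _ => ?_
        rw [← mul_assoc, hrk1]
        ring
      have h2 : ∑ l, a m l * (if l = m then -(c * s + e * t) else if l = p then s else t) = 0 := by
        rw [sum3 m]
        rw [if_pos rfl, if_neg hpm, if_pos rfl, if_neg hqm, if_neg hqp]
        have e1 : a m m * c = a m p := by rw [hc, mul_div_cancel₀ _ hdiag]
        have e2 : a m m * e = a m q := by rw [he, mul_div_cancel₀ _ hdiag]
        linear_combination (-s) * e1 - t * e2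
      rw [h2, mul_zero] at h1
      exact (mul_eq_zero.1 h1).resolve_left hdiag
  -- the binary form
  have hhom : ∀ i j, (A1 i j).IsHomogeneous 1 := by
    intro i j
    rw [hA1]
    simp only
    rw [ps_coeff_one]
    refine IsHomogeneous.sum _ _ _ fun l _ => ?_
    have := (isHomogeneous_C (Fin 4) (eval η (pderiv l (A i j)))).mul (isHomogeneous_X ℂ l)
    rwa [zero_add] at this
  have hCh : ∀ (z : ℂ) (f : MvPolynomial (Fin 4) ℂ), f.IsHomogeneous 1 →
      (C z * f).IsHomogeneous 1 := by
    intro z f hf
    have := (isHomogeneous_C (Fin 4) z).mul hf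
    rwa [zero_add] at this
  set α : MvPolynomial (Fin 4) ℂ := A1 p p - C (2 * c) * A1 m p + C (c ^ 2) * A1 m m with hα
  set β : MvPolynomial (Fin 4) ℂ := A1 p q - C c * A1 m q - C e * A1 m p + C (c * e) * A1 m m
    with hβ
  set γ : MvPolynomial (Fin 4) ℂ := A1 q q - C (2 * e) * A1 m q + C (e ^ 2) * A1 m m with hγ
  have expand : ∀ (um up uq : MvPolynomial (Fin 4) ℂ) (u : Fin 3 → MvPolynomial (Fin 4) ℂ),
      u m = um → u p = up → u q = uq → um = -(C c * up + C e * uq) →
      ∑ i, ∑ j, u i * A1 i j * u j = α * up ^ 2 + 2 * β * up * uq + γ * uq ^ 2 := by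
    intro um up uq u h1 h2 h3 h4
    rw [sum3 m, sum3 m, sum3 m, sum3 m, h1, h2, h3, h4, hsym1 p m, hsym1 q m, hsym1 q p, hα, hβ, hγ]
    have e1 : (C (2 * c) : MvPolynomial (Fin 4) ℂ) = 2 * C c := by
      rw [C_mul]
      congr 1
    have e2 : (C (2 * e) : MvPolynomial (Fin 4) ℂ) = 2 * C e := by
      rw [C_mul]
      congr 1
    rw [e1, e2, C_mul, C_pow, C_pow]
    ring
  obtain ⟨hP, hQ⟩ := binary_aniso (α := α) (β := β) (γ := γ)
    (((hhom _ _).sub (hCh _ _ (hhom _ _))).add (hCh _ _ (hhom _ _)))
    ((((hhom _ _).sub (hCh _ _ (hhom _ _))).sub (hCh _ _ (hhom _ _))).add (hCh _ _ (hhom _ _)))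
    (((hhom _ _).sub (hCh _ _ (hhom _ _))).add (hCh _ _ (hhom _ _)))
    (by
      intro s t hst
      by_contra hcon
      obtain ⟨u, hum, hup, huq, hku⟩ := hkc s t
      have hu0 : u ≠ 0 := by
        intro h0
        apply hcon
        rw [h0] at hup huq
        exact ⟨hup.symm, huq.symm⟩
      obtain ⟨l, hl⟩ := hsm u hu0 hku
      apply hl
      -- the coefficient
      have h1 : (ps η (∑ i, ∑ j, C (u i) * A i j * C (u j))).coeff 1 =
          ∑ i, ∑ j, C (u i) * A1 i j * C (u j) := by
        rw [map_sum, Polynomial.finsetSum_coeff]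
        refine Finset.sum_congr rfl fun i _ => ?_
        rw [map_sum, Polynomial.finsetSum_coeff]
        refine Finset.sum_congr rfl fun j _ => ?_
        rw [map_mul, map_mul, ps_C, ps_C, Polynomial.coeff_mul_C, Polynomial.coeff_C_mul]
      rw [expand (C (-(c * s + e * t))) (C s) (C t) (fun i => C (u i)) (by rw [hum])
        (by rw [hup]) (by rw [huq]) (by rw [C_neg, C_add, C_mul, C_mul])] at h1
      have h2 : α * C s ^ 2 + 2 * β * C s * C t + γ * C t ^ 2 = 0 := by
        rw [← hst, C_pow, C_pow, C_mul, C_mul]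
        have : (C 2 : MvPolynomial (Fin 4) ℂ) = 2 := map_ofNat C 2
        rw [this]
        ring
      rw [h2, ps_coeff_one] at h1
      have h3 := congrArg (eval (Pi.single l (1 : ℂ))) h1
      rw [map_zero, map_sum, Finset.sum_eq_single l] at h3
      · rw [map_mul, eval_C, eval_X, Pi.single_eq_same, mul_one] at h3
        exact h3
      · intro b _ hb
        rw [map_mul, eval_X, Pi.single_eq_of_ne hb, mul_zero]
      · intro h
        exact absurd (Finset.mem_univ _) h)
    (U p) (U q) (by rw [← expand (U m) (U p) (U q) U rfl rfl rfl hUm, c2])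
  apply hiW
  change U iW = 0
  have hUm0 : U m = 0 := by rw [hUm, hP, hQ, mul_zero, mul_zero, add_zero, neg_zero]
  have h3 : ∀ k : Fin 3, k = m ∨ k = p ∨ k = q := by
    intro k
    rw [hp, hq]
    fin_cases m <;> fin_cases k <;> decide
  rcases h3 iW with h | h | h <;> rw [h] <;> assumption

end Pool.Agent.R845
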