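import Mathlib
import Pool.Agent.Helper226.Dim

/-! Common zeros of few polynomials. -/

set_option autoImplicit false

namespace Pool.Agent.R845

open MvPolynomial

/-- fewer than `n` polynomials in `n` variables with a common zero have another one -/
theorem exists_other_zero {n : ℕ} (s : Finset (MvPolynomial (Fin n) ℂ)) (hs : s.card < n)
    (a : Fin n → ℂ) (ha : ∀ p ∈ s, eval a p = 0) : ∃ b, b ≠ a ∧ ∀ p ∈ s, eval b p = 0 := by
  by_contra hcon
  push Not at hcon
  have hzl : zeroLocus ℂ (Ideal.span (s : Set (MvPolynomial (Fin n) ℂ))) = {a} := by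
    rw [zeroLocus_span]
    ext x
    simp only [Set.mem_singleton_iff, Set.mem_ofPred_eq, Finset.mem_coe]
    constructor
    · intro h
      by_contra hx
      obtain ⟨p, hp, hp0⟩ := hcon x hx
      apply hp0
      have := h p hp
      rwa [aeval_eq_eval] at this
    · rintro rfl p hp
      rw [aeval_eq_eval]
      exact ha p hp
  have hrad := vanishingIdeal_zeroLocus_eq_radical (k := ℂ) (K := ℂ)
    (Ideal.span (s : Set (MvPolynomial (Fin n) ℂ)))
  rw [hzl] at hrad
  have hmax : (vanishingIdeal ℂ ({a} : Set (Fin n → ℂ))).IsMaximal :=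
    inferInstance
  have hmin : vanishingIdeal ℂ ({a} : Set (Fin n → ℂ)) ∈
      (Ideal.span (s : Set (MvPolynomial (Fin n) ℂ))).minimalPrimes := by
    rw [← Ideal.radical_minimalPrimes, ← hrad]
    have := hmax.isPrime
    rw [Ideal.minimalPrimes_eq_subsingleton_self]
    exact Set.mem_singleton _
  have h1 := Ideal.height_le_card_of_mem_minimalPrimes_span_finset hmin
  rw [Pool.Agent.Helper226.mvPolynomial_height ℂ n _ hmax] at h1
  have h2 : n ≤ s.card := by exact_mod_cast h1
  omega

/-- the same for families of polynomials -/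
theorem exists_other_zero' {n : ℕ} {ι : Type*} [Fintype ι] (hι : Fintype.card ι < n)
    (p : ι → MvPolynomial (Fin n) ℂ)
    (a : Fin n → ℂ) (ha : ∀ i, eval a (p i) = 0) : ∃ b, b ≠ a ∧ ∀ i, eval b (p i) = 0 := by
  classical
  obtain ⟨b, hb, h⟩ := exists_other_zero (Finset.univ.image p)
    ((Finset.card_image_le).trans_lt hι) a (by
      intro q hq
      obtain ⟨i, -, rfl⟩ := Finset.mem_image.1 hq
      exact ha i)
  exact ⟨b, hb, fun i => h _ (Finset.mem_image.2 ⟨i, Finset.mem_univ _, rfl⟩)⟩

/-- the same with an arbitrary finite set of variables -/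
theorem exists_other_zero'' {σ : Type*} [Fintype σ] {ι : Type*} [Fintype ι]
    (hι : Fintype.card ι < Fintype.card σ)
    (p : ι → MvPolynomial σ ℂ)
    (a : σ → ℂ) (ha : ∀ i, eval a (p i) = 0) : ∃ b, b ≠ a ∧ ∀ i, eval b (p i) = 0 := by
  classical
  let e := Fintype.equivFin σ
  obtain ⟨b, hb, h⟩ := exists_other_zero' hι (fun i => rename e (p i)) (a ∘ e.symm) (by
    intro i
    rw [eval_rename]
    have : (a ∘ e.symm) ∘ e = a := by
      funext j
      simp
    rw [this]
    exact ha i)
  refine ⟨b ∘ e, ?_, fun i => ?_⟩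
  · intro hc
    apply hb
    rw [← hc]
    funext j
    simp
  · have := h i
    rwa [eval_rename] at this

end Pool.Agent.R845
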