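import Mathlib
import Pool.Agent.R845.Zero
import Pool.Agent.Y201.C3.Stm

/-! # Project C3, job ETA: a point where the rank is at most one -/

set_option autoImplicit false

namespace Pool.Agent.R845

open MvPolynomial Pool.Agent.Y201.C3

theorem eta : S_ETA := by
  intro A hA h0
  obtain ⟨b, hb, h⟩ := exists_other_zero'' (σ := Fin 4 ⊕ Fin 3)
    (ι := {p : Fin 3 × Fin 3 // p.1 ≤ p.2}) (by decide)
    (fun p => rename Sum.inl (A p.1.1 p.1.2) - X (Sum.inr p.1.1) * X (Sum.inr p.1.2)) 0 (by
      rintro ⟨⟨i, j⟩, hij⟩
      simp only [map_sub, map_mul, eval_X, Pi.zero_apply, mul_zero, sub_zero]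
      rw [eval_rename]
      exact h0 i j)
  have key : ∀ i j, eval (b ∘ Sum.inl) (A i j) = b (Sum.inr i) * b (Sum.inr j) := by
    have h1 : ∀ i j, i ≤ j → eval (b ∘ Sum.inl) (A i j) = b (Sum.inr i) * b (Sum.inr j) := by
      intro i j hij
      have := h ⟨(i, j), hij⟩
      simp only [map_sub, map_mul, eval_X] at this
      rw [eval_rename] at this
      exact sub_eq_zero.1 this
    intro i j
    rcases le_total i j with hij | hij
    · exact h1 i j hij
    · rw [← hA.apply i j, h1 j i hij, mul_comm]
  refine ⟨b ∘ Sum.inl, ?_, ?_⟩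
  · intro hz
    apply hb
    have hu : ∀ i, b (Sum.inr i) = 0 := by
      intro i
      have h2 := key i i
      rw [hz, h0] at h2
      exact mul_self_eq_zero.1 h2.symm
    funext s
    rcases s with s | s
    · exact congrFun hz s
    · exact hu s
  · intro i j k l
    rw [key, key, key, key]
    ring

end Pool.Agent.R845
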