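import Mathlib
import Pool.Agent.R845.An
import Pool.Agent.R845.Eta
import Pool.Agent.Y201.LI.Stm2
import Pool.Agent.Y246.C3.Cb
import Pool.Agent.Y201.C3.Tri

/-! # Project LI, job ANI2: the conic bundle of a line contained in no plane is anisotropic -/

set_option autoImplicit false

namespace Pool.Agent.R845

open MvPolynomial Pool.Agent.Y201.C3 Pool.Agent.Y201.LI Pool.Agent.Y246.C3

theorem der_Bf {T : Fin 6 → Fin 6 → Fin 6 → ℂ} {R : Type} [CommRing R] [Algebra ℂ R]
    (D : Derivation ℂ R R) (x y z : Fin 6 → R) :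
    D (Bf T x y z) = Bf T (fun i => D (x i)) y z + Bf T x (fun i => D (y i)) z +
      Bf T x y (fun i => D (z i)) := by
  unfold Bf
  simp only [map_sum, ← Finset.sum_add_distrib]
  refine Finset.sum_congr rfl fun i _ => Finset.sum_congr rfl fun j _ =>
    Finset.sum_congr rfl fun k _ => ?_
  rw [Derivation.leibniz, Derivation.leibniz, Derivation.leibniz, Derivation.map_algebraMap]
  simp only [smul_eq_mul]
  ring

theorem Bf_zero1 {T : Fin 6 → Fin 6 → Fin 6 → ℂ} {R : Type} [CommRing R] [Algebra ℂ R]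
    (y z : Fin 6 → R) : Bf T (fun _ => 0) y z = 0 := by
  unfold Bf
  simp

theorem Bf_zero2 {T : Fin 6 → Fin 6 → Fin 6 → ℂ} {R : Type} [CommRing R] [Algebra ℂ R]
    (y z : Fin 6 → R) : Bf T y (fun _ => 0) z = 0 := by
  unfold Bf
  simp

theorem Bf_E3 {T : Fin 6 → Fin 6 → Fin 6 → ℂ} (x y : Fin 6 → ℂ) (k : Fin 6) :
    Bf T x y (E k) = ∑ i, ∑ j, T i j k * x i * y j := by
  unfold Bf
  refine Finset.sum_congr rfl fun i _ => Finset.sum_congr rfl fun j _ => ?_
  rw [Finset.sum_eq_single k]
  · unfold E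
    rw [Pi.single_eq_same, mul_one]
    rfl
  · intro b _ hb
    unfold E
    rw [Pi.single_eq_of_ne hb]
    ring
  · intro h
    exact absurd (Finset.mem_univ _) h

theorem Bf_lin3 {T : Fin 6 → Fin 6 → Fin 6 → ℂ} (x y z : Fin 6 → ℂ) :
    Bf T x y z = ∑ k, z k * Bf T x y (E k) := by
  simp only [Bf_E3, Finset.mul_sum]
  unfold Bf
  symm
  rw [Finset.sum_comm]
  refine Finset.sum_congr rfl fun i _ => ?_
  rw [Finset.sum_comm]
  refine Finset.sum_congr rfl fun j _ => Finset.sum_congr rfl fun k _ => ?_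
  change z k * (T i j k * x i * y j) = T i j k * x i * y j * z k
  ring

/-- a point where all the derivatives vanish -/
theorem smooth_zero {T : Fin 6 → Fin 6 → Fin 6 → ℂ} (hT : SymT T) (hS : SmoothT T) (w : Fin 6 → ℂ)
    (h : ∀ k, Bf T w w (E k) = 0) : w = 0 := by
  apply hS
  intro i
  have h1 := h i
  rw [Bf_E3] at h1
  rw [← h1]
  refine Finset.sum_congr rfl fun j _ => Finset.sum_congr rfl fun k _ => ?_
  rw [(hT i j k).1, (hT j i k).2]

theorem ani2 : S_ANI2 := by
  intro T hT hS hL hNP V hV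
  obtain ⟨η, hη, hrk⟩ := eta (cm T yy) (cm_symm yy) (by
    intro i j
    have h1 := cm_map (T := T) (aeval (0 : Fin 4 → ℂ)) yy i j
    have h2 : (fun i => aeval (0 : Fin 4 → ℂ) (yy i)) = fun _ => (0 : ℂ) := by
      funext i
      fin_cases i <;> simp [yy]
    rw [h2] at h1
    rw [← aeval_eq_eval]
    change aeval (0 : Fin 4 → ℂ) (cm T yy i j) = 0
    rw [h1]
    have e1 : ∀ x y : Fin 6 → ℂ, Bf T x y (fun _ => 0) = 0 := by
      intro x y
      unfold Bf
      simp
    fin_cases i <;> fin_cases j <;> simp [cm, e1])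
  -- the vector
  set y : Fin 6 → ℂ := ![0, 0, η 0, η 1, η 2, η 3] with hy
  have hyy : (fun i => aeval η (yy i)) = y := by
    funext i
    fin_cases i <;> simp [yy, hy]
  have hcm : ∀ i j, eval η (cm T yy i j) = cm T y i j := by
    intro i j
    have h1 := cm_map (T := T) (aeval η) yy i j
    rw [hyy] at h1
    rw [← h1]
    rfl
  have hy0 : y ≠ 0 := by
    intro h0
    apply hη
    funext i
    fin_cases i
    · exact congrFun h0 2
    · exact congrFun h0 3
    · exact congrFun h0 4
    · exact congrFun h0 5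
  refine an (cm T yy) (cm_symm yy) η ?_ hrk ?_ V hV
  · -- the matrix is not zero
    by_contra hcon
    push Not at hcon
    have hz : ∀ u : Fin 3 → ℂ, qf (cm T y) u = 0 := by
      intro u
      unfold qf
      refine Finset.sum_eq_zero fun i _ => Finset.sum_eq_zero fun j _ => ?_
      rw [← hcm, hcon, mul_zero, zero_mul]
    obtain ⟨i, j, k, hijk⟩ := hNP y rfl rfl hy0
    apply hijk
    have h4 : ∀ z : Fin 3 → ℂ, Bg (comp T ![E 0, E 1, y]) z z z = 0 := by
      intro z
      rw [Bg_comp hT]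
      have h5 := key hT hL y z
      rw [hz, mul_zero] at h5
      rw [← Bf_eq, ← h5]
      congr 1 <;>
      · funext i
        rw [Fin.sum_univ_three]
        change z 0 * E 0 i + z 1 * E 1 i + z 2 * y i = z 0 * E 0 i + (z 1 * E 1 i + z 2 * y i)
        ring
    have h5 := polar (comp_sym hT _) h4 (fun a => if a = i then (1 : ℂ) else 0)
      (fun b => if b = j then (1 : ℂ) else 0) (fun c => if c = k then (1 : ℂ) else 0)
    rw [← T_eq] at h5
    exact h5
  · intro u hu hku
    by_contra hcon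
    push Not at hcon
    -- the vector `w`
    set e : Fin 6 → ℂ := fun i => u 0 * E 0 i + u 1 * E 1 i with he
    set w : Fin 6 → ℂ := fun i => u 0 * E 0 i + (u 1 * E 1 i + u 2 * y i) with hw
    have e000 : Bf T (E 0 : Fin 6 → ℂ) (E 0) (E 0) = 0 :=
      Bf_E0 hL (by decide) (by decide) (by decide)
    have e001 : Bf T (E 0 : Fin 6 → ℂ) (E 0) (E 1) = 0 :=
      Bf_E0 hL (by decide) (by decide) (by decide)
    have e010 : Bf T (E 0 : Fin 6 → ℂ) (E 1) (E 0) = 0 :=
      Bf_E0 hL (by decide) (by decide) (by decide)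
    have e011 : Bf T (E 0 : Fin 6 → ℂ) (E 1) (E 1) = 0 :=
      Bf_E0 hL (by decide) (by decide) (by decide)
    have e100 : Bf T (E 1 : Fin 6 → ℂ) (E 0) (E 0) = 0 :=
      Bf_E0 hL (by decide) (by decide) (by decide)
    have e101 : Bf T (E 1 : Fin 6 → ℂ) (E 0) (E 1) = 0 :=
      Bf_E0 hL (by decide) (by decide) (by decide)
    have e110 : Bf T (E 1 : Fin 6 → ℂ) (E 1) (E 0) = 0 :=
      Bf_E0 hL (by decide) (by decide) (by decide)
    have e111 : Bf T (E 1 : Fin 6 → ℂ) (E 1) (E 1) = 0 :=
      Bf_E0 hL (by decide) (by decide) (by decide)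
    have r0 := hku 0
    have r1 := hku 1
    simp only [hcm] at r0 r1
    rw [Fin.sum_univ_three] at r0 r1
    have hww : ∀ z : Fin 6 → ℂ, Bf T w w z =
        u 0 ^ 2 * Bf T (E 0) (E 0) z + 2 * u 0 * u 1 * Bf T (E 0) (E 1) z +
          u 1 ^ 2 * Bf T (E 1) (E 1) z + 2 * u 0 * u 2 * Bf T (E 0) y z +
          2 * u 1 * u 2 * Bf T (E 1) y z + u 2 ^ 2 * Bf T y y z := by
      intro z
      rw [hw]
      simp only [Bf_add1, Bf_add2 hT, Bf_smul1, Bf_smul2 hT]
      rw [Bf_comm12 hT (E 1) (E 0) z, Bf_comm12 hT y (E 0) z, Bf_comm12 hT y (E 1) z]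
      ring
    have hk0 : Bf T w w (E 0) = 0 := by
      rw [hww, e000, e010, e110, Bf_comm23 hT (E 0) y (E 0), Bf_comm23 hT (E 1) y (E 0),
        Bf_comm12 hT (E 1) (E 0) y, Bf_comm23 hT y y (E 0), Bf_comm12 hT y (E 0) y]
      simp only [cm, Matrix.of_apply, Matrix.cons_val', Matrix.cons_val_zero,
        Matrix.cons_val_one, Matrix.cons_val_two, Matrix.head_cons, Matrix.tail_cons,
        Algebra.algebraMap_self, RingHom.id_apply] at r0
      have h3 : (3 * Bf T (E 0) (E 0) y * u 0 + 3 * Bf T (E 0) (E 1) y * u 1 +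
          (3 / 2 : ℂ) * Bf T (E 0) y y * u 2) = 0 := by
        rw [← r0]
      linear_combination (2 / 3 : ℂ) * u 2 * h3
    have hk1 : Bf T w w (E 1) = 0 := by
      rw [hww, e001, e011, e111, Bf_comm23 hT (E 0) y (E 1), Bf_comm23 hT (E 1) y (E 1),
        Bf_comm23 hT y y (E 1), Bf_comm12 hT y (E 1) y]
      have h3 : (3 * Bf T (E 0) (E 1) y * u 0 + 3 * Bf T (E 1) (E 1) y * u 1 +
          (3 / 2 : ℂ) * Bf T (E 1) y y * u 2) = 0 := by
        rw [← r1]
        rfl
      linear_combination (2 / 3 : ℂ) * u 2 * h3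
    have hkl : ∀ l : Fin 4, Bf T w w (E (l.succ.succ)) = 0 := by
      intro l
      have h3 := hcon l
      have h4 : (∑ i, ∑ j, C (u i) * cm T yy i j * C (u j) : MvPolynomial (Fin 4) ℂ) =
          qf (cm T yy) (fun i => C (u i)) := rfl
      rw [h4, qf_cm] at h3
      have hDE : ∀ a : Fin 6, (fun i => pderiv l ((E a : Fin 6 → MvPolynomial (Fin 4) ℂ) i)) =
          fun _ => 0 := by
        intro a
        funext i
        unfold E
        by_cases h : i = a
        · subst h
          rw [Pi.single_eq_same]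
          exact Derivation.map_one_eq_zero _
        · rw [Pi.single_eq_of_ne h, map_zero]
      have hDy : (fun i => pderiv l (yy i)) =
          (E l.succ.succ : Fin 6 → MvPolynomial (Fin 4) ℂ) := by
        funext i
        unfold E yy
        fin_cases l <;> fin_cases i <;> simp [pderiv_X, Pi.single_apply]
      have hform : (3 * Bf T (E 0) (E 0) yy * C (u 0) ^ 2 +
          6 * Bf T (E 0) (E 1) yy * C (u 0) * C (u 1) +
          3 * Bf T (E 1) (E 1) yy * C (u 1) ^ 2 + 3 * Bf T (E 0) yy yy * C (u 0) * C (u 2) +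
          3 * Bf T (E 1) yy yy * C (u 1) * C (u 2) + Bf T yy yy yy * C (u 2) ^ 2 :
            MvPolynomial (Fin 4) ℂ) =
          C (3 * u 0 ^ 2) * Bf T (E 0) (E 0) yy + C (6 * u 0 * u 1) * Bf T (E 0) (E 1) yy +
          C (3 * u 1 ^ 2) * Bf T (E 1) (E 1) yy + C (3 * u 0 * u 2) * Bf T (E 0) yy yy +
          C (3 * u 1 * u 2) * Bf T (E 1) yy yy + C (u 2 ^ 2) * Bf T yy yy yy := by
        simp only [C_mul, C_pow, map_ofNat]
        ring
      rw [hform] at h3
      simp only [map_add, pderiv_C_mul, der_Bf, hDE, hDy, Bf_zero1, Bf_zero2, zero_add] at h3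
      have hev : ∀ x y z : Fin 6 → MvPolynomial (Fin 4) ℂ, eval η (Bf T x y z) =
          Bf T (fun i => aeval η (x i)) (fun i => aeval η (y i)) (fun i => aeval η (z i)) := by
        intro x y z
        rw [← Bf_map]
        rfl
      simp only [map_mul, map_add, eval_C, hev, hyy, E_map] at h3
      rw [hww]
      rw [Bf_comm23 hT (E 0) (E l.succ.succ) y, Bf_comm23 hT (E 1) (E l.succ.succ) y,
        Bf_comm12 hT (E l.succ.succ) y y, Bf_comm23 hT y (E l.succ.succ) y] at h3
      linear_combination (1 / 3 : ℂ) * h3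
    have hw0 : w = 0 := by
      apply smooth_zero hT hS
      intro k
      fin_cases k
      · exact hk0
      · exact hk1
      · exact hkl 0
      · exact hkl 1
      · exact hkl 2
      · exact hkl 3
    apply hu
    have hw0' := congrFun hw0 0
    have hw1' := congrFun hw0 1
    have eE : ∀ a b : Fin 6, (E a : Fin 6 → ℂ) b = if b = a then 1 else 0 := by
      intro a b
      unfold E
      rw [Pi.single_apply]
    simp only [hw, eE, hy] at hw0' hw1'
    have u0 : u 0 = 0 := by simpa using hw0'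
    have u1 : u 1 = 0 := by simpa using hw1'
    have u2 : u 2 = 0 := by
      by_contra hne
      apply hy0
      funext i
      have := congrFun hw0 i
      simp only [hw, u0, u1, zero_mul, zero_add] at this
      exact (mul_eq_zero.1 this).resolve_left hne
    funext i
    fin_cases i
    · exact u0
    · exact u1
    · exact u2

end Pool.Agent.R845
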