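import Mathlib
import Pool.Agent.R845.Ani2
import Pool.Agent.TH238.QP.Lin

/-! # Project LI, job NET: the net of polar conics of a plane in a smooth cubic fourfold -/

set_option autoImplicit false

namespace Pool.Agent.R845

open MvPolynomial Pool.Agent.Y201.C3 Pool.Agent.Y201.LI Pool.Agent.Y246.C3 Pool.Agent.TH238.QP

theorem Bf_sum2 {T : Fin 6 → Fin 6 → Fin 6 → ℂ} (hT : SymT T) {ι : Type} (s : Finset ι)
    (x : Fin 6 → ℂ) (y : ι → Fin 6 → ℂ) (z : Fin 6 → ℂ) :
    Bf T x (fun i => ∑ a ∈ s, y a i) z = ∑ a ∈ s, Bf T x (y a) z := by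
  rw [Bf_eq, Bg_sum2 hT]
  rfl

theorem Bf_lin1 {T : Fin 6 → Fin 6 → Fin 6 → ℂ} (hT : SymT T) (x y z : Fin 6 → ℂ) :
    Bf T x y z = ∑ k, x k * Bf T (E k) y z := by
  rw [Bf_comm12 hT, Bf_comm23 hT, Bf_lin3]
  refine Finset.sum_congr rfl fun k _ => ?_
  rw [Bf_comm23 hT, Bf_comm12 hT]

theorem net : S_NET := by
  intro T hT hS v hv hplane
  by_contra hcon
  push Not at hcon
  let A : Fin 6 → Matrix (Fin 3) (Fin 3) ℂ := fun k => Matrix.of fun i j => Bf T (E k) (v i) (v j)
  have hMM : ∀ x : Fin 6 → ℂ, MM A x = Matrix.of fun i j => Bf T x (v i) (v j) := by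
    intro x
    ext i j
    unfold MM
    rw [Matrix.sum_apply, Matrix.of_apply, Bf_lin1 hT]
    rfl
  obtain ⟨x, hx⟩ := exists_max_rank A
  have hdet : (MM A x).det = 0 := by
    rw [hMM]
    exact hcon x
  obtain ⟨u, hu0, hu⟩ := Matrix.exists_mulVec_eq_zero_iff.2 hdet
  have hAs : ∀ i, (A i).transpose = A i := by
    intro i
    ext a b
    change Bf T (E i) (v b) (v a) = Bf T (E i) (v a) (v b)
    rw [Bf_comm23 hT]
  have hiso := isotropic A hAs x hx u hu
  set w : Fin 6 → ℂ := fun i => ∑ a, u a * v a i with hw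
  have hw0 : w = 0 := by
    apply smooth_zero hT hS
    intro k
    have h1 := hiso (E k)
    rw [hMM] at h1
    rw [Bf_comm23 hT, Bf_comm12 hT]
    have h2 : Bf T (E k) w w = ∑ a, ∑ b, u a * (u b * Bf T (E k) (v a) (v b)) := by
      rw [hw, Bf_sum2 hT]
      refine Finset.sum_congr rfl fun a _ => ?_
      rw [Bf_comm23 hT, Bf_sum2 hT]
      refine Finset.sum_congr rfl fun b _ => ?_
      rw [Bf_smul2 hT, Bf_comm23 hT, Bf_smul2 hT]
      ring
    rw [h2, ← h1]
    simp only [dotProduct, Matrix.mulVec, Matrix.of_apply, Finset.mul_sum]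
    refine Finset.sum_congr rfl fun a _ => Finset.sum_congr rfl fun b _ => ?_
    ring
  apply hu0
  rw [Fintype.linearIndependent_iff] at hv
  funext i
  refine hv u ?_ i
  funext j
  have := congrFun hw0 j
  rw [hw] at this
  simpa using this

end Pool.Agent.R845
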