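import Mathlib
import Pool.Agent.R845.Net
import Pool.Agent.Y201.C3.Coord

/-! Smooth cubic forms are irreducible; forms attached to a plane in a cubic fourfold. -/

set_option autoImplicit false

namespace Pool.Agent.R845

open MvPolynomial Pool.Agent.Y201.C3 Pool.Agent.Y201.LI Pool.Agent.Y246.C3 Pool.Agent.TH238.QP

theorem aeval_line {n : ℕ} (x : Fin n → ℂ) (A : MvPolynomial (Fin n) ℂ) (t : ℂ) :
    (aeval (fun i => Polynomial.C (x i) * Polynomial.X : Fin n → Polynomial ℂ) A).eval t =
      eval (fun i => x i * t) A := by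
  induction A using MvPolynomial.induction_on with
  | C a =>
    rw [aeval_C, eval_C]
    change (Polynomial.C a).eval t = a
    rw [Polynomial.eval_C]
  | add p q hp hq => rw [map_add, Polynomial.eval_add, hp, hq, map_add]
  | mul_X p i hp =>
    rw [map_mul, Polynomial.eval_mul, hp, map_mul, aeval_X, eval_X, Polynomial.eval_mul,
      Polynomial.eval_C, Polynomial.eval_X]

/-- a factor of a form which does not vanish at the origin is constant -/
theorem unit_of_const {n : ℕ} {F A B : MvPolynomial (Fin n) ℂ} {d : ℕ} (hF : F.IsHomogeneous d)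
    (hF0 : F ≠ 0) (hAB : F = A * B) (hB : eval 0 B ≠ 0) : IsUnit B := by
  have key : ∀ x : Fin n → ℂ, eval x F ≠ 0 → eval x B = eval 0 B := by
    intro x hx
    set f : Polynomial ℂ :=
      aeval (fun i => Polynomial.C (x i) * Polynomial.X : Fin n → Polynomial ℂ) A with hf
    set g : Polynomial ℂ :=
      aeval (fun i => Polynomial.C (x i) * Polynomial.X : Fin n → Polynomial ℂ) B with hg
    have hg0 : g.eval 0 = eval 0 B := by
      rw [hg, aeval_line]
      congr 1
      congr 1
      funext i
      exact mul_zero _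
    have hg1 : g.eval 1 = eval x B := by
      rw [hg, aeval_line]
      congr 1
      congr 1
      funext i
      exact mul_one _
    have hfg : f * g = Polynomial.C (eval x F) * Polynomial.X ^ d := by
      apply Polynomial.funext
      intro t
      rw [hf, hg, ← map_mul, ← hAB, aeval_line, Polynomial.eval_mul, Polynomial.eval_C,
        Polynomial.eval_pow, Polynomial.eval_X]
      have h1 : (fun i => x i * t) = fun i => t * x i := by
        funext i
        ring
      rw [h1]
      have h3 := Pool.Agent.TH314.PD.aeval_smul_form hF (A := ℂ) t x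
      rw [aeval_eq_eval, aeval_eq_eval] at h3
      change eval (fun i => t * x i) F = _ at h3
      rw [h3]
      ring
    have hX : ¬ Polynomial.X ∣ g := by
      rw [Polynomial.X_dvd_iff, Polynomial.coeff_zero_eq_eval_zero, hg0]
      exact hB
    have hdvd : Polynomial.X ^ d ∣ f * g := by
      rw [hfg]
      exact Dvd.intro_left _ rfl
    obtain ⟨f', hf'⟩ := Polynomial.prime_X.pow_dvd_of_dvd_mul_right d hX hdvd
    have h2 : f' * g = Polynomial.C (eval x F) := by
      have h3 : Polynomial.X ^ d * (f' * g) = Polynomial.X ^ d * Polynomial.C (eval x F) := by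
        rw [← mul_assoc, ← hf', hfg, mul_comm]
      exact mul_left_cancel₀ (pow_ne_zero d Polynomial.X_ne_zero) h3
    have hne : f' ≠ 0 ∧ g ≠ 0 := by
      constructor
      · rintro h
        rw [h, zero_mul] at h2
        exact hx (Polynomial.C_eq_zero.1 h2.symm)
      · intro h
        rw [h, mul_zero] at h2
        exact hx (Polynomial.C_eq_zero.1 h2.symm)
    have h4 := Polynomial.natDegree_mul hne.1 hne.2
    rw [h2, Polynomial.natDegree_C] at h4
    have h5 : g.natDegree = 0 := by omega
    obtain ⟨c, hc⟩ := Polynomial.natDegree_eq_zero.1 h5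
    rw [← hc, Polynomial.eval_C] at hg0 hg1
    rw [← hg1, hg0]
  have h0 : (B - C (eval 0 B)) * F = 0 := by
    apply MvPolynomial.funext
    intro x
    rw [map_mul, map_sub, eval_C, map_zero]
    by_cases hx : eval x F = 0
    · rw [hx, mul_zero]
    · rw [key x hx, sub_self, zero_mul]
  have h1 : B = C (eval 0 B) := by
    rcases mul_eq_zero.1 h0 with h | h
    · exact sub_eq_zero.1 h
    · exact absurd h hF0
  rw [h1]
  exact (Ne.isUnit hB).map C

/-- smooth hypersurfaces of dimension at least one are irreducible -/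
theorem irreducible_of_smooth {n : ℕ} (hn : 2 < n) {F : MvPolynomial (Fin n) ℂ} {d : ℕ}
    (hd : 1 ≤ d) (hF : F.IsHomogeneous d) (hF0 : F ≠ 0)
    (hsm : ∀ z : Fin n → ℂ, (∀ i, eval z (pderiv i F) = 0) → z = 0) : Irreducible F := by
  have hc : eval 0 F = 0 := by
    have h3 := Pool.Agent.TH314.PD.aeval_smul_form hF (A := ℂ) 0 (0 : Fin n → ℂ)
    rw [aeval_eq_eval, aeval_eq_eval] at h3
    have h4 : (fun i => (0 : ℂ) * (0 : Fin n → ℂ) i) = 0 := by
      funext i
      exact zero_mul _
    rw [h4, zero_pow (by omega), zero_mul] at h3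
    exact h3
  refine ⟨?_, ?_⟩
  · intro hu
    have h1 := hu.map (eval (0 : Fin n → ℂ))
    rw [hc] at h1
    exact not_isUnit_zero h1
  · intro A B hAB
    by_contra hcon
    push Not at hcon
    have hB : eval 0 B = 0 := by
      by_contra h
      exact hcon.2 (unit_of_const hF hF0 hAB h)
    have hA : eval 0 A = 0 := by
      by_contra h
      exact hcon.1 (unit_of_const hF hF0 (by rw [mul_comm]; exact hAB) h)
    obtain ⟨z, hz, h⟩ := exists_other_zero' (ι := Fin 2) (by rw [Fintype.card_fin]; exact hn)
      ![A, B] 0 (by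
        intro i
        fin_cases i
        · exact hA
        · exact hB)
    have hzA : eval z A = 0 := h 0
    have hzB : eval z B = 0 := h 1
    apply hz
    apply hsm
    intro i
    rw [hAB, Derivation.leibniz, map_add, smul_eq_mul, smul_eq_mul, map_mul, map_mul, hzA, hzB]
    ring

theorem frm_eval (T : Fin 6 → Fin 6 → Fin 6 → ℂ) (x : Fin 6 → ℂ) :
    eval x (frm T) = Bf T x x x := by
  rw [← aeval_eq_eval]
  exact aeval_frmG T x

theorem smooth_frm {T : Fin 6 → Fin 6 → Fin 6 → ℂ} (hT : SymT T) (hS : SmoothT T)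
    (z : Fin 6 → ℂ) (h : ∀ i, eval z (pderiv i (frm T)) = 0) : z = 0 := by
  apply hS
  intro i
  have h1 := h i
  rw [← aeval_eq_eval] at h1
  have h3 : aeval z (pderiv i (frm T)) = _ := pderiv_frmG hT i z
  rw [h3] at h1
  rw [smooth_iff, Bf_eq]
  have h4 : (3 : ℂ) ≠ 0 := by norm_num
  rcases mul_eq_zero.1 h1 with h5 | h5
  · exact absurd h5 h4
  · exact h5

end Pool.Agent.R845
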