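import Mathlib
import Pool.Agent.R845.Irr
import Pool.Agent.Y201.C3.Cases

/-! Forms attached to a plane in a cubic fourfold. -/

set_option autoImplicit false

namespace Pool.Agent.R845

open MvPolynomial Pool.Agent.Y201.C3 Pool.Agent.Y201.LI Pool.Agent.Y246.C3 Pool.Agent.TH238.QP

theorem aeval_line2 {n : ℕ} (x v : Fin n → ℂ) (A : MvPolynomial (Fin n) ℂ) (t : ℂ) :
    (aeval (fun i => Polynomial.C (x i) + Polynomial.C (v i) * Polynomial.X :
      Fin n → Polynomial ℂ) A).eval t = eval (fun i => x i + v i * t) A := by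
  induction A using MvPolynomial.induction_on with
  | C a =>
    rw [aeval_C, eval_C]
    change (Polynomial.C a).eval t = a
    rw [Polynomial.eval_C]
  | add p q hp hq => rw [map_add, Polynomial.eval_add, hp, hq, map_add]
  | mul_X p i hp =>
    rw [map_mul, Polynomial.eval_mul, hp, map_mul, aeval_X, eval_X, Polynomial.eval_add,
      Polynomial.eval_mul, Polynomial.eval_C, Polynomial.eval_C, Polynomial.eval_X]

theorem eval_Bf (T : Fin 6 → Fin 6 → Fin 6 → ℂ) (x : Fin 6 → ℂ)
    (a b c : Fin 6 → MvPolynomial (Fin 6) ℂ) :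
    eval x (Bf T a b c) =
      Bf T (fun i => eval x (a i)) (fun i => eval x (b i)) (fun i => eval x (c i)) := by
  unfold Bf
  simp only [map_sum, map_mul, algebraMap_eq, eval_C]
  rfl

noncomputable def Dv (T : Fin 6 → Fin 6 → Fin 6 → ℂ) (v : Fin 3 → Fin 6 → ℂ) :
    MvPolynomial (Fin 6) ℂ :=
  (Matrix.of fun i j : Fin 3 => Bf T X (fun l => C (v i l)) (fun l => C (v j l))).det

theorem eval_Dv (T : Fin 6 → Fin 6 → Fin 6 → ℂ) (v : Fin 3 → Fin 6 → ℂ) (x : Fin 6 → ℂ) :
    eval x (Dv T v) = (Matrix.of fun i j : Fin 3 => Bf T x (v i) (v j)).det := by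
  unfold Dv
  rw [RingHom.map_det]
  congr 1
  ext i j
  rw [RingHom.mapMatrix_apply, Matrix.map_apply, Matrix.of_apply, Matrix.of_apply, eval_Bf]
  simp only [eval_X, eval_C]

noncomputable def Lv (T : Fin 6 → Fin 6 → Fin 6 → ℂ) (v : Fin 6 → ℂ) :
    MvPolynomial (Fin 6) ℂ := Bf T X X (fun l => C (v l))

theorem eval_Lv (T : Fin 6 → Fin 6 → Fin 6 → ℂ) (v : Fin 6 → ℂ) (x : Fin 6 → ℂ) :
    eval x (Lv T v) = Bf T x x v := by
  unfold Lv
  rw [eval_Bf]
  simp only [eval_X, eval_C]

theorem zero_of_ann {T : Fin 6 → Fin 6 → Fin 6 → ℂ} (hT : SymT T) (hS : SmoothT T)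
    (v : Fin 6 → ℂ) (h : ∀ x : Fin 6 → ℂ, Bf T x v v = 0) : v = 0 := by
  apply smooth_zero hT hS
  intro k
  rw [Bf_comm23 hT, Bf_comm12 hT]
  exact h (E k)

theorem frm_add {T : Fin 6 → Fin 6 → Fin 6 → ℂ} (hT : SymT T) (x v : Fin 6 → ℂ) (t : ℂ) :
    eval (fun i => x i + v i * t) (frm T) =
      Bf T x x x + 3 * t * Bf T x x v + 3 * t ^ 2 * Bf T x v v + t ^ 3 * Bf T v v v := by
  rw [frm_eval]
  have h1 : (fun i => x i + v i * t) = fun i => x i + t * v i := by
    funext i
    ring
  rw [h1]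
  simp only [Bf_add1, Bf_add2 hT, Bf_add3 hT, Bf_smul1, Bf_smul2 hT, Bf_smul3 hT]
  rw [Bf_comm12 hT v x x, Bf_comm23 hT x v x, Bf_comm12 hT v x v, Bf_comm23 hT v v x,
    Bf_comm12 hT v x v]
  ring

theorem not_dvd_Dv {T : Fin 6 → Fin 6 → Fin 6 → ℂ} (hT : SymT T) (hS : SmoothT T)
    (v : Fin 3 → Fin 6 → ℂ) (hv : LinearIndependent ℂ v)
    (hpl : ∀ i j k, Bf T (v i) (v j) (v k) = 0) : ¬ frm T ∣ Dv T v := by
  rintro ⟨Q, hQ⟩
  obtain ⟨x₁, hx₁⟩ := net T hT hS v hv hpl
  have hD0 : Dv T v ≠ 0 := by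
    intro h
    apply hx₁
    rw [← eval_Dv, h, map_zero]
  have key : ∀ x : Fin 6 → ℂ, eval x (Dv T v) ≠ 0 → Bf T x (v 0) (v 0) = 0 := by
    intro x hx
    set f : Polynomial ℂ := aeval (fun i => Polynomial.C (x i) + Polynomial.C (v 0 i) *
      Polynomial.X : Fin 6 → Polynomial ℂ) (frm T) with hf
    set g : Polynomial ℂ := aeval (fun i => Polynomial.C (x i) + Polynomial.C (v 0 i) *
      Polynomial.X : Fin 6 → Polynomial ℂ) Q with hg
    have hfg : f * g = Polynomial.C (eval x (Dv T v)) := by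
      apply Polynomial.funext
      intro t
      rw [hf, hg, ← map_mul, ← hQ, aeval_line2, Polynomial.eval_C, eval_Dv, eval_Dv]
      congr 1
      ext i j
      rw [Matrix.of_apply, Matrix.of_apply]
      have h1 : (fun i => x i + v 0 i * t) = fun i => x i + t * v 0 i := by
        funext i
        ring
      rw [h1, Bf_add1, Bf_smul1, hpl, mul_zero, add_zero]
    have hne : f ≠ 0 ∧ g ≠ 0 := by
      constructor
      · rintro h
        rw [h, zero_mul] at hfg
        exact hx (Polynomial.C_eq_zero.1 hfg.symm)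
      · intro h
        rw [h, mul_zero] at hfg
        exact hx (Polynomial.C_eq_zero.1 hfg.symm)
    have h4 := Polynomial.natDegree_mul hne.1 hne.2
    rw [hfg, Polynomial.natDegree_C] at h4
    have h5 : f.natDegree = 0 := by omega
    obtain ⟨c, hc⟩ := Polynomial.natDegree_eq_zero.1 h5
    have h6 : ∀ t : ℂ, eval (fun i => x i + v 0 i * t) (frm T) = c := by
      intro t
      rw [← aeval_line2, ← hf, ← hc, Polynomial.eval_C]
    have e0 := h6 0
    have e1 := h6 1
    have e2 := h6 (-1)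
    rw [frm_add hT] at e0 e1 e2
    linear_combination (1 / 6 : ℂ) * e1 + (1 / 6 : ℂ) * e2 - (1 / 3 : ℂ) * e0
  have h0 : Bf T X (fun l => C (v 0 l)) (fun l => C (v 0 l)) * Dv T v = 0 := by
    apply MvPolynomial.funext
    intro x
    rw [map_mul, map_zero, eval_Bf]
    simp only [eval_X, eval_C]
    by_cases hx : eval x (Dv T v) = 0
    · rw [hx, mul_zero]
    · rw [key x hx, zero_mul]
  have h1 : Bf T X (fun l => C (v 0 l)) (fun l => C (v 0 l)) = (0 : MvPolynomial (Fin 6) ℂ) := by
    rcases mul_eq_zero.1 h0 with h | h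
    · exact h
    · exact absurd h hD0
  refine hv.ne_zero 0 (zero_of_ann hT hS _ fun x => ?_)
  have h2 := congrArg (eval x) h1
  rw [eval_Bf, map_zero] at h2
  simp only [eval_X, eval_C] at h2
  exact h2

theorem not_dvd_low {T : Fin 6 → Fin 6 → Fin 6 → ℂ} (hF0 : frm T ≠ 0)
    (A : MvPolynomial (Fin 6) ℂ) (hA : A ≠ 0) (hdeg : A.totalDegree ≤ 2) : ¬ frm T ∣ A := by
  rintro ⟨Q, hQ⟩
  have hQ0 : Q ≠ 0 := by
    rintro rfl
    exact hA (by rw [hQ, mul_zero])
  have h1 := totalDegree_mul_of_isDomain hF0 hQ0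
  rw [← hQ, (frm_hom T).totalDegree hF0] at h1
  omega

theorem not_dvd_Lv {T : Fin 6 → Fin 6 → Fin 6 → ℂ} (hT : SymT T) (hS : SmoothT T)
    (hF0 : frm T ≠ 0) (v : Fin 6 → ℂ) (hv : v ≠ 0) : ¬ frm T ∣ Lv T v := by
  apply not_dvd_low hF0
  · intro h
    apply hv
    apply zero_of_ann hT hS
    have h1 : ∀ x : Fin 6 → ℂ, Bf T x x v = 0 := by
      intro x
      rw [← eval_Lv, h, map_zero]
    intro x
    have h2 := h1 (fun i => x i + v i)
    rw [Bf_add1, Bf_add2 hT, Bf_add2 hT, h1 x, h1 v, Bf_comm12 hT v x v] at h2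
    linear_combination (1 / 2 : ℂ) * h2
  · have h1 : (Lv T v).IsHomogeneous 2 := by
      unfold Lv Bf
      refine IsHomogeneous.sum _ _ _ fun i _ => IsHomogeneous.sum _ _ _ fun j _ =>
        IsHomogeneous.sum _ _ _ fun k _ => ?_
      have h := (((isHomogeneous_C (Fin 6) (T i j k)).mul (isHomogeneous_X ℂ i)).mul
        (isHomogeneous_X ℂ j)).mul (isHomogeneous_C (Fin 6) (v k))
      exact h
    exact h1.totalDegree_le

/-- the isotropic vectors of a nondegenerate conic on a line -/
theorem conic_line (M : Matrix (Fin 3) (Fin 3) ℂ) (hM : M.det ≠ 0) (hs : M.transpose = M)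
    (l : Fin 3 → ℂ) (hl : l 0 ≠ 0) : ∃ S : Set (Fin 3 → ℂ), S.Finite ∧ (∀ s ∈ S, s ≠ 0) ∧
      ∀ u : Fin 3 → ℂ, u ≠ 0 → dotProduct l u = 0 → dotProduct u (M.mulVec u) = 0 →
        ∃ c : ℂ, c ≠ 0 ∧ ∃ s ∈ S, u = c • s := by
  set f : Fin 3 → ℂ := ![-(l 1 / l 0), 1, 0] with hf
  set g : Fin 3 → ℂ := ![-(l 2 / l 0), 0, 1] with hg
  have hsym : ∀ a b : Fin 3 → ℂ, dotProduct a (M.mulVec b) = dotProduct b (M.mulVec a) := by
    intro a b
    rw [Matrix.dotProduct_mulVec, ← Matrix.mulVec_transpose, hs, dotProduct_comm]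
  set Q : Polynomial ℂ := Polynomial.C (dotProduct f (M.mulVec f)) +
    Polynomial.C (2 * dotProduct f (M.mulVec g)) * Polynomial.X +
    Polynomial.C (dotProduct g (M.mulVec g)) * Polynomial.X ^ 2 with hQ
  have hQ0 : Q ≠ 0 := by
    intro h0
    have c0 : dotProduct f (M.mulVec f) = 0 := by
      have h := congrArg (fun p => Polynomial.coeff p 0) h0
      simp only [hQ, Polynomial.coeff_add, Polynomial.coeff_C_mul, Polynomial.coeff_X_pow,
        Polynomial.coeff_X, Polynomial.coeff_C, Polynomial.coeff_zero] at h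
      simpa using h
    have c1 : dotProduct f (M.mulVec g) = 0 := by
      have h := congrArg (fun p => Polynomial.coeff p 1) h0
      simp only [hQ, Polynomial.coeff_add, Polynomial.coeff_C_mul, Polynomial.coeff_X_pow,
        Polynomial.coeff_X, Polynomial.coeff_C, Polynomial.coeff_zero] at h
      simpa using h
    have c2 : dotProduct g (M.mulVec g) = 0 := by
      have h := congrArg (fun p => Polynomial.coeff p 2) h0
      simp only [hQ, Polynomial.coeff_add, Polynomial.coeff_C_mul, Polynomial.coeff_X_pow,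
        Polynomial.coeff_X, Polynomial.coeff_C, Polynomial.coeff_zero] at h
      simpa using h
    have key : ∀ w : Fin 3 → ℂ, dotProduct f w = 0 → dotProduct g w = 0 →
        w = (w 0 / l 0) • l := by
      intro w h1 h2
      rw [hf] at h1
      rw [hg] at h2
      simp only [dotProduct, Fin.sum_univ_three, Matrix.cons_val_zero, Matrix.cons_val_one,
        Matrix.cons_val_two, Matrix.head_cons, Matrix.tail_cons] at h1 h2
      funext i
      rw [Pi.smul_apply, smul_eq_mul]
      fin_cases i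
      · change w 0 = w 0 / l 0 * l 0
        field_simp
      · change w 1 = w 0 / l 0 * l 1
        linear_combination h1
      · change w 2 = w 0 / l 0 * l 2
        linear_combination h2
    have k1 := key (M.mulVec f) c0 (by rw [hsym]; exact c1)
    have k2 := key (M.mulVec g) c1 c2
    set α := M.mulVec f 0 / l 0 with hα
    set β := M.mulVec g 0 / l 0 with hβ
    have k3 : M.mulVec (β • f - α • g) = 0 := by
      rw [Matrix.mulVec_sub, Matrix.mulVec_smul, Matrix.mulVec_smul, k1, k2, smul_smul, smul_smul,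
        mul_comm β α, sub_self]
    have k4 : β • f - α • g = 0 := by
      by_contra hne
      exact hM (Matrix.exists_mulVec_eq_zero_iff.1 ⟨_, hne, k3⟩)
    have k5 : β = 0 := by
      have := congrFun k4 1
      simpa [hf, hg] using this
    have k6 : M.mulVec g = 0 := by
      rw [k2, k5, zero_smul]
    apply hM
    refine Matrix.exists_mulVec_eq_zero_iff.1 ⟨g, ?_, k6⟩
    intro h
    have := congrFun h 2
    simp [hg] at this
  refine ⟨{g} ∪ (fun t => f + t • g) '' {t | Q.IsRoot t},
    (Set.finite_singleton _).union ((Polynomial.finite_setOfPred_isRoot hQ0).image _), ?_, ?_⟩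
  · rintro s (hs | ⟨t, -, rfl⟩)
    · rw [Set.mem_singleton_iff.1 hs]
      intro h
      have := congrFun h 2
      simp [hg] at this
    · intro h
      have := congrFun h 1
      simp [hf, hg] at this
  · intro u hu h1 h2
    have hu1 : u = u 1 • f + u 2 • g := by
      simp only [dotProduct, Fin.sum_univ_three] at h1
      funext i
      fin_cases i
      · simp only [hf, hg, Pi.add_apply, Pi.smul_apply, smul_eq_mul]
        change u 0 = u 1 * (-(l 1 / l 0)) + u 2 * (-(l 2 / l 0))
        field_simp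
        linear_combination h1
      · simp [hf, hg]
      · simp [hf, hg]
    by_cases hu2 : u 1 = 0
    · refine ⟨u 2, ?_, g, Or.inl rfl, ?_⟩
      · intro h3
        apply hu
        rw [hu1, hu2, h3]
        simp
      · conv_lhs => rw [hu1, hu2, zero_smul, zero_add]
    · refine ⟨u 1, hu2, f + (u 2 / u 1) • g, Or.inr ⟨u 2 / u 1, ?_, rfl⟩, ?_⟩
      · rw [hu1] at h2
        simp only [Matrix.mulVec_add, Matrix.mulVec_smul, add_dotProduct, dotProduct_add,
          smul_dotProduct, dotProduct_smul, smul_eq_mul] at h2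
        rw [hsym g f] at h2
        change Q.eval (u 2 / u 1) = 0
        rw [hQ]
        simp only [Polynomial.eval_add, Polynomial.eval_mul, Polynomial.eval_C, Polynomial.eval_X,
          Polynomial.eval_pow]
        field_simp
        linear_combination h2
      · conv_lhs => rw [hu1]
        rw [smul_add, smul_smul, mul_div_cancel₀ _ hu2]

end Pool.Agent.R845
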