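import Mathlib
import Pool.Agent.R845.Forms

/-! # Project LI, job ARC: base points from the inverse map on a line -/

set_option autoImplicit false

namespace Pool.Agent.R845

open MvPolynomial Pool.Agent.Y201.C3 Pool.Agent.Y201.LI Pool.Agent.Y246.C3

theorem coeff_prod_pow {σ : Type} [DecidableEq σ] (h : σ → Polynomial ℂ) (n : ℕ)
    (hn : ∀ i, (h i).natDegree ≤ n) (d : σ → ℕ) (s : Finset σ) :
    (∏ i ∈ s, h i ^ d i).natDegree ≤ (∑ i ∈ s, d i) * n ∧
    (∏ i ∈ s, h i ^ d i).coeff ((∑ i ∈ s, d i) * n) = ∏ i ∈ s, (h i).coeff n ^ d i := by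
  induction s using Finset.induction_on with
  | empty => simp
  | insert a s ha ih =>
    obtain ⟨ih1, ih2⟩ := ih
    rw [Finset.prod_insert ha, Finset.sum_insert ha, Finset.prod_insert ha, add_mul]
    have h1 : (h a ^ d a).natDegree ≤ d a * n := Polynomial.natDegree_pow_le_of_le _ (hn a)
    refine ⟨Polynomial.natDegree_mul_le_of_le h1 ih1, ?_⟩
    rw [Polynomial.coeff_mul_add_eq_of_natDegree_le h1 ih1, ih2,
      Polynomial.coeff_pow_of_natDegree_le (hn a)]

theorem top_coeff {σ : Type} [Fintype σ] {e : ℕ} {A : MvPolynomial σ ℂ} (hA : A.IsHomogeneous e)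
    (h : σ → Polynomial ℂ) (n : ℕ) (hn : ∀ i, (h i).natDegree ≤ n) :
    (aeval h A).natDegree ≤ e * n ∧
    (aeval h A).coeff (e * n) = eval (fun i => (h i).coeff n) A := by
  classical
  rw [aeval_def, eval₂_eq', eval_eq']
  have hd : ∀ d ∈ A.support, ∑ i, d i = e := by
    intro d hd
    have h1 := hA.degree_eq_sum_deg_support hd
    rw [h1]
    exact (Finset.sum_subset (Finset.subset_univ _) (by
      intro x _ hx
      exact Finsupp.notMem_support_iff.1 hx)).symm
  constructor
  · refine Polynomial.natDegree_sum_le_of_forall_le _ _ fun d hd' => ?_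
    refine (Polynomial.natDegree_C_mul_le _ _).trans ?_
    have := (coeff_prod_pow h n hn d Finset.univ).1
    rwa [hd d hd'] at this
  · rw [Polynomial.finsetSum_coeff]
    refine Finset.sum_congr rfl fun d hd' => ?_
    have := (coeff_prod_pow h n hn d Finset.univ).2
    rw [hd d hd'] at this
    rw [← this]
    exact Polynomial.coeff_C_mul _

theorem taylor2 {σ : Type} [Fintype σ] [DecidableEq σ] {R : Type} [CommRing R] [Algebra ℂ R]
    (h w : σ → R) (ε : R) (A : MvPolynomial σ ℂ) :
    ∃ E : R, aeval (fun l => h l + ε * w l) A =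
      aeval h A + ε * ∑ l, w l * aeval h (pderiv l A) + ε ^ 2 * E := by
  induction A using MvPolynomial.induction_on with
  | C a =>
    refine ⟨0, ?_⟩
    simp only [aeval_C, pderiv_C, map_zero, mul_zero, Finset.sum_const_zero, add_zero]
  | add p q hp hq =>
    obtain ⟨E1, h1⟩ := hp
    obtain ⟨E2, h2⟩ := hq
    refine ⟨E1 + E2, ?_⟩
    simp only [map_add, mul_add, Finset.sum_add_distrib, h1, h2]
    ring
  | mul_X p i hp =>
    obtain ⟨E1, h1⟩ := hp
    refine ⟨E1 * h i + (∑ l, w l * aeval h (pderiv l p)) * w i + ε * E1 * w i, ?_⟩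
    have h2 : ∑ l, w l * aeval h (pderiv l (p * X i)) =
        (∑ l, w l * aeval h (pderiv l p)) * h i + aeval h p * w i := by
      have h3 : ∀ l, w l * aeval h (pderiv l (p * X i)) =
          w l * aeval h (pderiv l p) * h i + (if l = i then aeval h p * w i else 0) := by
        intro l
        rw [pderiv_mul, map_add, map_mul, map_mul, aeval_X, pderiv_X]
        by_cases hl : l = i
        · subst hl
          rw [Pi.single_eq_same, map_one, if_pos rfl]
          ring
        · rw [Pi.single_eq_of_ne (Ne.symm hl), map_zero, if_neg hl]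
          ring
      simp only [h3]
      rw [Finset.sum_add_distrib, Finset.sum_mul, Finset.sum_ite_eq' Finset.univ i,
        if_pos (Finset.mem_univ _)]
    rw [map_mul, map_mul, aeval_X, aeval_X, h1, h2]
    ring

theorem arc_aux (p q : Fin 6 → ℂ) (hpq : LinearIndependent ℂ ![p, q])
    (x : Fin 6 → Polynomial ℂ)
    (hx : ∀ i, x i = Polynomial.C (p i) + Polynomial.C (q i) * Polynomial.X)
    (G : Fin 6 → MvPolynomial (Fin 5) ℂ) (hG : ∀ i, (G i).IsHomogeneous 3) :
    ∀ (n : ℕ) (h : Fin 5 → Polynomial ℂ), (∀ l, (h l).natDegree ≤ n) →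
    (∃ i, eval (fun l => (h l).coeff n) (G i) ≠ 0) →
    (∀ i j, aeval h (G i) * x j = aeval h (G j) * x i) →
    ∃ (h' : Fin 5 → Polynomial ℂ) (g : Polynomial ℂ) (t : ℂ), g ≠ 0 ∧ g.eval t = 0 ∧
      (∀ i, aeval h' (G i) = g * x i) ∧ ∃ l, (h' l).eval t ≠ 0 := by
  -- two coprime coordinates
  have hij : ∃ i j, p i * q j - p j * q i ≠ 0 := by
    by_contra hcon
    push Not at hcon
    have hp0 : p ≠ 0 := hpq.ne_zero 0
    obtain ⟨i, hi⟩ := Function.ne_iff.1 hp0
    have hi' : p i ≠ 0 := hi
    have h1 := LinearIndependent.pair_iff.1 hpq (q i) (-p i) (by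
      funext j
      have := hcon i j
      simp only [Pi.add_apply, Pi.smul_apply, smul_eq_mul, Pi.zero_apply]
      linear_combination -this)
    exact hi' (neg_eq_zero.1 h1.2)
  obtain ⟨i₀, j₀, hij⟩ := hij
  have hcop : IsCoprime (x i₀) (x j₀) := by
    refine ⟨Polynomial.C (q j₀ / (p i₀ * q j₀ - p j₀ * q i₀)),
      Polynomial.C (-q i₀ / (p i₀ * q j₀ - p j₀ * q i₀)), ?_⟩
    apply Polynomial.funext
    intro t
    rw [hx, hx]
    simp only [Polynomial.eval_add, Polynomial.eval_mul, Polynomial.eval_C, Polynomial.eval_X,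
      Polynomial.eval_one]
    rw [div_mul_eq_mul_div, div_mul_eq_mul_div, ← add_div, div_eq_one_iff_eq hij]
    ring
  have hxi : x i₀ ≠ 0 := by
    intro h0
    have h1 := congrArg (fun f => Polynomial.coeff f 0) h0
    have h2 := congrArg (fun f => Polynomial.coeff f 1) h0
    rw [hx] at h1 h2
    simp only [Polynomial.coeff_add, Polynomial.coeff_C_mul, Polynomial.coeff_X,
      Polynomial.coeff_C, Polynomial.coeff_zero] at h1 h2
    norm_num at h1 h2
    apply hij
    rw [h1, h2]
    ring
  have hxd : ∀ i, (x i).natDegree ≤ 1 := by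
    intro i
    rw [hx, add_comm]
    exact Polynomial.natDegree_linear_le
  have hgex : ∀ h : Fin 5 → Polynomial ℂ,
      (∀ i j, aeval h (G i) * x j = aeval h (G j) * x i) →
      ∃ g : Polynomial ℂ, ∀ i, aeval h (G i) = g * x i := by
    intro h hrel
    have h1 : x i₀ ∣ aeval h (G i₀) := by
      refine hcop.dvd_of_dvd_mul_right ?_
      rw [hrel]
      exact Dvd.intro_left _ rfl
    obtain ⟨g, hg⟩ := h1
    refine ⟨g, fun i => ?_⟩
    apply mul_right_cancel₀ hxi
    rw [hrel i i₀, hg]
    ring
  intro n
  induction n with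
  | zero =>
    intro h hdeg ⟨i, hi⟩ hrel
    exfalso
    obtain ⟨g, hg⟩ := hgex h hrel
    have hne : g * x i ≠ 0 := by
      rw [← hg]
      intro h0
      obtain ⟨-, h2⟩ := top_coeff (hG i) h 0 hdeg
      rw [h0, Polynomial.coeff_zero] at h2
      exact hi h2.symm
    have hg0 : g ≠ 0 := left_ne_zero_of_mul hne
    have hgd : g.natDegree = 0 := by
      have h1 := Polynomial.natDegree_mul hg0 (right_ne_zero_of_mul hne)
      obtain ⟨h2, -⟩ := top_coeff (hG i) h 0 hdeg
      rw [hg] at h2
      omega
    obtain ⟨c, rfl⟩ := Polynomial.natDegree_eq_zero.1 hgd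
    have hc : c ≠ 0 := by
      rintro rfl
      exact hg0 (map_zero _)
    have hq0 : q ≠ 0 := hpq.ne_zero 1
    apply hq0
    funext l
    obtain ⟨h2, -⟩ := top_coeff (hG l) h 0 hdeg
    have h3 : (aeval h (G l)).coeff 1 = 0 :=
      Polynomial.coeff_eq_zero_of_natDegree_lt (by omega)
    rw [hg, Polynomial.coeff_C_mul, hx] at h3
    simp only [Polynomial.coeff_add, Polynomial.coeff_C_mul, Polynomial.coeff_X,
      Polynomial.coeff_C] at h3
    norm_num at h3
    rcases h3 with h | h
    · exact absurd h hc
    · exact h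
  | succ n ih =>
    intro h hdeg ⟨i, hi⟩ hrel
    obtain ⟨g, hg⟩ := hgex h hrel
    obtain ⟨ht1, ht2⟩ := top_coeff (hG i) h (n + 1) hdeg
    rw [← ht2, hg] at hi
    have hg0 : g ≠ 0 := by
      rintro rfl
      simp at hi
    have hgd : g.degree ≠ 0 := by
      intro h0
      have h1 : g.natDegree = 0 := Polynomial.natDegree_eq_of_degree_eq_some h0
      have h2 : (g * x i).natDegree ≤ 1 := by
        refine (Polynomial.natDegree_mul_le).trans ?_
        rw [h1, zero_add]
        exact hxd i
      apply hi
      apply Polynomial.coeff_eq_zero_of_natDegree_lt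
      omega
    obtain ⟨t, ht⟩ := IsAlgClosed.exists_root g hgd
    by_cases hb : ∃ l, (h l).eval t ≠ 0
    · exact ⟨h, g, t, hg0, ht, hg, hb⟩
    · push Not at hb
      have h1 : ∀ l, Polynomial.X - Polynomial.C t ∣ h l := fun l =>
        Polynomial.dvd_iff_isRoot.2 (hb l)
      choose h' hh' using h1
      have hne : (Polynomial.X - Polynomial.C t) ≠ 0 := Polynomial.X_sub_C_ne_zero t
      have hd' : ∀ l, (h' l).natDegree ≤ n := by
        intro l
        by_cases h0 : h' l = 0
        · rw [h0, Polynomial.natDegree_zero]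
          exact Nat.zero_le _
        · have h2 := Polynomial.natDegree_mul hne h0
          rw [← hh', Polynomial.natDegree_X_sub_C] at h2
          have := hdeg l
          omega
      refine ih h' hd' ⟨i, ?_⟩ ?_
      · rw [← hg, ht2] at hi
        intro h0
        apply hi
        rw [← h0]
        congr 1
        congr 1
        funext l
        rw [hh' l, sub_mul, Polynomial.coeff_sub, Polynomial.coeff_X_mul, Polynomial.coeff_C_mul,
          Polynomial.coeff_eq_zero_of_natDegree_lt (n := n + 1) (lt_of_le_of_lt (hd' l)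
            (Nat.lt_succ_self n)), mul_zero, sub_zero]
      · intro a b
        have hh : h = fun l => (Polynomial.X - Polynomial.C t) * h' l := funext hh'
        have h2 := hrel a b
        rw [hh, Pool.Agent.TH314.PD.aeval_smul_form (hG a),
          Pool.Agent.TH314.PD.aeval_smul_form (hG b)] at h2
        apply mul_left_cancel₀ (pow_ne_zero 3 hne)
        rw [← mul_assoc, ← mul_assoc]
        exact h2

theorem eval_sum_line (x : Fin 6 → Polynomial ℂ) (A : MvPolynomial (Fin 6) ℂ) (t : ℂ) :
    (aeval x A).eval t = eval (fun i => (x i).eval t) A := by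
  induction A using MvPolynomial.induction_on with
  | C a =>
    rw [aeval_C, eval_C]
    change (Polynomial.C a).eval t = a
    rw [Polynomial.eval_C]
  | add p q hp hq => rw [map_add, Polynomial.eval_add, hp, hq, map_add]
  | mul_X p i hp =>
    rw [map_mul, Polynomial.eval_mul, hp, map_mul, aeval_X, eval_X]

theorem eval_sum_line5 {σ : Type} (x : σ → Polynomial ℂ) (A : MvPolynomial σ ℂ) (t : ℂ) :
    (aeval x A).eval t = eval (fun i => (x i).eval t) A := by
  induction A using MvPolynomial.induction_on with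
  | C a =>
    rw [aeval_C, eval_C]
    change (Polynomial.C a).eval t = a
    rw [Polynomial.eval_C]
  | add p q hp hq => rw [map_add, Polynomial.eval_add, hp, hq, map_add]
  | mul_X p i hp =>
    rw [map_mul, Polynomial.eval_mul, hp, map_mul, aeval_X, eval_X]

theorem arc : S_ARC := by
  intro T hT hS G hG hGF m H hH hrel p q hpq hline ⟨i₀, hi₀⟩
  -- another point of the line off the bad locus
  have hFl : ∀ t : ℂ, eval (fun i => p i + q i * t) (frm T) = 0 := by
    intro t
    rw [frm_add hT]
    have h1 : Bf T p p p = 0 := hline 0 0 0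
    have h2 : Bf T p p q = 0 := hline 0 0 1
    have h3 : Bf T p q q = 0 := hline 0 1 1
    have h4 : Bf T q q q = 0 := hline 1 1 1
    rw [h1, h2, h3, h4]
    ring
  obtain ⟨t₁, ht₁0, ht₁⟩ : ∃ t₁ : ℂ, t₁ ≠ 0 ∧
      eval (fun i => p i + q i * t₁) (aeval H (G i₀)) ≠ 0 := by
    set f : Polynomial ℂ := aeval (fun i => Polynomial.C (p i) + Polynomial.C (q i) *
      Polynomial.X : Fin 6 → Polynomial ℂ) (aeval H (G i₀)) with hf
    have hf0 : f ≠ 0 := by
      intro h0
      apply hi₀
      have h1 := aeval_line2 p q (aeval H (G i₀)) 0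
      rw [← hf, h0, Polynomial.eval_zero] at h1
      simp only [mul_zero, add_zero] at h1
      exact h1.symm
    have hfX : Polynomial.X * f ≠ 0 := mul_ne_zero Polynomial.X_ne_zero hf0
    obtain ⟨t, ht⟩ : ∃ t, (Polynomial.X * f).eval t ≠ 0 := by
      by_contra hcon
      push Not at hcon
      exact hfX (Polynomial.funext fun t => by rw [hcon t, Polynomial.eval_zero])
    rw [Polynomial.eval_mul, Polynomial.eval_X] at ht
    refine ⟨t, left_ne_zero_of_mul ht, ?_⟩
    rw [← aeval_line2]
    exact right_ne_zero_of_mul ht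
  set r : Fin 6 → ℂ := fun i => p i + q i * t₁ with hr
  have hpr : LinearIndependent ℂ ![p, r] := by
    rw [LinearIndependent.pair_iff] at hpq ⊢
    intro s t hst
    have h1 : (s + t) • p + (t * t₁) • q = 0 := by
      rw [← hst]
      funext i
      simp only [hr, Pi.add_apply, Pi.smul_apply, smul_eq_mul]
      ring
    obtain ⟨h2, h3⟩ := hpq _ _ h1
    have ht0 : t = 0 := by
      rcases mul_eq_zero.1 h3 with h | h
      · exact h
      · exact absurd h ht₁0
    rw [ht0, add_zero] at h2
    exact ⟨h2, ht0⟩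
  set x : Fin 6 → Polynomial ℂ := fun i => Polynomial.C (p i) + Polynomial.C (r i) *
    Polynomial.X with hx
  have hxe : ∀ t, (fun i => (x i).eval t) = fun i => (1 + t) * p i + (t * t₁) * q i := by
    intro t
    funext i
    simp only [hx, hr, Polynomial.eval_add, Polynomial.eval_mul, Polynomial.eval_C,
      Polynomial.eval_X]
    ring
  have hFx : aeval x (frm T) = 0 := by
    apply Polynomial.funext
    intro t
    rw [eval_sum_line, hxe, Polynomial.eval_zero, frm_eval]
    have h1 : Bf T p p p = 0 := hline 0 0 0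
    have h2 : Bf T p p q = 0 := hline 0 0 1
    have h3 : Bf T p q q = 0 := hline 0 1 1
    have h4 : Bf T q q q = 0 := hline 1 1 1
    simp only [Bf_add1, Bf_add2 hT, Bf_add3 hT, Bf_smul1, Bf_smul2 hT, Bf_smul3 hT]
    rw [Bf_comm12 hT q p p, Bf_comm23 hT p q p, Bf_comm12 hT q p q, Bf_comm23 hT q q p,
      Bf_comm12 hT q p q, h1, h2, h3, h4]
    ring
  have hxd : ∀ i, (x i).natDegree ≤ 1 := by
    intro i
    rw [hx]
    simp only
    rw [add_comm]
    exact Polynomial.natDegree_linear_le
  have hxc : (fun i => (x i).coeff 1) = r := by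
    funext i
    simp [hx, Polynomial.coeff_C]
  set h : Fin 5 → Polynomial ℂ := fun l => aeval x (H l) with hh
  have hcomp : ∀ i, aeval h (G i) = aeval x (aeval H (G i)) := by
    intro i
    have : (aeval x).comp (aeval H) = (aeval h : MvPolynomial (Fin 5) ℂ →ₐ[ℂ] Polynomial ℂ) := by
      apply algHom_ext
      intro l
      rw [AlgHom.comp_apply, aeval_X, aeval_X]
    rw [← this]
    rfl
  have htop : ∀ l, (h l).natDegree ≤ m ∧ (h l).coeff m = eval r (H l) := by
    intro l
    have h1 := top_coeff (hH l) x 1 hxd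
    rw [mul_one, hxc] at h1
    exact h1
  obtain ⟨h', g, t₀, hg0, hgt, hh', l₀, hl₀⟩ := arc_aux p r hpr x (fun i => rfl) G hG m h
    (fun l => (htop l).1) ⟨i₀, by
      have h1 : (fun l => (h l).coeff m) = fun l => eval r (H l) := funext fun l => (htop l).2
      rw [h1]
      have h2 : eval r (aeval H (G i₀)) = eval (fun l => eval r (H l)) (G i₀) := by
        have : (aeval r).comp (aeval H) =
            (aeval (fun l => eval r (H l)) : MvPolynomial (Fin 5) ℂ →ₐ[ℂ] ℂ) := by
          apply algHom_ext
          intro l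
          rw [AlgHom.comp_apply, aeval_X, aeval_X, aeval_eq_eval]
        have h3 := congrArg (fun f => f (G i₀)) this
        simp only [AlgHom.comp_apply, aeval_eq_eval] at h3
        exact h3
      rw [← h2]
      exact ht₁⟩ (by
      intro i j
      rw [hcomp, hcomp]
      obtain ⟨Q, hQ⟩ := hrel i j
      have h1 := congrArg (aeval x) hQ
      rw [map_mul, hFx, zero_mul, map_sub, map_mul, map_mul, aeval_X, aeval_X] at h1
      exact sub_eq_zero.1 h1)
  -- the base point
  set b : Fin 5 → ℂ := fun l => (h' l).eval t₀ with hb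
  have hb0 : b ≠ 0 := fun h0 => hl₀ (congrFun h0 l₀)
  have hbG : ∀ i, eval b (G i) = 0 := by
    intro i
    rw [hb, ← eval_sum_line5, hh', Polynomial.eval_mul, hgt, zero_mul]
  set x₀ : Fin 6 → ℂ := fun i => (x i).eval t₀ with hx₀
  refine ⟨b, hb0, hbG, x₀, ?_, ⟨1 + t₀, t₀ * t₁, ?_⟩, ?_⟩
  · intro h0
    have h1 := congrFun (hxe t₀)
    obtain ⟨h2, h3⟩ := LinearIndependent.pair_iff.1 hpq (1 + t₀) (t₀ * t₁) (by
      funext i
      have h4 := congrFun (hxe t₀) i
      have h5 := congrFun h0 i
      simp only [hx₀] at h5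
      simp only [Pi.add_apply, Pi.smul_apply, smul_eq_mul, Pi.zero_apply]
      rw [← h4]
      exact h5)
    rcases mul_eq_zero.1 h3 with h | h
    · rw [h] at h2
      norm_num at h2
    · exact ht₁0 h
  · rw [hx₀, hxe]
    rfl
  · -- the expansion at the base point
    obtain ⟨g₁, hg₁, hg₁0⟩ := Polynomial.exists_eq_pow_rootMultiplicity_mul_and_not_dvd g hg0 t₀
    set k := Polynomial.rootMultiplicity t₀ g with hk
    have hk1 : 1 ≤ k := (Polynomial.rootMultiplicity_pos hg0).2 hgt
    set c := g₁.eval t₀ with hc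
    have hc0 : c ≠ 0 := by
      intro h0
      exact hg₁0 (Polynomial.dvd_iff_isRoot.2 h0)
    set σ : Polynomial ℂ := Polynomial.X - Polynomial.C t₀ with hσ
    have hσ0 : σ ≠ 0 := Polynomial.X_sub_C_ne_zero t₀
    have key : ∀ w : Fin 5 → ℂ,
        eval (fun i => c * x₀ i + ∑ l, w l * eval b (pderiv l (G i))) (frm T) = 0 := by
      intro w
      choose E hE using fun i => taylor2 h' (fun l => Polynomial.C (w l)) (σ ^ k) (G i)
      set y : Fin 6 → Polynomial ℂ := fun i => g₁ * x i +
        ∑ l, Polynomial.C (w l) * aeval h' (pderiv l (G i)) + σ ^ k * E i with hy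
      have h1 : ∀ i, aeval (fun l => h' l + σ ^ k * Polynomial.C (w l)) (G i) = σ ^ k * y i := by
        intro i
        rw [hE, hh', hg₁, hy]
        ring
      have h2 : σ ^ k ^ 3 = σ ^ k ^ 3 := rfl
      have h3 : aeval (fun l => h' l + σ ^ k * Polynomial.C (w l)) (aeval G (frm T)) =
          (σ ^ k) ^ 3 * aeval y (frm T) := by
        have h4 : (aeval (fun l => h' l + σ ^ k * Polynomial.C (w l)) :
            MvPolynomial (Fin 5) ℂ →ₐ[ℂ] Polynomial ℂ).comp (aeval G) =
            aeval (fun i => σ ^ k * y i) := by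
          apply algHom_ext
          intro i
          rw [AlgHom.comp_apply, aeval_X, aeval_X, h1]
        rw [← AlgHom.comp_apply, h4]
        exact Pool.Agent.TH314.PD.aeval_smul_form (frm_hom T) _ _
      rw [hGF, map_zero] at h3
      have h5 : aeval y (frm T) = 0 := by
        rcases mul_eq_zero.1 h3.symm with h | h
        · exact absurd h (pow_ne_zero 3 (pow_ne_zero k hσ0))
        · exact h
      have h6 := congrArg (Polynomial.eval t₀) h5
      rw [eval_sum_line, Polynomial.eval_zero] at h6
      rw [← h6]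
      congr 1
      congr 1
      funext i
      rw [hy]
      simp only [Polynomial.eval_add, Polynomial.eval_mul, Polynomial.eval_pow,
        Polynomial.eval_finsetSum, Polynomial.eval_C, eval_sum_line5]
      have h7 : σ.eval t₀ = 0 := by
        rw [hσ]
        simp
      rw [h7, zero_pow (by omega), zero_mul, add_zero]
    have key2 : ∀ (s : ℂ) (w : Fin 5 → ℂ), s ≠ 0 →
        eval (fun i => s * x₀ i + ∑ l, w l * eval b (pderiv l (G i))) (frm T) = 0 := by
      intro s w hs
      have h1 := key (fun l => c / s * w l)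
      have h2 : (fun i => s * x₀ i + ∑ l, w l * eval b (pderiv l (G i))) =
          fun i => s / c * (c * x₀ i + ∑ l, c / s * w l * eval b (pderiv l (G i))) := by
        funext i
        have h3 : ∑ l, c / s * w l * eval b (pderiv l (G i)) =
            c / s * ∑ l, w l * eval b (pderiv l (G i)) := by
          rw [Finset.mul_sum]
          exact Finset.sum_congr rfl fun l _ => by ring
        rw [h3]
        field_simp
      have h4 := Pool.Agent.TH314.PD.aeval_smul_form (frm_hom T) (A := ℂ) (s / c)
        (fun i => c * x₀ i + ∑ l, c / s * w l * eval b (pderiv l (G i)))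
      rw [aeval_eq_eval, aeval_eq_eval] at h4
      rw [h2]
      refine h4.trans ?_
      rw [h1, mul_zero]
    intro s w
    by_cases hs : s = 0
    · subst hs
      set f : Polynomial ℂ := aeval (fun i => Polynomial.C (∑ l, w l * eval b (pderiv l (G i))) +
        Polynomial.C (x₀ i) * Polynomial.X : Fin 6 → Polynomial ℂ) (frm T) with hf
      have h1 : ∀ s : ℂ, f.eval s =
          eval (fun i => s * x₀ i + ∑ l, w l * eval b (pderiv l (G i))) (frm T) := by
        intro s
        rw [hf, aeval_line2 (fun i => ∑ l, w l * eval b (pderiv l (G i))) x₀]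
        congr 1
        congr 1
        funext i
        ring
      rw [← h1]
      have h2 : Polynomial.X * f = 0 := by
        apply Polynomial.funext
        intro s
        rw [Polynomial.eval_mul, Polynomial.eval_X, Polynomial.eval_zero, h1]
        by_cases hs : s = 0
        · rw [hs, zero_mul]
        · rw [key2 s w hs, mul_zero]
      rcases mul_eq_zero.1 h2 with h | h
      · exact absurd h Polynomial.X_ne_zero
      · rw [h, Polynomial.eval_zero]
    · exact key2 s w hs

end Pool.Agent.R845
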