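import Mathlib
import Pool.Agent.R845.Zero

/-! Very general points of affine varieties over the complex numbers. -/

set_option autoImplicit false

namespace Pool.Agent.R845

open MvPolynomial

theorem uncountable_complex : Uncountable ℂ := by
  rw [← Cardinal.aleph0_lt_mk_iff, Cardinal.mk_complex]
  exact Cardinal.aleph0_lt_continuum

theorem exists_point {ι : Type} [Countable ι] : ∀ (s : ℕ) (r : ι → MvPolynomial (Fin s) ℂ),
    (∀ m, r m ≠ 0) → ∃ b : Fin s → ℂ, ∀ m, eval b (r m) ≠ 0 := by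
  intro s
  have hunc : Uncountable ℂ := uncountable_complex
  induction s with
  | zero =>
    intro r h
    refine ⟨fun i => i.elim0, fun m hm => h m ?_⟩
    rw [MvPolynomial.eq_C_of_isEmpty (r m)] at hm ⊢
    rw [eval_C] at hm
    rw [hm, C_0]
  | succ s ih =>
    intro r h
    have h1 : ∀ m, (finSuccEquiv ℂ s (r m)).leadingCoeff ≠ 0 := by
      intro m hm
      rw [Polynomial.leadingCoeff_eq_zero] at hm
      apply h m
      exact (map_eq_zero_iff _ (finSuccEquiv ℂ s).injective).1 hm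
    obtain ⟨b, hb⟩ := ih _ h1
    have h2 : ∀ m, Polynomial.map (eval b) (finSuccEquiv ℂ s (r m)) ≠ 0 := by
      intro m hm
      apply hb m
      have := congrArg (fun q => Polynomial.coeff q (finSuccEquiv ℂ s (r m)).natDegree) hm
      simpa using this
    have h3 : (⋃ m, {x : ℂ |
        (Polynomial.map (eval b) (finSuccEquiv ℂ s (r m))).IsRoot x}).Countable := by
      refine Set.countable_iUnion fun m => ?_
      exact (Polynomial.finite_setOfPred_isRoot (h2 m)).countable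
    obtain ⟨x, hx⟩ : ∃ x, x ∉ (⋃ m, {x : ℂ |
        (Polynomial.map (eval b) (finSuccEquiv ℂ s (r m))).IsRoot x}) := by
      by_contra hc
      push Not at hc
      exact not_countable (α := ℂ) (Set.countable_univ_iff.1 (h3.mono fun x _ => hc x))
    refine ⟨Fin.cons x b, fun m hm => hx ?_⟩
    rw [Set.mem_iUnion]
    refine ⟨m, ?_⟩
    rw [eval_eq_eval_mv_eval'] at hm
    exact hm

theorem exists_hom {ι : Type} [Countable ι] (A : Type) [CommRing A]
    [IsDomain A] [Algebra ℂ A] [Algebra.FiniteType ℂ A] (g : ι → A)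
    (hg : ∀ m, g m ≠ 0) : ∃ y : A →ₐ[ℂ] ℂ, ∀ m, y (g m) ≠ 0 := by
  obtain ⟨s, φ, hinj, hint⟩ := exists_integral_inj_algHom_of_fg ℂ A
  let _ : Algebra (MvPolynomial (Fin s) ℂ) A := φ.toRingHom.toAlgebra
  have halg : algebraMap (MvPolynomial (Fin s) ℂ) A = φ.toRingHom := rfl
  have hI : Algebra.IsIntegral (MvPolynomial (Fin s) ℂ) A := ⟨fun x => hint x⟩
  have hF : FaithfulSMul (MvPolynomial (Fin s) ℂ) A :=
    (faithfulSMul_iff_algebraMap_injective _ _).2 hinj
  have hr : ∀ m, ∃ r : MvPolynomial (Fin s) ℂ, r ≠ 0 ∧ g m ∣ φ r := by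
    intro m
    have h1 : (Ideal.span {g m}).comap (algebraMap (MvPolynomial (Fin s) ℂ) A) ≠ ⊥ :=
      Ideal.comap_ne_bot_of_integral_mem (hg m) (Ideal.mem_span_singleton_self _) (hint (g m))
    obtain ⟨r, hr, hr0⟩ := Submodule.exists_mem_ne_zero_of_ne_bot h1
    exact ⟨r, hr0, Ideal.mem_span_singleton.1 hr⟩
  choose r hr0 hrd using hr
  obtain ⟨b, hb⟩ := exists_point s r hr0
  let mb : Ideal (MvPolynomial (Fin s) ℂ) := RingHom.ker (eval b)
  have hmb : mb.IsMaximal := RingHom.ker_isMaximal_of_surjective _ fun c => ⟨C c, eval_C c⟩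
  obtain ⟨Q, hQm, hQ⟩ := Ideal.exists_ideal_over_maximal_of_isIntegral (S := A) mb (by
    rw [halg]
    have : RingHom.ker φ.toRingHom = ⊥ := (RingHom.injective_iff_ker_eq_bot _).1 hinj
    rw [this]
    exact bot_le)
  have _ := hQm
  letI : Field (A ⧸ Q) := Ideal.Quotient.field Q
  have hfin : Module.Finite ℂ (A ⧸ Q) := finite_of_finite_type_of_isJacobsonRing ℂ (A ⧸ Q)
  have hbij : Function.Bijective (algebraMap ℂ (A ⧸ Q)) :=
    IsAlgClosed.algebraMap_bijective_of_isIntegral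
  let e : ℂ ≃ₐ[ℂ] (A ⧸ Q) := AlgEquiv.ofBijective (Algebra.ofId ℂ (A ⧸ Q)) hbij
  refine ⟨(e.symm : (A ⧸ Q) →ₐ[ℂ] ℂ).comp (Ideal.Quotient.mkₐ ℂ Q), fun m hm => hb m ?_⟩
  have h1 : Ideal.Quotient.mk Q (g m) = 0 := by
    have : e.symm (Ideal.Quotient.mk Q (g m)) = 0 := hm
    exact (map_eq_zero_iff _ e.symm.injective).1 this
  have h2 : g m ∈ Q := Ideal.Quotient.eq_zero_iff_mem.1 h1
  have h3 : algebraMap (MvPolynomial (Fin s) ℂ) A (r m) ∈ Q := Q.mem_of_dvd (hrd m) h2
  have h4 : r m ∈ mb := by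
    rw [← hQ]
    exact h3
  exact h4

/-- very general points of an irreducible hypersurface -/
theorem exists_hyp_point {ι : Type} [Countable ι] {n : ℕ} (F : MvPolynomial (Fin n) ℂ)
    (hF : Prime F) (H : ι → MvPolynomial (Fin n) ℂ) (hH : ∀ m, ¬ F ∣ H m) :
    ∃ p : Fin n → ℂ, eval p F = 0 ∧ ∀ m, eval p (H m) ≠ 0 := by
  let I : Ideal (MvPolynomial (Fin n) ℂ) := Ideal.span {F}
  have hI : I.IsPrime := (Ideal.span_singleton_prime hF.ne_zero).2 hF
  obtain ⟨y, hy⟩ := exists_hom (MvPolynomial (Fin n) ℂ ⧸ I)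
    (fun m => Ideal.Quotient.mk I (H m)) (by
      intro m hm
      exact hH m (Ideal.mem_span_singleton.1 (Ideal.Quotient.eq_zero_iff_mem.1 hm)))
  have key : ∀ q : MvPolynomial (Fin n) ℂ,
      eval (fun i => y (Ideal.Quotient.mk I (X i))) q = y (Ideal.Quotient.mk I q) := by
    intro q
    have : (aeval fun i => y (Ideal.Quotient.mk I (X i))) = y.comp (Ideal.Quotient.mkₐ ℂ I) := by
      apply MvPolynomial.algHom_ext
      intro i
      rw [aeval_X]
      rfl
    rw [← aeval_eq_eval, this]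
    rfl
  refine ⟨fun i => y (Ideal.Quotient.mk I (X i)), ?_, fun m => ?_⟩
  · rw [key]
    have : Ideal.Quotient.mk I F = 0 :=
      Ideal.Quotient.eq_zero_iff_mem.2 (Ideal.mem_span_singleton_self F)
    rw [this, map_zero]
  · rw [key]
    exact hy m

end Pool.Agent.R845
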