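import Mathlib
import Pool.Agent.R845.Forms
import Pool.Agent.R845.Ctb

/-! # Project LI, job AVOID: a line of a smooth cubic fourfold which meets no plane of it -/

set_option autoImplicit false

namespace Pool.Agent.R845

open MvPolynomial Pool.Agent.Y201.C3 Pool.Agent.Y201.LI Pool.Agent.Y246.C3 Pool.Agent.TH238.QP

theorem exists_countable_subfield (s : Set ℂ) (hs : s.Countable) :
    ∃ k : Subfield ℂ, IsAlgClosed k ∧ Countable k ∧ s ⊆ k := by
  let F₀ : Subfield ℂ := Subfield.closure s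
  have h0 : Cardinal.mk F₀ ≤ Cardinal.aleph0 := by
    refine (Subfield.cardinalMk_closure_le_max s).trans ?_
    rw [max_le_iff]
    exact ⟨Cardinal.mk_le_aleph0_iff.mpr hs, le_rfl⟩
  let L := algebraicClosure F₀ ℂ
  have h1 : Cardinal.mk L ≤ Cardinal.aleph0 := by
    refine (Algebra.IsAlgebraic.cardinalMk_le_max F₀ L).trans ?_
    exact max_le h0 le_rfl
  have h2 : IsAlgClosed L := (algebraicClosure.isAlgClosure F₀ ℂ).isAlgClosed
  refine ⟨L.toSubfield, h2, Cardinal.mk_le_aleph0_iff.mp h1, ?_⟩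
  intro x hx
  have hx0 : x ∈ F₀ := Subfield.subset_closure hx
  exact L.algebraMap_mem ⟨x, hx0⟩

theorem Bf_sum1' (T : Fin 6 → Fin 6 → Fin 6 → ℂ) {ι : Type} (s : Finset ι)
    (x : ι → Fin 6 → ℂ) (y z : Fin 6 → ℂ) :
    Bf T (fun i => ∑ a ∈ s, x a i) y z = ∑ a ∈ s, Bf T (x a) y z := by
  rw [Bf_eq, Bg_sum1]
  rfl

theorem Bf_sum3' {T : Fin 6 → Fin 6 → Fin 6 → ℂ} (hT : SymT T) {ι : Type} (s : Finset ι)
    (x : ι → Fin 6 → ℂ) (y z : Fin 6 → ℂ) :
    Bf T y z (fun i => ∑ a ∈ s, x a i) = ∑ a ∈ s, Bf T y z (x a) := by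
  rw [Bf_eq, Bg_sum3 hT]
  rfl

/-- the combination of three vectors -/
def cb (v : Fin 3 → Fin 6 → ℂ) (u : Fin 3 → ℂ) : Fin 6 → ℂ := fun i => ∑ a, u a * v a i

theorem Bf_cb3 {T : Fin 6 → Fin 6 → Fin 6 → ℂ} (hT : SymT T) (v : Fin 3 → Fin 6 → ℂ)
    (u : Fin 3 → ℂ) (x y : Fin 6 → ℂ) : Bf T x y (cb v u) = ∑ a, u a * Bf T x y (v a) := by
  unfold cb
  rw [Bf_sum3' hT]
  exact Finset.sum_congr rfl fun a _ => Bf_smul3 hT _ _ _ _

theorem Bf_cb2 {T : Fin 6 → Fin 6 → Fin 6 → ℂ} (hT : SymT T) (v : Fin 3 → Fin 6 → ℂ)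
    (u : Fin 3 → ℂ) (x y : Fin 6 → ℂ) : Bf T x (cb v u) y = ∑ a, u a * Bf T x (v a) y := by
  rw [Bf_comm23 hT, Bf_cb3 hT]
  exact Finset.sum_congr rfl fun a _ => by rw [Bf_comm23 hT]

theorem Bf_cb1 {T : Fin 6 → Fin 6 → Fin 6 → ℂ} (hT : SymT T) (v : Fin 3 → Fin 6 → ℂ)
    (u : Fin 3 → ℂ) (x y : Fin 6 → ℂ) : Bf T (cb v u) x y = ∑ a, u a * Bf T (v a) x y := by
  rw [Bf_comm12 hT, Bf_cb2 hT]
  exact Finset.sum_congr rfl fun a _ => by rw [Bf_comm12 hT]

theorem mem_span_cb (v : Fin 3 → Fin 6 → ℂ) (x : Fin 6 → ℂ) :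
    x ∈ Submodule.span ℂ (Set.range v) ↔ ∃ u, x = cb v u := by
  rw [Submodule.mem_span_range_iff_exists_fun]
  constructor
  · rintro ⟨c, rfl⟩
    refine ⟨c, ?_⟩
    funext i
    unfold cb
    simp
  · rintro ⟨u, rfl⟩
    refine ⟨u, ?_⟩
    funext i
    unfold cb
    simp

theorem cb_smul (v : Fin 3 → Fin 6 → ℂ) (c : ℂ) (u : Fin 3 → ℂ) : cb v (c • u) = c • cb v u := by
  funext i
  unfold cb
  simp only [Pi.smul_apply, smul_eq_mul, Finset.mul_sum]
  exact Finset.sum_congr rfl fun a _ => by ring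

theorem avoid (hRIG : S_RIG) : S_AVOID := by
  intro T hT hS e W hW hFW
  have hF0 : frm T ≠ 0 :=
    Pool.Agent.TH314.PD.ne_zero_of_smooth (smooth_frm hT hS)
  have hirr : Irreducible (frm T) := irreducible_of_smooth (by norm_num) (by norm_num) (frm_hom T)
    hF0 (smooth_frm hT hS)
  have hprime : Prime (frm T) := hirr.prime
  obtain ⟨k, hk1, hk2, hk3⟩ := exists_countable_subfield
    (Set.range fun t : Fin 6 × Fin 6 × Fin 6 => T t.1 t.2.1 t.2.2) (Set.countable_range _)
  have hTk : ∀ i j l, T i j l ∈ k := fun i j l => hk3 ⟨(i, j, l), rfl⟩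
  -- the planes
  let ι := {v : Fin 3 → Fin 6 → k // LinearIndependent ℂ (fun i j => ((v i j : k) : ℂ)) ∧
    ∀ i j l, Bf T (fun m => ((v i m : k) : ℂ)) (fun m => ((v j m : k) : ℂ))
      (fun m => ((v l m : k) : ℂ)) = 0}
  let V : ι → Fin 3 → Fin 6 → ℂ := fun a i j => ((a.1 i j : k) : ℂ)
  have hV1 : ∀ a, LinearIndependent ℂ (V a) := fun a => a.2.1
  have hV2 : ∀ a i j l, Bf T (V a i) (V a j) (V a l) = 0 := fun a => a.2.2
  have hpl : ∀ v : Fin 3 → Fin 6 → ℂ, LinearIndependent ℂ v →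
      (∀ i j l, Bf T (v i) (v j) (v l) = 0) →
      ∃ a : ι, Submodule.span ℂ (Set.range v) = Submodule.span ℂ (Set.range (V a)) := by
    intro v hv1 hv2
    obtain ⟨v', h1, h2, h3⟩ := hRIG k hk1 T hT hS hTk v hv1 hv2
    have h4 : ∀ i, v' i ∈ Submodule.span ℂ (Set.range v) := by
      intro i
      rw [← h3]
      exact Submodule.subset_span ⟨i, rfl⟩
    choose c hc using fun i => (mem_span_cb v (v' i)).1 (h4 i)
    refine ⟨⟨fun i j => ⟨v' i j, h1 i j⟩, h2, ?_⟩, h3.symm⟩
    intro i j l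
    change Bf T (v' i) (v' j) (v' l) = 0
    rw [hc i, hc j, hc l, Bf_cb1 hT]
    refine Finset.sum_eq_zero fun a _ => ?_
    rw [Bf_cb2 hT, Finset.sum_eq_zero, mul_zero]
    intro b _
    rw [Bf_cb3 hT, Finset.sum_eq_zero, mul_zero]
    intro d _
    rw [hv2, mul_zero]
  -- the point
  let H : Option (Option (ι ⊕ ι)) → MvPolynomial (Fin 6) ℂ := fun o =>
    match o with
    | none => W
    | some none => X 0
    | some (some (Sum.inl a)) => Dv T (V a)
    | some (some (Sum.inr a)) => Lv T (V a 0)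
  obtain ⟨p, hp, hpH⟩ := exists_hyp_point (frm T) hprime H (by
    rintro (_ | _ | a | a)
    · exact hFW
    · exact not_dvd_low hF0 _ (X_ne_zero 0) (by rw [totalDegree_X]; norm_num)
    · exact not_dvd_Dv hT hS _ (hV1 a) (hV2 a)
    · exact not_dvd_Lv hT hS hF0 _ ((hV1 a).ne_zero 0))
  have hpW : eval p W ≠ 0 := hpH none
  have hp0 : p 0 ≠ 0 := by
    have := hpH (some none)
    change eval p (X 0) ≠ 0 at this
    rwa [eval_X] at this
  have hpD : ∀ a, (Matrix.of fun i j : Fin 3 => Bf T p (V a i) (V a j)).det ≠ 0 := by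
    intro a
    rw [← eval_Dv]
    exact hpH (some (some (Sum.inl a)))
  have hpL : ∀ a, Bf T p p (V a 0) ≠ 0 := by
    intro a
    rw [← eval_Lv]
    exact hpH (some (some (Sum.inr a)))
  rw [frm_eval] at hp
  have hpnot : ∀ a u, p ≠ cb (V a) u := by
    intro a u h
    apply hpD a
    have : (Matrix.of fun i j : Fin 3 => Bf T p (V a i) (V a j)) = 0 := by
      ext i j
      rw [Matrix.of_apply, h, Bf_cb1 hT]
      refine Finset.sum_eq_zero fun b _ => ?_
      rw [hV2, mul_zero]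
    rw [this]
    exact Matrix.det_zero
  -- the bad directions
  have hS' : ∀ a : ι, ∃ S : Set (Fin 3 → ℂ), S.Finite ∧ (∀ s ∈ S, s ≠ 0) ∧
      ∀ u : Fin 3 → ℂ, u ≠ 0 → Bf T p p (cb (V a) u) = 0 → Bf T p (cb (V a) u) (cb (V a) u) = 0 →
        ∃ c : ℂ, c ≠ 0 ∧ ∃ s ∈ S, u = c • s := by
    intro a
    obtain ⟨S, h1, h2, h3⟩ := conic_line (Matrix.of fun i j : Fin 3 => Bf T p (V a i) (V a j))
      (hpD a) (by
        ext i j
        change Bf T p (V a j) (V a i) = Bf T p (V a i) (V a j)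
        rw [Bf_comm23 hT]) (fun j => Bf T p p (V a j)) (hpL a)
    refine ⟨S, h1, h2, fun u hu h4 h5 => h3 u hu ?_ ?_⟩
    · rw [← h4, Bf_cb3 hT]
      unfold dotProduct
      exact Finset.sum_congr rfl fun b _ => by ring
    · rw [← h5, Bf_cb2 hT]
      unfold dotProduct
      refine Finset.sum_congr rfl fun b _ => ?_
      rw [Bf_cb3 hT]
      unfold Matrix.mulVec dotProduct
      congr 1
      exact Finset.sum_congr rfl fun d _ => mul_comm _ _
  choose S hS1 hS2 hS3 using hS'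
  let pr : (Fin 6 → ℂ) → Fin 6 → ℂ := fun x => x - (x 0 / p 0) • p
  let J := Σ a : ι, S a
  have hJ : Countable J := by
    have : ∀ a, Countable (S a) := fun a => (hS1 a).countable.to_subtype
    infer_instance
  let rr : J → Fin 6 → ℂ := fun j => pr (cb (V j.1) j.2.1)
  have hr0 : ∀ j, rr j ≠ 0 := by
    rintro ⟨a, s, hs⟩ h
    have h1 : cb (V a) s = (cb (V a) s 0 / p 0) • p := sub_eq_zero.1 h
    by_cases h2 : cb (V a) s 0 / p 0 = 0
    · rw [h2, zero_smul] at h1
      apply hS2 a s hs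
      have h3 := Fintype.linearIndependent_iff.1 (hV1 a) s (by
        funext i
        have := congrFun h1 i
        unfold cb at this
        simpa using this)
      funext i
      exact h3 i
    · apply hpnot a ((cb (V a) s 0 / p 0)⁻¹ • s)
      rw [cb_smul]
      generalize cb (V a) s 0 / p 0 = r at h1 h2 ⊢
      rw [h1, smul_smul, inv_mul_cancel₀ h2, one_smul]
  obtain ⟨ell, hell⟩ := exists_point (ι := J) 6 (fun j => ∑ m, X m * C (rr j m)) (by
    intro j h
    apply hr0 j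
    funext m
    have h1 := congrArg (eval (Pi.single m 1)) h
    rw [map_sum, map_zero] at h1
    simp only [map_mul, eval_X, eval_C] at h1
    rw [Finset.sum_eq_single m] at h1
    · rw [Pi.single_eq_same, one_mul] at h1
      exact h1
    · intro b _ hb
      rw [Pi.single_eq_of_ne hb, zero_mul]
    · intro h
      exact absurd (Finset.mem_univ _) h)
  have hell' : ∀ j, ∑ m, ell m * rr j m ≠ 0 := by
    intro j
    have := hell j
    rw [map_sum] at this
    simpa only [map_mul, eval_X, eval_C] using this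
  -- the second point
  let pe : Fin 5 → MvPolynomial (Fin 6) ℂ := ![X 0, ∑ m, C (ell m) * X m,
    Bf T (fun i => C (p i)) (fun i => C (p i)) X, Bf T (fun i => C (p i)) X X, Bf T X X X]
  have hpe : ∀ x, (∀ i, eval x (pe i) = 0) ↔ (x 0 = 0 ∧ ∑ m, ell m * x m = 0 ∧
      Bf T p p x = 0 ∧ Bf T p x x = 0 ∧ Bf T x x x = 0) := by
    intro x
    have e0 : eval x (pe 0) = x 0 := by
      change eval x (X 0) = x 0
      rw [eval_X]
    have e1 : eval x (pe 1) = ∑ m, ell m * x m := by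
      change eval x (∑ m, C (ell m) * X m) = _
      rw [map_sum]
      simp only [map_mul, eval_X, eval_C]
    have e2 : eval x (pe 2) = Bf T p p x := by
      change eval x (Bf T (fun i => C (p i)) (fun i => C (p i)) X) = _
      rw [eval_Bf]
      simp only [eval_X, eval_C]
    have e3 : eval x (pe 3) = Bf T p x x := by
      change eval x (Bf T (fun i => C (p i)) X X) = _
      rw [eval_Bf]
      simp only [eval_X, eval_C]
    have e4 : eval x (pe 4) = Bf T x x x := by
      change eval x (Bf T X X X) = _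
      rw [eval_Bf]
      simp only [eval_X]
    constructor
    · intro h
      exact ⟨e0 ▸ h 0, e1 ▸ h 1, e2 ▸ h 2, e3 ▸ h 3, e4 ▸ h 4⟩
    · rintro ⟨h0, h1, h2, h3, h4⟩ i
      fin_cases i
      · exact e0.trans h0
      · exact e1.trans h1
      · exact e2.trans h2
      · exact e3.trans h3
      · exact e4.trans h4
  obtain ⟨q, hq0, hq⟩ := exists_other_zero' (ι := Fin 5) (by rw [Fintype.card_fin]; norm_num)
    pe 0 (by
      rw [hpe]
      refine ⟨rfl, by simp, ?_, ?_, ?_⟩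
      · exact (Bf_comm23 hT _ _ _).trans (Bf_zero2 _ _)
      · exact Bf_zero2 _ _
      · exact Bf_zero1 _ _)
  rw [hpe] at hq
  obtain ⟨q1, q2, q3, q4, q5⟩ := hq
  have hind : LinearIndependent ℂ ![p, q] := by
    rw [LinearIndependent.pair_iff]
    intro s t hst
    have h1 := congrFun hst 0
    simp only [Pi.add_apply, Pi.smul_apply, smul_eq_mul, Pi.zero_apply, q1, mul_zero,
      add_zero] at h1
    have hs0 : s = 0 := by
      rcases mul_eq_zero.1 h1 with h | h
      · exact h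
      · exact absurd h hp0
    rw [hs0, zero_smul, zero_add] at hst
    rcases smul_eq_zero.1 hst with h | h
    · exact ⟨hs0, h⟩
    · exact absurd h hq0
  refine ⟨p, q, hind, ?_, hpW, ?_⟩
  · have a1 : Bf T p q p = 0 := by rw [Bf_comm23 hT]; exact q3
    have a2 : Bf T q p p = 0 := by rw [Bf_comm12 hT]; exact a1
    have a3 : Bf T q p q = 0 := by rw [Bf_comm12 hT]; exact q4
    have a4 : Bf T q q p = 0 := by rw [Bf_comm23 hT]; exact a3
    intro i j l
    fin_cases i <;> fin_cases j <;> fin_cases l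
    · exact hp
    · exact q3
    · exact a1
    · exact q4
    · exact a2
    · exact a3
    · exact a4
    · exact q5
  · intro v hv1 hv2 a b hab
    obtain ⟨i, hi⟩ := hpl v hv1 hv2
    rw [hi] at hab
    obtain ⟨u, hu⟩ := (mem_span_cb _ _).1 hab
    by_cases hb : b = 0
    · refine ⟨?_, hb⟩
      by_contra ha
      rw [hb, zero_smul, add_zero] at hu
      apply hpnot i (a⁻¹ • u)
      rw [cb_smul, ← hu, smul_smul, inv_mul_cancel₀ ha, one_smul]
    · exfalso
      have hu0 : u ≠ 0 := by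
        intro h
        have h1 : a • p + b • q = 0 := by
          rw [hu, h]
          funext i
          unfold cb
          simp
        exact hb ((LinearIndependent.pair_iff.1 hind a b h1).2)
      have hcoe : a • p + b • q = fun m => a * p m + b * q m := rfl
      have e1 : Bf T p p (cb (V i) u) = 0 := by
        rw [← hu, hcoe, Bf_add3 hT, Bf_smul3 hT, Bf_smul3 hT, hp, q3]
        ring
      have e2 : Bf T p (cb (V i) u) (cb (V i) u) = 0 := by
        have h1 : ∀ z, Bf T p z (cb (V i) u) = a * Bf T p z p + b * Bf T p z q := by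
          intro z
          rw [← hu, hcoe, Bf_add3 hT, Bf_smul3 hT, Bf_smul3 hT]
        rw [h1, Bf_comm23 hT p _ p, e1, Bf_comm23 hT p _ q, h1, Bf_comm23 hT p q p, q3, q4]
        ring
      obtain ⟨c, hc, s, hs, hus⟩ := hS3 i u hu0 e1 e2
      apply hell' ⟨i, s, hs⟩
      have h3 : cb (V i) s = c⁻¹ • (a • p + b • q) := by
        rw [hu, hus, cb_smul, smul_smul, inv_mul_cancel₀ hc, one_smul]
      have h4 : rr ⟨i, s, hs⟩ = (c⁻¹ * b) • q := by
        change cb (V i) s - (cb (V i) s 0 / p 0) • p = _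
        rw [h3]
        funext m
        simp only [Pi.sub_apply, Pi.smul_apply, Pi.add_apply, smul_eq_mul, q1]
        field_simp
        ring
      rw [h4]
      simp only [Pi.smul_apply, smul_eq_mul]
      have h5 : ∑ m, ell m * (c⁻¹ * b * q m) = c⁻¹ * b * ∑ m, ell m * q m := by
        rw [Finset.mul_sum]
        exact Finset.sum_congr rfl fun m _ => by ring
      rw [h5, q2, mul_zero]

end Pool.Agent.R845
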