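import Mathlib

set_option autoImplicit false

/-! # Conics without rational points: the parity of the degree of a self map

`K2 a` is the quadratic extension `K(√a)`. On the rational function field of `K2 a` there is the
semilinear involution `sg`, `X ↦ b / X`. If `g * sg g = b`, and `b` is not a norm from `K2 a`, then
the degree of `g` is odd. -/

namespace Pool.Agent.R845.Con

open Polynomial

variable {K : Type} [Field K]

/-- the quadratic algebra `K[ω]`, `ω ^ 2 = a` -/
abbrev K2 (a : K) : Type := QuadraticAlgebra K a 0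

section

variable (a b : K)

/-- the reversed polynomial `T ^ m * star R (b / T)` -/
noncomputable def rv (m : ℕ) (R : (K2 a)[X]) : (K2 a)[X] :=
  ∑ i ∈ Finset.range (m + 1), C (star (R.coeff i) * algebraMap K (K2 a) b ^ i) * X ^ (m - i)

variable {a}

theorem coeff_rv (m : ℕ) (R : (K2 a)[X]) (k : ℕ) :
    (rv a b m R).coeff k = if k ≤ m then
      star (R.coeff (m - k)) * algebraMap K (K2 a) b ^ (m - k) else 0 := by
  rw [rv, finsetSum_coeff]
  simp only [coeff_C_mul, coeff_X_pow]
  split_ifs with h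
  · rw [Finset.sum_eq_single (m - k)]
    · rw [if_pos (by omega), mul_one]
    · intro i hi hne
      rw [Finset.mem_range] at hi
      rw [if_neg (by omega), mul_zero]
    · intro hm
      exact absurd (Finset.mem_range.2 (by omega)) hm
  · refine Finset.sum_eq_zero fun i hi => ?_
    rw [Finset.mem_range] at hi
    rw [if_neg (by omega), mul_zero]

theorem star_alg (c : K) : star (algebraMap K (K2 a) c) = algebraMap K (K2 a) c := by
  ext <;> simp

theorem rv_rv (m : ℕ) (R : (K2 a)[X]) (hR : R.natDegree ≤ m) :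
    rv a b m (rv a b m R) = C (algebraMap K (K2 a) b ^ m) * R := by
  ext1 k
  rw [coeff_rv, coeff_C_mul]
  split_ifs with h
  · rw [coeff_rv, if_pos (Nat.sub_le _ _), Nat.sub_sub_self h, star_mul', star_star, star_pow,
      star_alg]
    have h1 : algebraMap K (K2 a) b ^ m
        = algebraMap K (K2 a) b ^ k * algebraMap K (K2 a) b ^ (m - k) := by
      rw [← pow_add, Nat.add_sub_cancel' h]
    rw [h1]
    ring
  · rw [coeff_eq_zero_of_natDegree_lt (by omega), mul_zero]

theorem rv_C_mul (m : ℕ) (u : K2 a) (R : (K2 a)[X]) :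
    rv a b m (C u * R) = C (star u) * rv a b m R := by
  ext1 k
  rw [coeff_C_mul, coeff_rv, coeff_rv]
  split_ifs
  · rw [coeff_C_mul, star_mul']
    ring
  · rw [mul_zero]

end

section

variable {a b : K} [Fact (∀ r : K, r ^ 2 ≠ a + 0 * r)]

/-- `R ↦ star R (b / X)` -/
noncomputable def ph (a b : K) [Fact (∀ r : K, r ^ 2 ≠ a + 0 * r)] :
    (K2 a)[X] →+* RatFunc (K2 a) :=
  eval₂RingHom ((RatFunc.C (K := K2 a)).comp (starRingEnd (K2 a)))
    (RatFunc.C (algebraMap K (K2 a) b) / RatFunc.X)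

theorem ph_rv (m : ℕ) (R : (K2 a)[X]) (hR : R.natDegree ≤ m) :
    algebraMap (K2 a)[X] (RatFunc (K2 a)) (rv a b m R) = RatFunc.X ^ m * ph a b R := by
  rw [ph, coe_eval₂RingHom, eval₂_eq_sum_range' _ (n := m + 1) (by omega), rv, map_sum,
    Finset.mul_sum]
  refine Finset.sum_congr rfl fun i hi => ?_
  rw [Finset.mem_range] at hi
  have hX : (RatFunc.X : RatFunc (K2 a)) ≠ 0 := RatFunc.X_ne_zero
  rw [map_mul, map_pow, RatFunc.algebraMap_C, RatFunc.algebraMap_X, div_pow, map_mul, map_pow]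
  have h1 : (RatFunc.X : RatFunc (K2 a)) ^ m = RatFunc.X ^ (m - i) * RatFunc.X ^ i := by
    rw [← pow_add]
    congr 1
    omega
  rw [h1, RingHom.comp_apply, starRingEnd_apply]
  field_simp

theorem ph_ne (hb : b ≠ 0) (R : (K2 a)[X]) (hR : R ≠ 0) : ph a b R ≠ 0 := by
  intro h
  have h1 := ph_rv (b := b) R.natDegree R le_rfl
  rw [h, mul_zero] at h1
  have h2 : rv a b R.natDegree R = 0 :=
    (map_eq_zero_iff _ (RatFunc.algebraMap_injective (K2 a))).1 h1
  have h3 := congrArg (fun P => P.coeff 0) h2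
  simp only [coeff_rv, Nat.zero_le, if_true, Nat.sub_zero, coeff_zero] at h3
  rcases mul_eq_zero.1 h3 with h4 | h4
  · exact hR (leadingCoeff_eq_zero.1 (star_eq_zero.1 h4))
  · have h5 : algebraMap K (K2 a) b = 0 := by
      rcases Nat.eq_zero_or_pos R.natDegree with h6 | h6
      · rw [h6, pow_zero] at h4
        exact absurd h4 one_ne_zero
      · exact pow_eq_zero_iff (by omega) |>.1 h4
    exact hb ((map_eq_zero _).1 h5)

theorem ph_le (hb : b ≠ 0) : nonZeroDivisors (K2 a)[X] ≤
    (nonZeroDivisors (RatFunc (K2 a))).comap (ph a b) :=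
  fun R hR => mem_nonZeroDivisors_of_ne_zero (ph_ne hb R (nonZeroDivisors.ne_zero hR))

/-- the involution -/
noncomputable def sg (a b : K) [Fact (∀ r : K, r ^ 2 ≠ a + 0 * r)] (hb : b ≠ 0) :
    RatFunc (K2 a) →+* RatFunc (K2 a) :=
  RatFunc.liftRingHom (ph a b) (ph_le hb)

theorem sg_poly (hb : b ≠ 0) (R : (K2 a)[X]) :
    sg a b hb (algebraMap _ _ R) = ph a b R := by
  rw [sg, RatFunc.liftRingHom_algebraMap]

theorem sg_C (hb : b ≠ 0) (c : K2 a) : sg a b hb (RatFunc.C c) = RatFunc.C (star c) := by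
  rw [← RatFunc.algebraMap_C, sg_poly, ph, coe_eval₂RingHom, eval₂_C, RingHom.comp_apply,
    starRingEnd_apply]

theorem sg_X (hb : b ≠ 0) : sg a b hb RatFunc.X =
    RatFunc.C (algebraMap K (K2 a) b) / RatFunc.X := by
  rw [← RatFunc.algebraMap_X, sg_poly, ph, coe_eval₂RingHom, eval₂_X, RatFunc.algebraMap_X]

theorem coprime_rv (hb : b ≠ 0) (P Q : (K2 a)[X]) (hPQ : IsCoprime P Q) (m : ℕ)
    (hm : max P.natDegree Q.natDegree = m) : IsCoprime (rv a b m P) (rv a b m Q) := by
  have hb' : algebraMap K (K2 a) b ^ m ≠ 0 := pow_ne_zero _ ((_root_.map_ne_zero _).2 hb)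
  have h0 : ¬ ((rv a b m P).coeff 0 = 0 ∧ (rv a b m Q).coeff 0 = 0) := by
    rintro ⟨h1, h2⟩
    rw [coeff_rv, if_pos (Nat.zero_le _), Nat.sub_zero, mul_eq_zero, or_iff_left hb',
      star_eq_zero] at h1 h2
    rcases max_choice P.natDegree Q.natDegree with h3 | h3
    · rw [h3] at hm
      rw [← hm] at h1
      have h4 : P = 0 := leadingCoeff_eq_zero.1 h1
      rw [h4, natDegree_zero] at h3 hm
      have h5 : Q.natDegree = 0 := by omega
      rw [← hm] at h2
      have h6 : Q = 0 := by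
        rw [eq_C_of_natDegree_eq_zero h5, h2, C_0]
      rw [h4, h6] at hPQ
      exact not_isCoprime_zero_zero hPQ
    · rw [h3] at hm
      rw [← hm] at h2
      have h4 : Q = 0 := leadingCoeff_eq_zero.1 h2
      rw [h4, natDegree_zero] at h3 hm
      have h5 : P.natDegree = 0 := by omega
      rw [← hm] at h1
      have h6 : P = 0 := by
        rw [eq_C_of_natDegree_eq_zero h5, h1, C_0]
      rw [h4, h6] at hPQ
      exact not_isCoprime_zero_zero hPQ
  obtain ⟨U, V, hUV⟩ := hPQ
  set k := max U.natDegree V.natDegree with hk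
  have h1 : rv a b k U * rv a b m P + rv a b k V * rv a b m Q = X ^ (k + m) := by
    apply RatFunc.algebraMap_injective (K2 a)
    rw [map_add, map_mul, map_mul, ph_rv k U (le_max_left _ _), ph_rv k V (le_max_right _ _),
      ph_rv m P (hm ▸ le_max_left _ _), ph_rv m Q (hm ▸ le_max_right _ _), map_pow,
      RatFunc.algebraMap_X]
    have h2 : ph a b U * ph a b P + ph a b V * ph a b Q = 1 := by
      rw [← map_mul, ← map_mul, ← map_add, hUV, map_one]
    rw [pow_add]
    linear_combination (RatFunc.X ^ k * RatFunc.X ^ m) * h2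
  refine isCoprime_of_irreducible_dvd ?_ ?_
  · rintro ⟨h2, h3⟩
    exact h0 ⟨by rw [h2, coeff_zero], by rw [h3, coeff_zero]⟩
  · intro z hz hzP hzQ
    have h2 : z ∣ X ^ (k + m) := by
      rw [← h1]
      exact dvd_add (Dvd.dvd.mul_left hzP _) (Dvd.dvd.mul_left hzQ _)
    have h3 : z ∣ X := hz.prime.dvd_of_dvd_pow h2
    have h4 : X ∣ z := ((hz.associated_of_dvd irreducible_X h3).symm).dvd
    exact h0 ⟨X_dvd_iff.1 (h4.trans hzP), X_dvd_iff.1 (h4.trans hzQ)⟩

/-- **The degree of `g` is odd.** -/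
theorem odd_deg (hb : b ≠ 0) (hn : ∀ c d : K, c ^ 2 - a * d ^ 2 ≠ b) (g : RatFunc (K2 a))
    (hg : g * sg a b hb g = RatFunc.C (algebraMap K (K2 a) b)) :
    Odd (max g.num.natDegree g.denom.natDegree) := by
  set P := g.num with hP
  set Q := g.denom with hQ
  set m := max P.natDegree Q.natDegree with hm
  have hQ0 : Q ≠ 0 := g.denom_ne_zero
  have hbC : RatFunc.C (algebraMap K (K2 a) b) ≠ 0 := by
    rw [Ne, map_eq_zero, map_eq_zero]
    exact hb
  have hg0 : g ≠ 0 := by
    rintro rfl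
    rw [zero_mul] at hg
    exact hbC hg.symm
  have hP0 : P ≠ 0 := RatFunc.num_ne_zero hg0
  have hgPQ : g = algebraMap _ _ P / algebraMap _ _ Q := (RatFunc.num_div_denom g).symm
  have hQa : algebraMap (K2 a)[X] (RatFunc (K2 a)) Q ≠ 0 := RatFunc.algebraMap_ne_zero hQ0
  have hphQ : ph a b Q ≠ 0 := ph_ne hb Q hQ0
  have h1 : algebraMap (K2 a)[X] (RatFunc (K2 a)) P * ph a b P =
      RatFunc.C (algebraMap K (K2 a) b) * algebraMap _ _ Q * ph a b Q := by
    have h2 : sg a b hb g = ph a b P / ph a b Q := by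
      rw [hgPQ, map_div₀, sg_poly, sg_poly]
    rw [h2, hgPQ] at hg
    field_simp at hg
    linear_combination hg
  have h3 : P * rv a b m P = C (algebraMap K (K2 a) b) * Q * rv a b m Q := by
    apply RatFunc.algebraMap_injective (K2 a)
    rw [map_mul, map_mul, map_mul, ph_rv m P (le_max_left _ _), ph_rv m Q (le_max_right _ _),
      RatFunc.algebraMap_C]
    linear_combination RatFunc.X ^ m * h1
  have hPQ : IsCoprime P Q := g.isCoprime_num_denom
  have hco := coprime_rv hb P Q hPQ m rfl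
  have hbK : algebraMap K (K2 a) b ≠ 0 := (_root_.map_ne_zero _).2 hb
  have hCb : IsUnit (C (algebraMap K (K2 a) b) : (K2 a)[X]) :=
    isUnit_C.2 (isUnit_iff_ne_zero.2 hbK)
  have h4 : P ∣ rv a b m Q := by
    have h5 : P ∣ C (algebraMap K (K2 a) b) * Q * rv a b m Q := ⟨_, h3.symm⟩
    rw [mul_assoc, hCb.dvd_mul_left] at h5
    exact hPQ.dvd_of_dvd_mul_left h5
  have h6 : rv a b m Q ∣ P := by
    have h5 : rv a b m Q ∣ P * rv a b m P := ⟨C (algebraMap K (K2 a) b) * Q, by rw [h3]; ring⟩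
    exact hco.symm.dvd_of_dvd_mul_right h5
  obtain ⟨w, hw⟩ := associated_of_dvd_dvd h4 h6
  obtain ⟨u, hu, hu2⟩ := Polynomial.isUnit_iff.1 w.isUnit
  have h7 : rv a b m Q = C u * P := by rw [← hw, ← hu2]; ring
  have h8 : rv a b m P = C (algebraMap K (K2 a) b * u) * Q := by
    apply mul_left_cancel₀ hP0
    rw [h3, h7, C_mul]
    ring
  have h9 : algebraMap K (K2 a) b ^ m = algebraMap K (K2 a) b * (u * star u) := by
    have h10 := rv_rv b m Q (le_max_right _ _)
    rw [h7, rv_C_mul, h8, ← mul_assoc, ← C_mul] at h10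
    have h11 := C_injective (mul_right_cancel₀ hQ0 h10)
    rw [← h11]
    ring
  by_contra hodd
  rw [Nat.not_odd_iff_even] at hodd
  obtain ⟨k, hk⟩ := hodd
  have hu0 : u ≠ 0 := hu.ne_zero
  have hN : u.norm ≠ 0 := by
    rw [Ne, QuadraticAlgebra.norm_eq_zero_iff_eq_zero]
    exact hu0
  have h12 : b ^ m = b * u.norm := by
    have h13 : algebraMap K (K2 a) (b ^ m) = algebraMap K (K2 a) (b * u.norm) := by
      rw [map_pow, map_mul, QuadraticAlgebra.algebraMap_norm_eq_mul_star, h9]
    exact (algebraMap K (K2 a)).injective h13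
  -- the element `b ^ k / u` has norm `b`
  have h14 : (u⁻¹).norm = (u.norm)⁻¹ := by
    have h15 : u.norm * (u⁻¹).norm = 1 := by
      rw [← map_mul, mul_inv_cancel₀ hu0, map_one]
    exact eq_inv_of_mul_eq_one_right h15
  have h16 : (algebraMap K (K2 a) (b ^ k) * u⁻¹).norm = b := by
    rw [map_mul, QuadraticAlgebra.norm_algebraMap, h14]
    have : (b ^ k) ^ 2 = b ^ m := by rw [hk, ← pow_mul]; congr 1; ring
    rw [this, h12]
    field_simp
  rw [QuadraticAlgebra.norm_def] at h16
  exact hn (algebraMap K (K2 a) (b ^ k) * u⁻¹).re (algebraMap K (K2 a) (b ^ k) * u⁻¹).im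
    (by linear_combination h16)

end

end Pool.Agent.R845.Con
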