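import Mathlib
import Pool.Agent.R845.Conic1

set_option autoImplicit false

/-! # Conics without rational points: the function field -/

namespace Pool.Agent.R845.Con

open Polynomial IntermediateField

variable {K : Type} [Field K]

/-! ### The function field as a quadratic extension of `K(X)` -/

section

variable (a b : K)

/-- the function field of `y ^ 2 = a x ^ 2 + b` -/
abbrev NF : Type :=
  QuadraticAlgebra (RatFunc K) (RatFunc.C a * RatFunc.X ^ 2 + RatFunc.C b) 0

theorem not_sq (ha : ∀ c : K, c ^ 2 ≠ a) (r : RatFunc K) :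
    r ^ 2 ≠ (RatFunc.C a * RatFunc.X ^ 2 + RatFunc.C b) + 0 * r := by
  intro h
  rw [zero_mul, add_zero] at h
  have hQ0 : r.denom ≠ 0 := r.denom_ne_zero
  have hQa : algebraMap K[X] (RatFunc K) r.denom ≠ 0 := RatFunc.algebraMap_ne_zero hQ0
  have hr : r = algebraMap _ _ r.num / algebraMap _ _ r.denom := (RatFunc.num_div_denom r).symm
  have h1 : r.num ^ 2 = (C a * X ^ 2 + C b) * r.denom ^ 2 := by
    apply RatFunc.algebraMap_injective K
    rw [hr] at h
    simp only [map_mul, map_pow, map_add, RatFunc.algebraMap_C, RatFunc.algebraMap_X]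
    field_simp at h
    linear_combination h
  have ha0 : a ≠ 0 := fun h0 => ha 0 (by rw [h0]; ring)
  have h2 : (C a * X ^ 2 + C b : K[X]).leadingCoeff = a := by
    rw [leadingCoeff_add_of_degree_lt']
    · rw [leadingCoeff_mul, leadingCoeff_C, leadingCoeff_X_pow, mul_one]
    · rw [degree_C_mul_X_pow 2 ha0]
      exact lt_of_le_of_lt degree_C_le (by norm_num)
  have h3 := congrArg leadingCoeff h1
  rw [leadingCoeff_pow, leadingCoeff_mul, leadingCoeff_pow, h2] at h3
  have hl : r.denom.leadingCoeff ≠ 0 := leadingCoeff_ne_zero.2 hQ0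
  apply ha (r.num.leadingCoeff / r.denom.leadingCoeff)
  rw [div_pow, h3]
  field_simp

theorem exists_hom {L : Type} [Field L] [Algebra K L] (x y : L)
    (hxy : y ^ 2 = algebraMap K L a * x ^ 2 + algebraMap K L b) (hx : Transcendental K x) :
    ∃ e : NF a b →+* L, (∀ c : K, e (algebraMap (RatFunc K) (NF a b) (RatFunc.C c)) =
      algebraMap K L c) ∧ e (algebraMap (RatFunc K) (NF a b) RatFunc.X) = x ∧
      e QuadraticAlgebra.omega = y := by
  have hle : nonZeroDivisors K[X] ≤ (nonZeroDivisors L).comap (aeval (R := K) x).toRingHom := by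
    intro R hR
    refine mem_nonZeroDivisors_of_ne_zero fun h => ?_
    exact nonZeroDivisors.ne_zero hR ((transcendental_iff.1 hx) R h)
  let ρ : RatFunc K →+* L := RatFunc.liftRingHom (aeval (R := K) x).toRingHom hle
  have hρ : ∀ R : K[X], ρ (algebraMap _ _ R) = aeval x R := fun R => by
    change RatFunc.liftRingHom (aeval (R := K) x).toRingHom hle (algebraMap _ _ R) = _
    rw [RatFunc.liftRingHom_algebraMap]
    rfl
  have hρC : ∀ c : K, ρ (RatFunc.C c) = algebraMap K L c := fun c => by
    rw [← RatFunc.algebraMap_C, hρ, aeval_C]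
  have hρX : ρ RatFunc.X = x := by
    rw [← RatFunc.algebraMap_X, hρ, aeval_X]
  let _ : Algebra (RatFunc K) L := ρ.toAlgebra
  have hy : y * y = (RatFunc.C a * RatFunc.X ^ 2 + RatFunc.C b : RatFunc K) • (1 : L) +
      (0 : RatFunc K) • y := by
    rw [Algebra.smul_def, Algebra.smul_def]
    change _ = ρ _ * 1 + ρ 0 * y
    rw [map_add, map_mul, map_pow, hρC, hρC, hρX, map_zero]
    linear_combination hxy
  let E : NF a b →ₐ[RatFunc K] L := QuadraticAlgebra.lift ⟨y, hy⟩
  refine ⟨E.toRingHom, fun c => ?_, ?_, ?_⟩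
  · change E (algebraMap _ _ _) = _
    rw [AlgHom.commutes]
    exact hρC c
  · change E (algebraMap _ _ _) = _
    rw [AlgHom.commutes]
    exact hρX
  · change QuadraticAlgebra.lift ⟨y, hy⟩ QuadraticAlgebra.omega = y
    rw [QuadraticAlgebra.lift_apply_apply]
    simp

end

/-! ### The degree two extension -/

section

variable {a b : K} [Fact (∀ r : K, r ^ 2 ≠ a + 0 * r)]

/-- `√a` as a constant -/
noncomputable def th (a : K) [Fact (∀ r : K, r ^ 2 ≠ a + 0 * r)] : RatFunc (K2 a) :=
  RatFunc.C QuadraticAlgebra.omega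

theorem th_sq : (th a) ^ 2 = RatFunc.C (algebraMap K (K2 a) a) := by
  rw [th, ← map_pow, pow_two, QuadraticAlgebra.omega_mul_omega_eq_algebraMap]
  simp

theorem sg_th (hb : b ≠ 0) : sg a b hb (th a) = - th a := by
  rw [th, sg_C, ← map_neg]
  congr 1
  ext <;> simp

theorem th_ne [CharZero K] : th a ≠ 0 := by
  rw [th, Ne, map_eq_zero]
  intro h
  have := congrArg QuadraticAlgebra.im h
  simp at this

theorem C_eq (c : K2 a) : (RatFunc.C c : RatFunc (K2 a)) =
    RatFunc.C (algebraMap K (K2 a) c.re) + RatFunc.C (algebraMap K (K2 a) c.im) * th a := by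
  rw [th, ← map_mul, ← map_add]
  congr 1
  ext <;> simp

theorem relfinrank_two [CharZero K] (hb : b ≠ 0) (E : Subfield (RatFunc (K2 a)))
    (hfix : ∀ z ∈ E, sg a b hb z = z) (hK : ∀ c : K, RatFunc.C (algebraMap K (K2 a) c) ∈ E)
    (p q g : RatFunc (K2 a)) (hp : p ∈ E) (hq : q ∈ E) (hg : g = p + th a * q)
    (hE : E ≤ ((K2 a)⟮g⟯ : IntermediateField (K2 a) (RatFunc (K2 a))).toSubfield) :
    Subfield.relfinrank E
      ((K2 a)⟮g⟯ : IntermediateField (K2 a) (RatFunc (K2 a))).toSubfield = 2 := by
  rw [Subfield.relfinrank_eq_finrank_of_le hE]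
  have hth : th a ∈ ((K2 a)⟮g⟯ : IntermediateField (K2 a) (RatFunc (K2 a))) := by
    have := IntermediateField.algebraMap_mem (K2 a)⟮g⟯ (QuadraticAlgebra.omega : K2 a)
    rwa [RatFunc.algebraMap_eq_C] at this
  have h1 : Subfield.extendScalars hE = E⟮th a⟯ := by
    apply le_antisymm
    · intro z hz
      have hz' : z ∈ ((K2 a)⟮g⟯ : IntermediateField (K2 a) (RatFunc (K2 a))) := hz
      let S : IntermediateField (K2 a) (RatFunc (K2 a)) :=
        { (E⟮th a⟯).toSubfield with
          algebraMap_mem' := by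
            intro c
            rw [RatFunc.algebraMap_eq_C, C_eq]
            change _ ∈ E⟮th a⟯
            exact add_mem (IntermediateField.algebraMap_mem E⟮th a⟯ ⟨_, hK _⟩)
              (mul_mem (IntermediateField.algebraMap_mem E⟮th a⟯ ⟨_, hK _⟩)
                (mem_adjoin_simple_self E (th a))) }
      have hle : ((K2 a)⟮g⟯ : IntermediateField (K2 a) (RatFunc (K2 a))) ≤ S := by
        rw [adjoin_simple_le_iff]
        change g ∈ E⟮th a⟯
        rw [hg]
        exact add_mem (IntermediateField.algebraMap_mem E⟮th a⟯ ⟨_, hp⟩)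
          (mul_mem (mem_adjoin_simple_self E (th a))
            (IntermediateField.algebraMap_mem E⟮th a⟯ ⟨_, hq⟩))
      exact hle hz'
    · rw [adjoin_simple_le_iff]
      exact hth
  rw [h1]
  have hmon : (X ^ 2 - C (⟨_, hK a⟩ : E) : E[X]).Monic := monic_X_pow_sub_C _ (by norm_num)
  have hroot : aeval (th a) (X ^ 2 - C (⟨_, hK a⟩ : E) : E[X]) = 0 := by
    rw [map_sub, map_pow, aeval_X, aeval_C, th_sq]
    exact sub_self _
  have hint : IsIntegral E (th a) := ⟨_, hmon, hroot⟩
  rw [adjoin.finrank hint]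
  apply le_antisymm
  · have h2 := minpoly.min E (th a) hmon hroot
    have h3 := natDegree_le_natDegree h2
    rwa [natDegree_X_pow_sub_C] at h3
  · rw [minpoly.two_le_natDegree_iff hint]
    rintro ⟨z, hz⟩
    have h2 := hfix z z.2
    have h3 : (z : RatFunc (K2 a)) = th a := hz
    rw [h3, sg_th] at h2
    have h4 : (2 : RatFunc (K2 a)) * th a = 0 := by linear_combination -h2
    rcases mul_eq_zero.1 h4 with h5 | h5
    · have : (2 : RatFunc (K2 a)) = RatFunc.C (algebraMap K (K2 a) 2) := by
        rw [map_ofNat, map_ofNat]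
      rw [this, map_eq_zero, map_eq_zero] at h5
      exact two_ne_zero h5
    · exact th_ne h5

end

end Pool.Agent.R845.Con
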