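import Mathlib
import Pool.Agent.R845.Conic2

set_option autoImplicit false
set_option linter.unusedSectionVars false
set_option linter.unusedVariables false

/-! # Conics without rational points: self maps have odd degree -/

namespace Pool.Agent.R845.Con

open Polynomial IntermediateField

section

variable {K M : Type} [Field K] [CharZero K] [Field M] [Algebra K M] {a b : K}

section

variable [Fact (∀ r : K, r ^ 2 ≠ a + 0 * r)]

theorem algMap_eq (c : K) :
    algebraMap K (RatFunc (K2 a)) c = RatFunc.C (algebraMap K (K2 a) c) := by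
  rw [IsScalarTower.algebraMap_apply K (K2 a) (RatFunc (K2 a)), RatFunc.algebraMap_eq_C]

theorem two_ne : (2 : RatFunc (K2 a)) ≠ 0 := by
  have : (2 : RatFunc (K2 a)) = RatFunc.C (algebraMap K (K2 a) 2) := by
    rw [map_ofNat, map_ofNat]
  rw [this, Ne, map_eq_zero, map_eq_zero]
  exact two_ne_zero

theorem Cb_ne (hb : b ≠ 0) : (RatFunc.C (algebraMap K (K2 a) b) : RatFunc (K2 a)) ≠ 0 := by
  rw [Ne, map_eq_zero, map_eq_zero]
  exact hb

theorem x2_trans (hb : b ≠ 0) : Transcendental K
    ((RatFunc.X - RatFunc.C (algebraMap K (K2 a) b) / RatFunc.X) / (2 * th a) :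
      RatFunc (K2 a)) := by
  refine Transcendental.restrictScalars (S := K2 a) (algebraMap K (K2 a)).injective
    (RatFunc.transcendental_of_ne_C _ ?_)
  rintro ⟨c, hc⟩
  have h2 := two_ne (a := a)
  have hth := th_ne (a := a)
  have hX : (RatFunc.X : RatFunc (K2 a)) ≠ 0 := RatFunc.X_ne_zero
  field_simp at hc
  have h1 : (X ^ 2 - C (algebraMap K (K2 a) b) : (K2 a)[X]) =
      C (2 * QuadraticAlgebra.omega * c) * X := by
    apply RatFunc.algebraMap_injective (K2 a)
    rw [map_sub, map_mul, map_pow, RatFunc.algebraMap_C, RatFunc.algebraMap_C,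
      RatFunc.algebraMap_X, map_mul, map_mul, map_ofNat]
    rw [th] at hc
    linear_combination hc
  have h3 := congrArg (fun P => P.coeff 2) h1
  simp at h3

theorem exists_j (hb : b ≠ 0) (ha : ∀ c : K, c ^ 2 ≠ a) (x y : M)
    (hxy : y ^ 2 = algebraMap K M a * x ^ 2 + algebraMap K M b) (hx : Transcendental K x)
    (hgen : IntermediateField.adjoin K {x, y} = ⊤) :
    ∃ j : M →+* RatFunc (K2 a), (∀ c, j (algebraMap K M c) = RatFunc.C (algebraMap K (K2 a) c)) ∧
      j y + th a * j x = RatFunc.X ∧ ∀ z, sg a b hb (j z) = j z := by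
  have : Fact (∀ r : RatFunc K, r ^ 2 ≠ (RatFunc.C a * RatFunc.X ^ 2 + RatFunc.C b) + 0 * r) :=
    ⟨fun r => not_sq a b ha r⟩
  obtain ⟨e, he1, he2, he3⟩ := exists_hom a b x y hxy hx
  have h2 := two_ne (a := a)
  have hth := th_ne (a := a)
  have hX : (RatFunc.X : RatFunc (K2 a)) ≠ 0 := RatFunc.X_ne_zero
  have hCb := Cb_ne (a := a) hb
  set x2 : RatFunc (K2 a) :=
    (RatFunc.X - RatFunc.C (algebraMap K (K2 a) b) / RatFunc.X) / (2 * th a) with hx2
  set y2 : RatFunc (K2 a) :=
    (RatFunc.X + RatFunc.C (algebraMap K (K2 a) b) / RatFunc.X) / 2 with hy2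
  have hrel : y2 ^ 2 = algebraMap K (RatFunc (K2 a)) a * x2 ^ 2
      + algebraMap K (RatFunc (K2 a)) b := by
    rw [algMap_eq, algMap_eq, ← th_sq, hx2, hy2]
    field_simp
    ring
  obtain ⟨e', he1', he2', he3'⟩ := exists_hom a b x2 y2 hrel (x2_trans hb)
  have hsurj : Function.Surjective e := by
    intro z
    let S : IntermediateField K M :=
      { e.fieldRange with
        algebraMap_mem' := fun c => ⟨_, he1 c⟩ }
    have hS : IntermediateField.adjoin K {x, y} ≤ S := by
      rw [adjoin_le_iff]
      rintro w (rfl | hw)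
      · exact ⟨_, he2⟩
      · rw [Set.mem_singleton_iff] at hw
        subst hw
        exact ⟨_, he3⟩
    rw [hgen] at hS
    exact hS (IntermediateField.mem_top (x := z))
  let E : NF a b ≃+* M := RingEquiv.ofBijective e ⟨e.injective, hsurj⟩
  have hE : ∀ w, E w = e w := fun w => rfl
  let j : M →+* RatFunc (K2 a) := e'.comp (E.symm : M →+* NF a b)
  have hj : ∀ w, j (e w) = e' w := fun w => by
    change e' (E.symm (E w)) = _
    rw [RingEquiv.symm_apply_apply]
  have hjK : ∀ c, j (algebraMap K M c) = RatFunc.C (algebraMap K (K2 a) c) := fun c => by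
    rw [← he1, hj, he1', algMap_eq]
  have hjx : j x = x2 := by rw [← he2, hj, he2']
  have hjy : j y = y2 := by rw [← he3, hj, he3']
  refine ⟨j, hjK, ?_, ?_⟩
  · rw [hjx, hjy, hx2, hy2]
    field_simp
    ring
  · have hsb : sg a b hb (RatFunc.C (algebraMap K (K2 a) b) / RatFunc.X) = RatFunc.X := by
      rw [map_div₀, sg_C, sg_X, star_alg]
      field_simp
    let S : IntermediateField K M :=
      { ((sg a b hb).comp j).eqLocusField j with
        algebraMap_mem' := fun c => by
          change sg a b hb (j _) = j _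
          rw [hjK, sg_C, star_alg] }
    have hS : IntermediateField.adjoin K {x, y} ≤ S := by
      rw [adjoin_le_iff]
      rintro w (rfl | hw)
      · change sg a b hb (j w) = j w
        rw [hjx, hx2, map_div₀, map_sub, map_mul, hsb, sg_X, sg_th, map_ofNat]
        field_simp
        ring
      · rw [Set.mem_singleton_iff] at hw
        subst hw
        change sg a b hb (j w) = j w
        rw [hjy, hy2, map_div₀, map_add, hsb, sg_X, map_ofNat]
        ring
    rw [hgen] at hS
    exact fun z => hS (IntermediateField.mem_top (x := z))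

end

/-- **Self maps of conics without rational points have odd degree.** -/
theorem core (hn : ∀ c d e : K, c ^ 2 = a * d ^ 2 + b * e ^ 2 → c = 0 ∧ d = 0 ∧ e = 0) (x y : M)
    (hxy : y ^ 2 = algebraMap K M a * x ^ 2 + algebraMap K M b) (hx : Transcendental K x)
    (hgen : IntermediateField.adjoin K {x, y} = ⊤) :
    (∀ z : M, IsAlgebraic K z → ∃ c : K, z = algebraMap K M c) ∧
    ∀ x' y' : M, y' ^ 2 = algebraMap K M a * x' ^ 2 + algebraMap K M b →
      Odd (Module.finrank (IntermediateField.adjoin K {x', y'}) M) := by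
  have ha : ∀ c : K, c ^ 2 ≠ a := fun c hc => one_ne_zero (hn c 1 0 (by rw [hc]; ring)).2.1
  have hb : b ≠ 0 := fun hb => one_ne_zero (hn 0 0 1 (by rw [hb]; ring)).2.2
  have hnb : ∀ c d : K, c ^ 2 - a * d ^ 2 ≠ b := fun c d h =>
    one_ne_zero (hn c d 1 (by rw [← h]; ring)).2.2
  have : Fact (∀ r : K, r ^ 2 ≠ a + 0 * r) :=
    ⟨fun r hr => ha r (by rw [hr]; ring)⟩
  obtain ⟨j, hjK, hjg, hjs⟩ := exists_j hb ha x y hxy hx hgen
  have h2 := two_ne (a := a)
  have hth := th_ne (a := a)
  refine ⟨fun z hz => ?_, fun x' y' hxy' => ?_⟩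
  · -- algebraic elements are constant
    have h1 : IsAlgebraic (K2 a) (j z) := by
      obtain ⟨p, hp0, hp⟩ := hz
      refine ⟨p.map (algebraMap K (K2 a)), (Polynomial.map_ne_zero_iff
        (algebraMap K (K2 a)).injective).2 hp0, ?_⟩
      rw [aeval_map_algebraMap, aeval_def]
      have h3 : j (aeval z p) = eval₂ (algebraMap K (RatFunc (K2 a))) (j z) p := by
        rw [aeval_def, hom_eval₂]
        congr 1
        ext c
        rw [RingHom.comp_apply, hjK, algMap_eq]
      rw [← h3, hp, map_zero]
    have h3 : ∃ c, j z = RatFunc.C c := by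
      by_contra hc
      exact RatFunc.transcendental_of_ne_C (j z) hc h1
    obtain ⟨c, hc⟩ := h3
    have h4 := hjs z
    rw [hc, sg_C] at h4
    have h5 : star c = c := (RatFunc.C (K := K2 a)).injective h4
    have h6 := congrArg QuadraticAlgebra.im h5
    rw [QuadraticAlgebra.im_star] at h6
    have h7 : c.im = 0 := by
      have : (2 : K) * c.im = 0 := by linear_combination -h6
      rcases mul_eq_zero.1 this with h8 | h8
      · exact absurd h8 two_ne_zero
      · exact h8
    refine ⟨c.re, j.injective ?_⟩
    rw [hjK, hc]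
    congr 1
    ext <;> simp [h7]
  · set g : RatFunc (K2 a) := j y' + th a * j x' with hg
    have hσ : g * sg a b hb g = RatFunc.C (algebraMap K (K2 a) b) := by
      rw [hg, map_add, map_mul, hjs, hjs, sg_th]
      have h3 := congrArg j hxy'
      rw [map_pow, map_add, map_mul, map_pow, hjK, hjK, ← th_sq] at h3
      linear_combination h3
    have hodd := odd_deg hb hnb g hσ
    rw [← RatFunc.finrank_eq_max_natDegree g] at hodd
    have hCb := Cb_ne (a := a) hb
    have hg0 : g ≠ 0 := by
      intro h0
      rw [h0, zero_mul] at hσ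
      exact hCb hσ.symm
    set L' : IntermediateField K M := IntermediateField.adjoin K {x', y'} with hL'
    set E : Subfield (RatFunc (K2 a)) := L'.toSubfield.map j with hE
    set G : Subfield (RatFunc (K2 a)) :=
      ((K2 a)⟮g⟯ : IntermediateField (K2 a) (RatFunc (K2 a))).toSubfield with hG
    have hxE : j x' ∈ E := ⟨x', subset_adjoin K _ (by simp), rfl⟩
    have hyE : j y' ∈ E := ⟨y', subset_adjoin K _ (by simp), rfl⟩
    have hKE : ∀ c : K, RatFunc.C (algebraMap K (K2 a) c) ∈ E := fun c =>
      ⟨algebraMap K M c, IntermediateField.algebraMap_mem L' c, hjK c⟩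
    have hfix : ∀ z ∈ E, sg a b hb z = z := by
      rintro _ ⟨z, _, rfl⟩
      exact hjs z
    have hCG : ∀ c : K2 a, RatFunc.C c ∈ G := fun c => by
      have := IntermediateField.algebraMap_mem (K2 a)⟮g⟯ c
      rwa [RatFunc.algebraMap_eq_C] at this
    have hgG : g ∈ G := mem_adjoin_simple_self (K2 a) g
    have hthG : th a ∈ G := hCG _
    have hsg : sg a b hb g = RatFunc.C (algebraMap K (K2 a) b) / g := by
      rw [eq_div_iff hg0, mul_comm, hσ]
    have hsg2 : sg a b hb g = j y' - th a * j x' := by
      rw [hg, map_add, map_mul, hjs, hjs, sg_th]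
      ring
    have hsgG : sg a b hb g ∈ G := by
      rw [hsg]
      exact div_mem (hCG _) hgG
    have h2G : (2 : RatFunc (K2 a)) ∈ G := by
      have := hCG 2
      rwa [map_ofNat] at this
    have hxG : j x' ∈ G := by
      have : j x' = (g - sg a b hb g) / (2 * th a) := by
        rw [hsg2, hg]
        field_simp
        ring
      rw [this]
      exact div_mem (sub_mem hgG hsgG) (mul_mem h2G hthG)
    have hyG : j y' ∈ G := by
      have : j y' = (g + sg a b hb g) / 2 := by
        rw [hsg2, hg]
        field_simp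
        ring
      rw [this]
      exact div_mem (add_mem hgG hsgG) h2G
    have hEG : E ≤ G := by
      rintro _ ⟨z, hz, rfl⟩
      let S : IntermediateField K M :=
        { G.comap j with
          algebraMap_mem' := fun c => by
            change j _ ∈ G
            rw [hjK]
            exact hCG _ }
      have hS : L' ≤ S := by
        rw [hL', adjoin_le_iff]
        rintro w (rfl | hw)
        · exact hxG
        · rw [Set.mem_singleton_iff] at hw
          subst hw
          exact hyG
      exact hS hz
    have h3 : Subfield.relfinrank E G = 2 :=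
      relfinrank_two hb E hfix hKE (j y') (j x') g hyE hxE hg hEG
    have hrange : ∀ z ∈ j.fieldRange, sg a b hb z = z := by
      rintro _ ⟨z, rfl⟩
      exact hjs z
    have htop : ((K2 a)⟮(RatFunc.X : RatFunc (K2 a))⟯ :
        IntermediateField (K2 a) (RatFunc (K2 a))).toSubfield = ⊤ := by
      rw [RatFunc.adjoin_X]
      rfl
    have h4 : Subfield.relfinrank j.fieldRange ⊤ = 2 := by
      rw [← htop]
      refine relfinrank_two hb j.fieldRange hrange (fun c => ⟨_, hjK c⟩) (j y) (j x) _ ⟨y, rfl⟩
        ⟨x, rfl⟩ hjg.symm ?_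
      rw [htop]
      exact le_top
    rw [Subfield.relfinrank_top_right] at h4
    have hEj : E ≤ j.fieldRange := by
      rintro _ ⟨z, _, rfl⟩
      exact ⟨z, rfl⟩
    have h5 := Subfield.relfinrank_mul_finrank_top hEj
    have h6 := Subfield.relfinrank_mul_finrank_top hEG
    rw [h4] at h5
    rw [h3] at h6
    have h7 : Subfield.relfinrank E j.fieldRange = Module.finrank L' M := by
      have h8 : j.fieldRange = (⊤ : Subfield M).map j := by
        ext z
        simp
      rw [h8, hE, Subfield.relfinrank_map_map, Subfield.relfinrank_top_right]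
      rfl
    have h9 : Module.finrank G (RatFunc (K2 a)) = Module.finrank L' M := by
      omega
    have h10 : Module.finrank G (RatFunc (K2 a)) =
        Module.finrank (K2 a)⟮g⟯ (RatFunc (K2 a)) := rfl
    rw [← h9, h10]
    exact hodd

end

end Pool.Agent.R845.Con
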