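import Mathlib
import Pool.Agent.R845.Conic3
import Pool.Agent.Y201.C3.Stm

set_option autoImplicit false
set_option linter.unusedSectionVars false
set_option linter.unusedVariables false

/-! # Conics without rational points: the statement `S_CONIC` -/

namespace Pool.Agent.R845

open IntermediateField Matrix Pool.Agent.R845.Con

section

variable {K M : Type} [Field K] [Field M] [Algebra K M]

/-- the field of the ratios -/
noncomputable def rf (K : Type) {M : Type} [Field K] [Field M] [Algebra K M] (v : Fin 3 → M) :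
    IntermediateField K M :=
  IntermediateField.adjoin K {z : M | ∃ i j, z = v i / v j}

theorem mem_rf (v : Fin 3 → M) (i j : Fin 3) : v i / v j ∈ rf K v :=
  subset_adjoin K _ ⟨i, j, rfl⟩

theorem rf_le (R : Matrix (Fin 3) (Fin 3) K) (v : Fin 3 → M) :
    rf K ((R.map (algebraMap K M)) *ᵥ v) ≤ rf K v := by
  rw [rf, adjoin_le_iff]
  rintro _ ⟨i, j, rfl⟩
  change _ ∈ rf K v
  by_cases hv : v = 0
  · subst hv
    rw [mulVec_zero, Pi.zero_apply, zero_div]
    exact zero_mem _
  · obtain ⟨k, hk⟩ := Function.ne_iff.1 hv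
    rw [Pi.zero_apply] at hk
    have h1 : ∀ i, ((R.map (algebraMap K M)) *ᵥ v) i / v k ∈ rf K v := by
      intro i
      rw [mulVec, dotProduct, Finset.sum_div]
      refine sum_mem fun l _ => ?_
      rw [map_apply, mul_div_assoc]
      exact mul_mem (IntermediateField.algebraMap_mem _ _) (mem_rf v l k)
    have h2 : ((R.map (algebraMap K M)) *ᵥ v) i / ((R.map (algebraMap K M)) *ᵥ v) j =
        (((R.map (algebraMap K M)) *ᵥ v) i / v k) / (((R.map (algebraMap K M)) *ᵥ v) j / v k) := by
      rw [div_div_div_cancel_right₀ hk]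
    rw [h2]
    exact div_mem (h1 i) (h1 j)

theorem rf_eq (P R : Matrix (Fin 3) (Fin 3) K) (hPR : P * R = 1) (v : Fin 3 → M) :
    rf K ((R.map (algebraMap K M)) *ᵥ v) = rf K v := by
  refine le_antisymm (rf_le R v) ?_
  have h1 := rf_le P ((R.map (algebraMap K M)) *ᵥ v)
  rwa [mulVec_mulVec, ← Matrix.map_mul, hPR, Matrix.map_one _ (map_zero _) (map_one _),
    one_mulVec] at h1

theorem rf_pair (u : Fin 3 → M) (hu : u 2 ≠ 0) :
    rf K u = IntermediateField.adjoin K {u 1 / u 2, u 0 / u 2} := by
  apply le_antisymm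
  · rw [rf, adjoin_le_iff]
    rintro _ ⟨i, j, rfl⟩
    change _ ∈ IntermediateField.adjoin K {u 1 / u 2, u 0 / u 2}
    have h1 : ∀ i, u i / u 2 ∈ IntermediateField.adjoin K {u 1 / u 2, u 0 / u 2} := by
      intro i
      fin_cases i
      · exact subset_adjoin K _ (by simp)
      · exact subset_adjoin K _ (by simp)
      · change u 2 / u 2 ∈ _
        rw [div_self hu]
        exact one_mem _
    have h2 : u i / u j = (u i / u 2) / (u j / u 2) := (div_div_div_cancel_right₀ hu _ _).symm
    rw [h2]
    exact div_mem (h1 i) (h1 j)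
  · rw [adjoin_le_iff]
    rintro z (rfl | hz)
    · exact mem_rf u 1 2
    · rw [Set.mem_singleton_iff] at hz
      subst hz
      exact mem_rf u 0 2

theorem alg_of_top (S : Set M) (hS : ∀ z ∈ S, IsAlgebraic K z)
    (h : IntermediateField.adjoin K S = ⊤) : Algebra.IsAlgebraic K M := by
  constructor
  intro z
  have h1 : IntermediateField.adjoin K S ≤ algebraicClosure K M := by
    rw [adjoin_le_iff]
    intro w hw
    exact mem_algebraicClosure_iff.2 (hS w hw)
  rw [h] at h1
  exact mem_algebraicClosure_iff.1 (h1 (IntermediateField.mem_top (x := z)))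

/-- diagonal conics -/
theorem conic_diag [CharZero K] (w : Fin 3 → K)
    (hw : ∀ c : Fin 3 → K, w 0 * c 0 ^ 2 + w 1 * c 1 ^ 2 + w 2 * c 2 ^ 2 = 0 → c = 0)
    (hM : ¬ Algebra.IsAlgebraic K M) (u : Fin 3 → M)
    (hu : algebraMap K M (w 0) * u 0 ^ 2 + algebraMap K M (w 1) * u 1 ^ 2 +
      algebraMap K M (w 2) * u 2 ^ 2 = 0) (hgen : rf K u = ⊤) :
    (∀ z : M, IsAlgebraic K z → ∃ a : K, z = algebraMap K M a) ∧
    ∀ u' : Fin 3 → M, u' ≠ 0 → algebraMap K M (w 0) * u' 0 ^ 2 +
      algebraMap K M (w 1) * u' 1 ^ 2 + algebraMap K M (w 2) * u' 2 ^ 2 = 0 →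
      Odd (Module.finrank (rf K u') M) := by
  have hw0 : w 0 ≠ 0 := by
    intro h
    have := hw ![1, 0, 0] (by simp [h])
    simpa using congrFun this 0
  have hw0' : algebraMap K M (w 0) ≠ 0 := (_root_.map_ne_zero _).2 hw0
  set a : K := - w 1 / w 0 with ha
  set b : K := - w 2 / w 0 with hb
  have haM : algebraMap K M a = - algebraMap K M (w 1) / algebraMap K M (w 0) := by
    rw [ha, map_div₀, map_neg]
  have hbM : algebraMap K M b = - algebraMap K M (w 2) / algebraMap K M (w 0) := by
    rw [hb, map_div₀, map_neg]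
  have hn : ∀ c d e : K, c ^ 2 = a * d ^ 2 + b * e ^ 2 → c = 0 ∧ d = 0 ∧ e = 0 := by
    intro c d e h
    have h1 := hw ![c, d, e] (by
      simp only [Matrix.cons_val_zero, Matrix.cons_val_one, Matrix.cons_val]
      rw [h, ha, hb]
      field_simp
      ring)
    exact ⟨by simpa using congrFun h1 0, by simpa using congrFun h1 1,
      by simpa using congrFun h1 2⟩
  have ha1 : ∀ c : K, c ^ 2 ≠ a := fun c hc => one_ne_zero (hn c 1 0 (by rw [hc]; ring)).2.1
  have hrel : ∀ u : Fin 3 → M, algebraMap K M (w 0) * u 0 ^ 2 + algebraMap K M (w 1) * u 1 ^ 2 +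
      algebraMap K M (w 2) * u 2 ^ 2 = 0 →
      u 0 ^ 2 = algebraMap K M a * u 1 ^ 2 + algebraMap K M b * u 2 ^ 2 := by
    intro u hu
    rw [haM, hbM]
    field_simp
    linear_combination hu
  have hrel2 : ∀ u : Fin 3 → M, algebraMap K M (w 0) * u 0 ^ 2 + algebraMap K M (w 1) * u 1 ^ 2 +
      algebraMap K M (w 2) * u 2 ^ 2 = 0 → u 2 ≠ 0 →
      (u 0 / u 2) ^ 2 = algebraMap K M a * (u 1 / u 2) ^ 2 + algebraMap K M b := by
    intro u hu h2
    have h := hrel u hu
    field_simp
    linear_combination h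
  have halgz : ∀ u : Fin 3 → M, algebraMap K M (w 0) * u 0 ^ 2 +
      algebraMap K M (w 1) * u 1 ^ 2 + algebraMap K M (w 2) * u 2 ^ 2 = 0 → u 2 = 0 →
      (u 0 / u 1) ^ 2 = algebraMap K M a ∨ u = 0 := by
    intro u hu h2
    have h := hrel u hu
    by_cases h1 : u 1 = 0
    · right
      rw [h1, h2] at h
      have h0 : u 0 = 0 := by
        have : u 0 ^ 2 = 0 := by rw [h]; ring
        exact pow_eq_zero_iff (two_ne_zero) |>.1 this
      ext i
      fin_cases i
      · exact h0
      · exact h1
      · exact h2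
    · left
      rw [div_pow, h, h2]
      field_simp
      ring
  have hsq : ∀ z : M, z ^ 2 = algebraMap K M a → IsAlgebraic K z := by
    intro z hz
    have : IsAlgebraic K (z ^ 2) := by
      rw [hz]
      exact isAlgebraic_algebraMap _
    exact (IsAlgebraic.of_pow (by norm_num) this)
  have hu2 : u 2 ≠ 0 := by
    intro h2
    apply hM
    refine alg_of_top _ ?_ hgen
    rintro z ⟨i, j, rfl⟩
    rcases halgz u hu h2 with hz | h0
    · by_cases h1 : u 1 = 0
      · have h := hrel u hu
        rw [h1, h2] at h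
        have h0 : u 0 = 0 := by
          have : u 0 ^ 2 = 0 := by rw [h]; ring
          exact pow_eq_zero_iff (two_ne_zero) |>.1 this
        have : u i = 0 := by
          fin_cases i
          · exact h0
          · exact h1
          · exact h2
        rw [this, zero_div]
        exact isAlgebraic_zero
      · have h3 : ∀ i, IsAlgebraic K (u i / u 1) := by
          intro i
          fin_cases i
          · exact hsq _ hz
          · change IsAlgebraic K (u 1 / u 1)
            rw [div_self h1]
            exact isAlgebraic_one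
          · change IsAlgebraic K (u 2 / u 1)
            rw [h2, zero_div]
            exact isAlgebraic_zero
        have h4 : u i / u j = (u i / u 1) * (u j / u 1)⁻¹ := by
          rw [← div_eq_mul_inv]
          exact (div_div_div_cancel_right₀ h1 _ _).symm
        rw [h4]
        exact (h3 i).mul (h3 j).inv
    · rw [h0, Pi.zero_apply, zero_div]
      exact isAlgebraic_zero
  have hxy := hrel2 u hu hu2
  rw [rf_pair u hu2] at hgen
  have hx : Transcendental K (u 1 / u 2) := by
    intro hx
    apply hM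
    refine alg_of_top _ ?_ hgen
    rintro z (rfl | hz)
    · exact hx
    · rw [Set.mem_singleton_iff] at hz
      subst hz
      have h1 : IsAlgebraic K ((u 0 / u 2) ^ 2) := by
        rw [hxy]
        exact ((isAlgebraic_algebraMap _).mul (hx.pow 2)).add (isAlgebraic_algebraMap _)
      exact IsAlgebraic.of_pow (by norm_num) h1
  obtain ⟨h1, h2⟩ := core hn (u 1 / u 2) (u 0 / u 2) hxy hx hgen
  refine ⟨h1, fun u' hu'0 hu' => ?_⟩
  have hu2' : u' 2 ≠ 0 := by
    intro h3
    rcases halgz u' hu' h3 with hz | h0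
    · obtain ⟨c, hc⟩ := h1 _ (hsq _ hz)
      rw [hc, ← map_pow] at hz
      exact ha1 c ((algebraMap K M).injective hz)
    · exact hu'0 h0
  rw [rf_pair u' hu2']
  exact h2 _ _ (hrel2 u' hu' hu2')

end

theorem conic : Pool.Agent.Y201.C3.S_CONIC := by
  intro K M _ _ _ _ A hA hani hM v hv hgen
  -- the diagonalization
  have hinv : Invertible (2 : K) := invertibleOfNonzero two_ne_zero
  have hsymm : LinearMap.IsSymm (Matrix.toBilin' A) := by
    refine ⟨fun x y => ?_⟩
    rw [RingHom.id_apply, Matrix.toBilin'_apply, Matrix.toBilin'_apply, Finset.sum_comm]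
    refine Finset.sum_congr rfl fun i _ => Finset.sum_congr rfl fun j _ => ?_
    have := hA.apply i j
    rw [this]
    ring
  obtain ⟨p0, hp0⟩ := LinearMap.BilinForm.exists_orthogonal_basis hsymm
  have hfr : Module.finrank K (Fin 3 → K) = 3 := by simp
  set p : Module.Basis (Fin 3) K (Fin 3 → K) := p0.reindex (finCongr hfr) with hp
  have hpo : ∀ l m, l ≠ m → Matrix.toBilin' A (p l) (p m) = 0 := by
    intro l m hlm
    rw [hp, Module.Basis.reindex_apply, Module.Basis.reindex_apply]
    exact hp0 (fun h => hlm ((finCongr hfr).symm.injective h))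
  set P : Matrix (Fin 3) (Fin 3) K := (Pi.basisFun K (Fin 3)).toMatrix p with hP
  set R : Matrix (Fin 3) (Fin 3) K := p.toMatrix (Pi.basisFun K (Fin 3)) with hR
  have hPR : P * R = 1 := by
    rw [hP, hR]
    exact Module.Basis.toMatrix_mul_toMatrix_flip _ _
  have hRP : R * P = 1 := by
    rw [hP, hR]
    exact Module.Basis.toMatrix_mul_toMatrix_flip _ _
  have hPa : ∀ i l, P i l = p l i := fun i l => by
    rw [hP, Module.Basis.toMatrix_apply, Pi.basisFun_repr]
  set w : Fin 3 → K := fun l => Matrix.toBilin' A (p l) (p l) with hw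
  have hD : Pᵀ * A * P = Matrix.diagonal w := by
    ext l m
    have h1 : (Pᵀ * A * P) l m = Matrix.toBilin' A (p l) (p m) := by
      rw [Matrix.toBilin'_apply, Matrix.mul_apply]
      simp only [Matrix.mul_apply, Matrix.transpose_apply, hPa]
      simp only [Finset.sum_mul]
      rw [Finset.sum_comm]
    rw [h1]
    by_cases hlm : l = m
    · subst hlm
      rw [Matrix.diagonal_apply_eq]
    · rw [Matrix.diagonal_apply_ne _ hlm, hpo l m hlm]
  -- the form in the new coordinates, over every field
  have hform : ∀ (L : Type) [Field L] [Algebra K L] (x : Fin 3 → L),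
      ∑ i, ∑ j, ((P.map (algebraMap K L)) *ᵥ x) i * algebraMap K L (A i j) *
        ((P.map (algebraMap K L)) *ᵥ x) j =
      algebraMap K L (w 0) * x 0 ^ 2 + algebraMap K L (w 1) * x 1 ^ 2 +
        algebraMap K L (w 2) * x 2 ^ 2 := by
    intro L _ _ x
    set P' := P.map (algebraMap K L) with hP'
    set A' := A.map (algebraMap K L) with hA'
    have h1 : ∑ i, ∑ j, (P' *ᵥ x) i * algebraMap K L (A i j) * (P' *ᵥ x) j =
        (P' *ᵥ x) ⬝ᵥ (A' *ᵥ (P' *ᵥ x)) := by
      generalize P' *ᵥ x = y
      change _ = ∑ i, y i * ∑ j, A' i j * y j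
      refine Finset.sum_congr rfl fun i _ => ?_
      rw [Finset.mul_sum]
      refine Finset.sum_congr rfl fun j _ => ?_
      rw [hA', Matrix.map_apply]
      ring
    have h2 : (P' *ᵥ x) ⬝ᵥ (A' *ᵥ (P' *ᵥ x)) = x ⬝ᵥ ((P'ᵀ * A' * P') *ᵥ x) := by
      rw [← mulVec_mulVec, ← mulVec_mulVec, dotProduct_mulVec x, vecMul_transpose]
    have h3 : P'ᵀ * A' * P' = Matrix.diagonal fun l => algebraMap K L (w l) := by
      have h4 := congrArg (fun Z : Matrix (Fin 3) (Fin 3) K => Z.map (algebraMap K L)) hD
      simp only [Matrix.map_mul] at h4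
      rw [hP', hA', ← Matrix.transpose_map, h4]
      ext i j
      by_cases hij : i = j
      · subst hij
        simp
      · simp [Matrix.diagonal_apply_ne _ hij]
    rw [h1, h2, h3]
    simp only [dotProduct, mulVec_diagonal, Fin.sum_univ_three]
    ring
  have hPinv : ∀ (v : Fin 3 → M),
      (P.map (algebraMap K M)) *ᵥ ((R.map (algebraMap K M)) *ᵥ v) = v := by
    intro v
    rw [mulVec_mulVec, ← Matrix.map_mul, hPR, Matrix.map_one _ (map_zero _) (map_one _),
      one_mulVec]
  have hani' : ∀ c : Fin 3 → K, w 0 * c 0 ^ 2 + w 1 * c 1 ^ 2 + w 2 * c 2 ^ 2 = 0 → c = 0 := by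
    intro c hc
    have h1 := hform K c
    simp only [Algebra.algebraMap_self, RingHom.id_apply] at h1
    rw [hc] at h1
    have h2 := hani _ h1
    have h3 : R *ᵥ ((P.map (RingHom.id K)) *ᵥ c) = 0 := by
      have : (P.map (RingHom.id K)) *ᵥ c = 0 := h2
      rw [this, mulVec_zero]
    have h4 : P.map (RingHom.id K) = P := by ext; simp
    rw [h4, mulVec_mulVec, hRP, one_mulVec] at h3
    exact h3
  have hvu := hform M ((R.map (algebraMap K M)) *ᵥ v)
  rw [hPinv, hv] at hvu
  have hgen' : rf K ((R.map (algebraMap K M)) *ᵥ v) = ⊤ := by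
    rw [rf_eq P R hPR]
    exact hgen
  obtain ⟨h1, h2⟩ := conic_diag w hani' hM _ hvu.symm hgen'
  refine ⟨h1, fun v' hv'0 hv' => ?_⟩
  have hvu' := hform M ((R.map (algebraMap K M)) *ᵥ v')
  rw [hPinv, hv'] at hvu'
  have h3 : (R.map (algebraMap K M)) *ᵥ v' ≠ 0 := by
    intro h
    apply hv'0
    rw [← hPinv v', h, mulVec_zero]
  have h4 := h2 _ h3 hvu'.symm
  rw [rf_eq P R hPR] at h4
  exact h4

end Pool.Agent.R845
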