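import Mathlib
import Pool.Agent.TH182.VG.Rigid

/-! # Very general hypersurfaces contain no images of one-dimensional tori -/

set_option autoImplicit false

namespace Pool.Agent.R845.VG

open MvPolynomial
open scoped LinearAlgebra.Projectivization
open Pool.Agent.TH143.EL

/-- the exponents of the monomials of degree `d` -/
abbrev Mon (r d : ℕ) : Type := {m : Fin r →₀ ℕ // m.degree = d}

/-- the coefficients of a form of degree `d` -/
noncomputable def cf {r : ℕ} (d : ℕ) (F : MvPolynomial (Fin r) ℂ) : Mon r d → ℂ :=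
  fun m => coeff m.1 F

/-- the polynomials with rational coefficients form a countable family -/
theorem very_general (r d : ℕ) :
    ∃ Ps : Set (MvPolynomial (Mon r d) ℂ), Ps.Countable ∧ (0 : MvPolynomial _ ℂ) ∉ Ps ∧
      ∀ F : MvPolynomial (Fin r) ℂ, (∀ P ∈ Ps, eval (cf d F) P ≠ 0) →
        AlgebraicIndependent ℚ (cf d F) := by
  classical
  have hfin : Finite (Mon r d) := by
    have h1 : {m : Fin r →₀ ℕ | m.degree = d}.Finite := by
      refine (Finsupp.finite_of_degree_le d).subset ?_
      intro m hm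
      exact le_of_eq hm
    exact h1
  have hc : Countable (MvPolynomial (Mon r d) ℚ) := by
    have := Finite.to_countable (α := Mon r d)
    rw [← Cardinal.mk_le_aleph0_iff]
    refine MvPolynomial.cardinalMk_le_max.trans ?_
    rw [max_le_iff, max_le_iff]
    exact ⟨⟨Cardinal.mk_le_aleph0, Cardinal.mk_le_aleph0⟩, le_rfl⟩
  refine ⟨(fun P => map (algebraMap ℚ ℂ) P) '' {P | P ≠ 0}, (Set.to_countable _).image _, ?_, ?_⟩
  · rintro ⟨P, hP, h0⟩
    apply hP
    exact (map_injective _ (algebraMap ℚ ℂ).injective) (h0.trans (map_zero _).symm)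
  · intro F hF
    rw [algebraicIndependent_iff]
    intro P hP
    by_contra hP0
    apply hF _ ⟨P, hP0, rfl⟩
    rw [eval_map, ← aeval_def]
    exact hP

/-- for a form of degree `d ≥ 2 n + 2` in `n + 2` variables, `n ≥ 1`, with algebraically independent
coefficients there is no nonconstant holomorphic map from a torus to the hypersurface -/
theorem torusMapsIn {n d : ℕ} (hn : 1 ≤ n) (hd : 2 * n + 2 ≤ d)
    {F : MvPolynomial (Fin (n + 1 + 1)) ℂ} (hF : F.IsHomogeneous d)
    (hind : AlgebraicIndependent ℚ (cf d F)) :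
    TorusMapsIn (Ideal.span {F}) (⊤ : Ideal (MvPolynomial (Fin (n + 1 + 1)) ℂ)) := by
  obtain ⟨p, rfl⟩ := Nat.exists_eq_add_of_le' hn
  intro ω₁ ω₂ hω g hg h1 h2 hgX hgnc
  exfalso
  obtain ⟨z, w, hzw⟩ := hgnc
  refine hzw (Pool.Agent.TH182.VG.torus_const (p := p) (F := F) hF (by omega) hind hω
    (Pool.Agent.TH182.VG.holo_of_holMap hg) h1 h2 (fun z => ?_) z w)
  exact hgX z F (Ideal.mem_span_singleton_self F) ⟨d, hF⟩

end Pool.Agent.R845.VG
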