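import Mathlib
import Pool.Agent.Y246.C3.Cb
import Pool.Agent.Y201.LI.Stm2

/-! # Project LI, job INV: the inverse map as forms -/

set_option autoImplicit false

namespace Pool.Agent.R845

open MvPolynomial Pool.Agent.Y201.C3 Pool.Agent.Y201.LI Pool.Agent.Y246.C3 Pool.Agent.TH314.PD

theorem exists_forms {M : Type} [Field M] [Algebra ℂ M] {m n : ℕ} (q : Fin m → M) (W : Fin n → M)
    (hW : ∀ i, W i ∈ ratioField q) :
    ∃ (D : ℕ) (P : Fin n → MvPolynomial (Fin m) ℂ) (Q : MvPolynomial (Fin m) ℂ),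
      (∀ i, (P i).IsHomogeneous D) ∧ aeval q Q ≠ 0 ∧ ∀ i, aeval q (P i) = aeval q Q * W i := by
  choose D P Q h1 h2 h3 h4 using fun i => exists_form q (W i) (hW i)
  refine ⟨∑ j, D j, fun i => ∏ j, if j = i then P j else Q j, ∏ j, Q j, ?_, ?_, ?_⟩
  · intro i
    refine IsHomogeneous.prod _ _ _ fun j _ => ?_
    by_cases h : j = i
    · rw [if_pos h]
      exact h1 j
    · rw [if_neg h]
      exact h2 j
  · rw [map_prod]
    exact Finset.prod_ne_zero_iff.2 fun j _ => h3 j
  · intro i
    rw [map_prod, map_prod]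
    have h5 : ∀ j, aeval q (if j = i then P j else Q j) =
        aeval q (Q j) * (if j = i then W j else 1) := by
      intro j
      by_cases h : j = i
      · rw [if_pos h, if_pos h, h4]
      · rw [if_neg h, if_neg h, mul_one]
    simp only [h5]
    rw [Finset.prod_mul_distrib, Finset.prod_ite_eq' Finset.univ i W, if_pos (Finset.mem_univ _)]

theorem inv : S_INV := by
  intro F hF hF0 M _ _ s hs G hG hGF hdom hbir
  set y : Fin 6 → M := fun l => aeval s (G l) with hy
  have hs0 : s 0 ≠ 0 := by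
    intro h
    refine X_ne_zero (R := ℂ) (0 : Fin 5) (hs 1 (X 0) (isHomogeneous_X _ _) ?_)
    rw [aeval_X, h]
  obtain ⟨D, P, Q, h1, h2, h3⟩ := exists_forms y (fun i => s i / s 0) (fun i => hbir i 0)
  set c : M := aeval y Q / s 0 with hc
  have hc0 : c ≠ 0 := div_ne_zero h2 hs0
  have hP : (fun i => aeval y (P i)) = fun i => c * s i := by
    funext i
    rw [h3, hc]
    field_simp
  have hcomp : ∀ i, aeval y (aeval P (G i)) = c ^ 3 * y i := by
    intro i
    have e1 : aeval y (aeval P (G i)) = aeval (fun l => aeval y (P l)) (G i) := by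
      have : (aeval y).comp (aeval P) = (aeval (fun l => aeval y (P l)) :
          MvPolynomial (Fin 5) ℂ →ₐ[ℂ] M) := by
        apply algHom_ext
        intro l
        rw [AlgHom.comp_apply, aeval_X, aeval_X]
      rw [← this]
      rfl
    rw [e1, hP, aeval_smul_form (hG i)]
  have hPG : ∀ i, (aeval P (G i)).IsHomogeneous (D * 3) := fun i => (hG i).aeval P h1
  refine ⟨D, P, h1, ?_, ?_⟩
  · intro i j
    refine hdom (D * 3 + 1) _ ?_ ?_
    · exact ((hPG i).mul (isHomogeneous_X ℂ j)).sub ((hPG j).mul (isHomogeneous_X ℂ i))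
    · rw [map_sub, map_mul, map_mul, aeval_X, aeval_X, hcomp, hcomp]
      ring
  · have hyi : ∃ i, y i ≠ 0 := by
      by_contra hcon
      push Not at hcon
      obtain ⟨Q', hQ'⟩ := hdom 1 (X 0) (isHomogeneous_X _ _) (by rw [aeval_X]; exact hcon 0)
      have hQ0 : Q' ≠ 0 := by
        rintro rfl
        exact X_ne_zero (R := ℂ) (0 : Fin 6) (by rw [hQ', mul_zero])
      have h4 := totalDegree_mul_of_isDomain hF0 hQ0
      rw [← hQ', hF.totalDegree hF0, totalDegree_X] at h4
      omega
    obtain ⟨i, hi⟩ := hyi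
    refine ⟨i, ?_⟩
    rintro ⟨E', hE⟩
    have hFy : aeval y F = 0 := by
      have : (aeval s).comp (aeval G) = (aeval y : MvPolynomial (Fin 6) ℂ →ₐ[ℂ] M) := by
        apply algHom_ext
        intro l
        rw [AlgHom.comp_apply, aeval_X, aeval_X]
      rw [← this, AlgHom.comp_apply, hGF, map_zero]
    have h5 := hcomp i
    rw [hE, map_mul, hFy, zero_mul] at h5
    exact mul_ne_zero (pow_ne_zero 3 hc0) hi h5.symm

end Pool.Agent.R845
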