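import Mathlib
import Pool.Agent.R572.Rig.Main

/-! # job RIG -/

set_option autoImplicit false

namespace Pool.Agent.R845

theorem rig : Pool.Agent.Y201.LI.S_RIG := Pool.Agent.R572.Rig.rig

end Pool.Agent.R845
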