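import Mathlib
import Pool.Agent.R845.Avoid

/-! # Cubic fourfolds with two disjoint planes: a parametrization of degree four -/

set_option autoImplicit false

namespace Pool.Agent.R845

open MvPolynomial Pool.Agent.Y201.C3 Pool.Agent.Y201.LI Pool.Agent.Y246.C3

/-- a form vanishing on an irreducible hypersurface is divisible by its equation -/
theorem dvd_of_vanish {n : ℕ} {F : MvPolynomial (Fin n) ℂ} (hF : Prime F)
    (A : MvPolynomial (Fin n) ℂ) (h : ∀ z, eval z F = 0 → eval z A = 0) : F ∣ A := by
  by_contra hcon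
  obtain ⟨p, hp, hpA⟩ := exists_hyp_point (ι := Unit) F hF (fun _ => A) (fun _ => hcon)
  exact hpA () (h p hp)

section

variable {T : Fin 6 → Fin 6 → Fin 6 → ℂ}

/-- linear combinations with coefficients in an algebra -/
def cbR {R : Type} [CommRing R] [Algebra ℂ R] (v : Fin 3 → Fin 6 → ℂ) (u : Fin 3 → R) :
    Fin 6 → R := fun i => ∑ a, u a * algebraMap ℂ R (v a i)

theorem cbR_map {R R' : Type} [CommRing R] [Algebra ℂ R] [CommRing R'] [Algebra ℂ R']
    (φ : R →ₐ[ℂ] R') (v : Fin 3 → Fin 6 → ℂ) (u : Fin 3 → R) :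
    (fun i => φ (cbR v u i)) = cbR v (fun a => φ (u a)) := by
  funext i
  unfold cbR
  simp only [map_sum, map_mul, AlgHom.commutes]

theorem cbR_eq (v : Fin 3 → Fin 6 → ℂ) (u : Fin 3 → ℂ) : cbR v u = cb v u := by
  funext i
  rfl

/-- the third point of the line joining `a` and `b` -/
def third (T : Fin 6 → Fin 6 → Fin 6 → ℂ) {R : Type} [CommRing R] [Algebra ℂ R]
    (a b : Fin 6 → R) : Fin 6 → R := fun i => Bf T a b b * a i - Bf T a a b * b i

theorem third_map {R R' : Type} [CommRing R] [Algebra ℂ R] [CommRing R'] [Algebra ℂ R']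
    (φ : R →ₐ[ℂ] R') (a b : Fin 6 → R) :
    (fun i => φ (third T a b i)) = third T (fun i => φ (a i)) (fun i => φ (b i)) := by
  funext i
  unfold third
  have h1 := map_Bg φ T a b b
  have h2 := map_Bg φ T a a b
  rw [← Bf_eq, ← Bf_eq] at h1 h2
  rw [map_sub, map_mul, map_mul, h1, h2]

theorem third_zero (hT : SymT T) {R : Type} [CommRing R] [Algebra ℂ R]
    (a b : Fin 6 → R) (ha : Bf T a a a = 0) (hb : Bf T b b b = 0) :
    Bf T (third T a b) (third T a b) (third T a b) = 0 := by
  have h1 : third T a b = fun i => Bf T a b b * a i + (-Bf T a a b) * b i := by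
    funext i
    unfold third
    ring
  rw [h1]
  generalize hs : Bf T a b b = s
  generalize ht : Bf T a a b = t
  simp only [Bf_add1, Bf_add2 hT, Bf_add3 hT, Bf_smul1, Bf_smul2 hT, Bf_smul3 hT]
  rw [Bf_comm12 hT b a a, Bf_comm23 hT a b a, Bf_comm12 hT b a b, Bf_comm23 hT b b a,
    Bf_comm12 hT b a b, ha, hb, hs, ht]
  ring

theorem polar_zero (hT : SymT T) (v : Fin 3 → Fin 6 → ℂ)
    (hv : ∀ c, Bf T (cb v c) (cb v c) (cb v c) = 0) (c d : Fin 3 → ℂ) :
    Bf T (cb v c) (cb v c) (cb v d) = 0 := by
  have h1 : ∀ t : ℂ, Bf T (cb v c) (cb v c) (cb v c) + 3 * t * Bf T (cb v c) (cb v c) (cb v d) +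
      3 * t ^ 2 * Bf T (cb v c) (cb v d) (cb v d) + t ^ 3 * Bf T (cb v d) (cb v d) (cb v d) =
      0 := by
    intro t
    rw [← frm_add hT, frm_eval]
    have h2 : (fun i => cb v c i + cb v d i * t) = cb v (fun a => c a + d a * t) := by
      funext i
      unfold cb
      rw [Finset.sum_mul, ← Finset.sum_add_distrib]
      exact Finset.sum_congr rfl fun a _ => by ring
    rw [h2]
    exact hv _
  have e1 := h1 1
  have e2 := h1 (-1)
  rw [hv, hv] at e1 e2
  linear_combination (1 / 6 : ℂ) * e1 - (1 / 6 : ℂ) * e2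

theorem cbR_deg {σ : Type} (w : Fin 3 → Fin 6 → ℂ) (g : Fin 3 → MvPolynomial σ ℂ)
    (hg : ∀ a, (g a).totalDegree ≤ 1) (i : Fin 6) : (cbR w g i).totalDegree ≤ 1 := by
  unfold cbR
  refine totalDegree_finsetSum_le fun a _ => ?_
  refine (totalDegree_mul _ _).trans ?_
  rw [algebraMap_eq, totalDegree_C, add_zero]
  exact hg a

theorem Bf_deg {σ : Type} (T : Fin 6 → Fin 6 → Fin 6 → ℂ) (x y z : Fin 6 → MvPolynomial σ ℂ)
    (hx : ∀ i, (x i).totalDegree ≤ 1) (hy : ∀ i, (y i).totalDegree ≤ 1)
    (hz : ∀ i, (z i).totalDegree ≤ 1) : (Bf T x y z).totalDegree ≤ 3 := by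
  unfold Bf
  refine totalDegree_finsetSum_le fun i _ => totalDegree_finsetSum_le fun j _ =>
    totalDegree_finsetSum_le fun k _ => ?_
  have h1 := totalDegree_mul (algebraMap ℂ (MvPolynomial σ ℂ) (T i j k) * x i * y j) (z k)
  have h2 := totalDegree_mul (algebraMap ℂ (MvPolynomial σ ℂ) (T i j k) * x i) (y j)
  have h3 := totalDegree_mul (algebraMap ℂ (MvPolynomial σ ℂ) (T i j k)) (x i)
  have h4 : (algebraMap ℂ (MvPolynomial σ ℂ) (T i j k)).totalDegree = 0 := by
    rw [algebraMap_eq, totalDegree_C]
  have h5 := hx i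
  have h6 := hy j
  have h7 := hz k
  omega

theorem two_planes (hT : SymT T) (hS : SmoothT T) (u v : Fin 3 → Fin 6 → ℂ)
    (hind : LinearIndependent ℂ (Sum.elim u v))
    (hu : ∀ c, Bf T (cb u c) (cb u c) (cb u c) = 0)
    (hv : ∀ c, Bf T (cb v c) (cb v c) (cb v c) = 0) :
    ∃ G : Fin 6 → MvPolynomial (Fin 4) ℂ, (∀ i, (G i).totalDegree ≤ 4) ∧
      aeval G (frm T) = 0 ∧ ∀ (e : ℕ) (H : MvPolynomial (Fin 6) ℂ), H.IsHomogeneous e →
        aeval G H = 0 → frm T ∣ H := by
  have hF0 : frm T ≠ 0 := Pool.Agent.TH314.PD.ne_zero_of_smooth (smooth_frm hT hS)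
  have hprime : Prime (frm T) := (irreducible_of_smooth (by norm_num) (by norm_num) (frm_hom T)
    hF0 (smooth_frm hT hS)).prime
  let ga : Fin 3 → MvPolynomial (Fin 4) ℂ := ![X 0, X 1, 1]
  let gb : Fin 3 → MvPolynomial (Fin 4) ℂ := ![X 2, X 3, 1]
  have hga : ∀ a, (ga a).totalDegree ≤ 1 := by
    intro a
    fin_cases a
    · exact (totalDegree_X _).le
    · exact (totalDegree_X _).le
    · exact totalDegree_one.le.trans (Nat.zero_le _)
  have hgb : ∀ a, (gb a).totalDegree ≤ 1 := by
    intro a
    fin_cases a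
    · exact (totalDegree_X _).le
    · exact (totalDegree_X _).le
    · exact totalDegree_one.le.trans (Nat.zero_le _)
  have hcbd : ∀ (w : Fin 3 → Fin 6 → ℂ) (g : Fin 3 → MvPolynomial (Fin 4) ℂ),
      (∀ a, (g a).totalDegree ≤ 1) → ∀ i, (cbR w g i).totalDegree ≤ 1 := fun w g hg i =>
    cbR_deg w g hg i
  have hBfd : ∀ x y z : Fin 6 → MvPolynomial (Fin 4) ℂ, (∀ i, (x i).totalDegree ≤ 1) →
      (∀ i, (y i).totalDegree ≤ 1) → (∀ i, (z i).totalDegree ≤ 1) →
      (Bf T x y z).totalDegree ≤ 3 := fun x y z hx hy hz => Bf_deg T x y z hx hy hz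
  let G : Fin 6 → MvPolynomial (Fin 4) ℂ := third T (cbR u ga) (cbR v gb)
  -- values of `G`
  have hGe : ∀ w : Fin 4 → ℂ, (fun i => eval w (G i)) =
      third T (cb u ![w 0, w 1, 1]) (cb v ![w 2, w 3, 1]) := by
    intro w
    have h1 := third_map (T := T) (aeval w : MvPolynomial (Fin 4) ℂ →ₐ[ℂ] ℂ)
      (cbR u ga) (cbR v gb)
    rw [cbR_map, cbR_map, cbR_eq, cbR_eq] at h1
    simp only [aeval_eq_eval] at h1
    have h2 : (fun a => eval w (ga a)) = ![w 0, w 1, 1] := by
      funext a
      fin_cases a
      · exact eval_X _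
      · exact eval_X _
      · exact map_one _
    have h3 : (fun a => eval w (gb a)) = ![w 2, w 3, 1] := by
      funext a
      fin_cases a
      · exact eval_X _
      · exact eval_X _
      · exact map_one _
    rw [h2, h3] at h1
    exact h1
  have hGe2 : ∀ (w : Fin 4 → ℂ) (H : MvPolynomial (Fin 6) ℂ),
      eval w (aeval G H) = eval (third T (cb u ![w 0, w 1, 1]) (cb v ![w 2, w 3, 1])) H := by
    intro w H
    rw [← hGe]
    have : (aeval w : MvPolynomial (Fin 4) ℂ →ₐ[ℂ] ℂ).comp (aeval G) =
        aeval (fun i => eval w (G i)) := by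
      apply algHom_ext
      intro l
      rw [AlgHom.comp_apply, aeval_X, aeval_X, aeval_eq_eval]
    have h3 := congrArg (fun f => f H) this
    simp only [AlgHom.comp_apply, aeval_eq_eval] at h3
    exact h3
  refine ⟨G, ?_, ?_, ?_⟩
  · intro i
    have h1 : (Bf T (cbR u ga) (cbR v gb) (cbR v gb) * cbR u ga i).totalDegree ≤ 4 := by
      refine (totalDegree_mul _ _).trans ?_
      have h2 := hBfd _ _ _ (hcbd u ga hga) (hcbd v gb hgb) (hcbd v gb hgb)
      have h3 := hcbd u ga hga i
      omega
    have h2 : (Bf T (cbR u ga) (cbR u ga) (cbR v gb) * cbR v gb i).totalDegree ≤ 4 := by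
      refine (totalDegree_mul _ _).trans ?_
      have h2 := hBfd _ _ _ (hcbd u ga hga) (hcbd u ga hga) (hcbd v gb hgb)
      have h3 := hcbd v gb hgb i
      omega
    exact (totalDegree_sub _ _).trans (max_le h1 h2)
  · apply MvPolynomial.funext
    intro w
    rw [hGe2, frm_eval, map_zero]
    exact third_zero hT _ _ (hu _) (hv _)
  · intro e H hH hHG
    -- coordinates
    have hcard : Fintype.card (Fin 3 ⊕ Fin 3) = Module.finrank ℂ (Fin 6 → ℂ) := by
      simp
    let bs := basisOfLinearIndependentOfCardEqFinrank hind hcard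
    have hbs : ∀ i, bs i = Sum.elim u v i := fun i => by
      simp [bs]
    let ca : (Fin 6 → ℂ) → Fin 3 → ℂ := fun z i => bs.repr z (Sum.inl i)
    let cv : (Fin 6 → ℂ) → Fin 3 → ℂ := fun z i => bs.repr z (Sum.inr i)
    have hdec : ∀ z : Fin 6 → ℂ, z = fun i => cb u (ca z) i + cb v (cv z) i := by
      intro z
      have h1 := bs.sum_repr z
      rw [Fintype.sum_sum_type] at h1
      simp only [hbs, Sum.elim_inl, Sum.elim_inr] at h1
      conv_lhs => rw [← h1]
      funext i
      rw [Pi.add_apply, Finset.sum_apply, Finset.sum_apply]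
      rfl
    let La : Fin 3 → MvPolynomial (Fin 6) ℂ := fun i => ∑ m, C (bs.repr (Pi.single m 1) (Sum.inl i)) * X m
    let Lv' : Fin 3 → MvPolynomial (Fin 6) ℂ := fun i => ∑ m, C (bs.repr (Pi.single m 1) (Sum.inr i)) * X m
    have hlin : ∀ (z : Fin 6 → ℂ) (j : Fin 3 ⊕ Fin 3),
        bs.repr z j = ∑ m, bs.repr (Pi.single m 1) j * z m := by
      intro z j
      have h1 : z = ∑ m, z m • (Pi.single m (1 : ℂ) : Fin 6 → ℂ) := by
        funext i
        rw [Finset.sum_apply, Finset.sum_eq_single i]
        · simp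
        · intro b _ hb
          rw [Pi.smul_apply, Pi.single_eq_of_ne (Ne.symm hb), smul_zero]
        · intro h
          exact absurd (Finset.mem_univ _) h
      conv_lhs => rw [h1, map_sum, Finsupp.finsetSum_apply]
      refine Finset.sum_congr rfl fun m _ => ?_
      rw [map_smul, Finsupp.smul_apply, smul_eq_mul, mul_comm]
    have hLa : ∀ z i, eval z (La i) = ca z i := by
      intro z i
      change _ = bs.repr z (Sum.inl i)
      rw [hlin, map_sum]
      simp only [map_mul, eval_C, eval_X]
    have hLv : ∀ z i, eval z (Lv' i) = cv z i := by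
      intro z i
      change _ = bs.repr z (Sum.inr i)
      rw [hlin, map_sum]
      simp only [map_mul, eval_C, eval_X]
    let PA : Fin 6 → MvPolynomial (Fin 6) ℂ := cbR u La
    let PB : Fin 6 → MvPolynomial (Fin 6) ℂ := cbR v Lv'
    have hPA : ∀ z, (fun i => eval z (PA i)) = cb u (ca z) := by
      intro z
      have h1 := cbR_map (aeval z : MvPolynomial (Fin 6) ℂ →ₐ[ℂ] ℂ) u La
      rw [cbR_eq] at h1
      simp only [aeval_eq_eval, hLa] at h1
      exact h1
    have hPB : ∀ z, (fun i => eval z (PB i)) = cb v (cv z) := by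
      intro z
      have h1 := cbR_map (aeval z : MvPolynomial (Fin 6) ℂ →ₐ[ℂ] ℂ) v Lv'
      rw [cbR_eq] at h1
      simp only [aeval_eq_eval, hLv] at h1
      exact h1
    -- the product vanishes on the cubic
    have hvan : ∀ z, eval z (frm T) = 0 →
        eval z (La 2 * Lv' 2 * Bf T PA PB PB * H) = 0 := by
      intro z hz
      rw [map_mul, map_mul, map_mul, hLa, hLv, eval_Bf, hPA, hPB]
      by_cases h2 : ca z 2 = 0
      · rw [h2]
        ring
      by_cases h3 : cv z 2 = 0
      · rw [h3]
        ring
      have h4 := congrArg (eval ![ca z 0 / ca z 2, ca z 1 / ca z 2, cv z 0 / cv z 2,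
        cv z 1 / cv z 2]) hHG
      rw [hGe2, map_zero] at h4
      set a := cb u (ca z) with ha
      set b := cb v (cv z) with hb
      have e1 : cb u ![ca z 0 / ca z 2, ca z 1 / ca z 2, 1] = fun i => (ca z 2)⁻¹ * a i := by
        funext i
        rw [ha]
        unfold cb
        rw [Fin.sum_univ_three, Fin.sum_univ_three]
        simp only [Matrix.cons_val_zero, Matrix.cons_val_one, Matrix.cons_val_two,
          Matrix.head_cons, Matrix.tail_cons]
        field_simp
      have e2 : cb v ![cv z 0 / cv z 2, cv z 1 / cv z 2, 1] = fun i => (cv z 2)⁻¹ * b i := by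
        funext i
        rw [hb]
        unfold cb
        rw [Fin.sum_univ_three, Fin.sum_univ_three]
        simp only [Matrix.cons_val_zero, Matrix.cons_val_one, Matrix.cons_val_two,
          Matrix.head_cons, Matrix.tail_cons]
        field_simp
      have e3 : Bf T a a b + Bf T a b b = 0 := by
        rw [frm_eval, hdec z] at hz
        simp only [Bf_add1, Bf_add2 hT, Bf_add3 hT] at hz
        rw [← ha, ← hb] at hz
        have hz2 : cb u (ca z) = a := rfl
        rw [Bf_comm12 hT b a a, Bf_comm23 hT a b a, Bf_comm12 hT b a b, Bf_comm23 hT b b a,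
          Bf_comm12 hT b a b, ha, hb, hu, hv, ← ha, ← hb] at hz
        linear_combination (1 / 3 : ℂ) * hz
      have e4 : third T (cb u ![ca z 0 / ca z 2, ca z 1 / ca z 2, 1])
          (cb v ![cv z 0 / cv z 2, cv z 1 / cv z 2, 1]) =
          fun i => ((ca z 2)⁻¹ ^ 2 * (cv z 2)⁻¹ ^ 2 * Bf T a b b) * z i := by
        funext i
        unfold third
        rw [e1, e2]
        simp only [Bf_smul1, Bf_smul2 hT, Bf_smul3 hT]
        have e5 : z i = a i + b i := congrFun (hdec z) i
        rw [e5]
        have e6 : Bf T a a b = -Bf T a b b := by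
          linear_combination e3
        rw [e6]
        ring
      have e7 : eval ![ca z 0 / ca z 2, ca z 1 / ca z 2, cv z 0 / cv z 2,
        cv z 1 / cv z 2] (aeval G H) = 0 := by rw [hHG, map_zero]
      have e8 : eval (fun i => ((ca z 2)⁻¹ ^ 2 * (cv z 2)⁻¹ ^ 2 * Bf T a b b) * z i) H = 0 := by
        rw [← e4]
        exact h4
      have e9 := Pool.Agent.TH314.PD.aeval_smul_form hH (A := ℂ)
        ((ca z 2)⁻¹ ^ 2 * (cv z 2)⁻¹ ^ 2 * Bf T a b b) z
      rw [aeval_eq_eval, aeval_eq_eval] at e9
      change eval (fun i => ((ca z 2)⁻¹ ^ 2 * (cv z 2)⁻¹ ^ 2 * Bf T a b b) * z i) H = _ at e9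
      rw [e8] at e9
      rcases mul_eq_zero.1 e9.symm with h | h
      · have h5 := eq_zero_of_pow_eq_zero h
        have h6 : Bf T a b b = 0 := by
          rcases mul_eq_zero.1 h5 with h | h
          · exact absurd h (mul_ne_zero (pow_ne_zero 2 (inv_ne_zero h2))
              (pow_ne_zero 2 (inv_ne_zero h3)))
          · exact h
        rw [h6]
        ring
      · change ca z 2 * cv z 2 * Bf T a b b * eval z H = 0
        change eval z H = 0 at h
        rw [h, mul_zero]
    have hdvd := dvd_of_vanish hprime _ hvan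
    have hlow : ∀ A : MvPolynomial (Fin 6) ℂ, A.totalDegree ≤ 2 → (∃ z, eval z A ≠ 0) →
        ¬ frm T ∣ A := by
      intro A hA ⟨z, hz⟩
      exact not_dvd_low hF0 A (by
        rintro rfl
        exact hz (map_zero _)) hA
    have hdeg1 : ∀ (c : Fin 6 → ℂ), (∑ m, C (c m) * X m : MvPolynomial (Fin 6) ℂ).totalDegree ≤ 2 := by
      intro c
      refine totalDegree_finsetSum_le fun m _ => ?_
      refine (totalDegree_mul _ _).trans ?_
      rw [totalDegree_C, totalDegree_X]
      norm_num
    rcases hprime.dvd_or_dvd hdvd with h | h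
    · exfalso
      rcases hprime.dvd_or_dvd h with h | h
      · rcases hprime.dvd_or_dvd h with h | h
        · refine hlow _ (hdeg1 _) ⟨u 2, ?_⟩ h
          have h1 : eval (u 2) (La 2) = 1 := by
            rw [hLa]
            change bs.repr (u 2) (Sum.inl 2) = 1
            have h2 : u 2 = bs (Sum.inl 2) := (hbs (Sum.inl 2)).symm
            rw [h2, bs.repr_self, Finsupp.single_eq_same]
          change eval (u 2) (La 2) ≠ 0
          rw [h1]
          exact one_ne_zero
        · refine hlow _ (hdeg1 _) ⟨v 2, ?_⟩ h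
          have h1 : eval (v 2) (Lv' 2) = 1 := by
            rw [hLv]
            change bs.repr (v 2) (Sum.inr 2) = 1
            have h2 : v 2 = bs (Sum.inr 2) := (hbs (Sum.inr 2)).symm
            rw [h2, bs.repr_self, Finsupp.single_eq_same]
          change eval (v 2) (Lv' 2) ≠ 0
          rw [h1]
          exact one_ne_zero
      · -- `B (a, b, b)` is not divisible by `F`
        obtain ⟨Q, hQ⟩ := h
        have hca : ∀ c d : Fin 3 → ℂ, ca (fun i => cb u c i + cb v d i) = c ∧
            cv (fun i => cb u c i + cb v d i) = d := by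
          intro c d
          have h1 : (fun i => cb u c i + cb v d i) =
              ∑ i, c i • bs (Sum.inl i) + ∑ i, d i • bs (Sum.inr i) := by
            simp only [hbs, Sum.elim_inl, Sum.elim_inr]
            funext i
            rw [Pi.add_apply, Finset.sum_apply, Finset.sum_apply]
            rfl
          constructor
          · funext j
            change bs.repr (fun i => cb u c i + cb v d i) (Sum.inl j) = c j
            rw [h1]
            simp [Finsupp.single_apply]
          · funext j
            change bs.repr (fun i => cb u c i + cb v d i) (Sum.inr j) = d j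
            rw [h1]
            simp [Finsupp.single_apply]
        have hval : ∀ c d : Fin 3 → ℂ, Bf T (cb u c) (cb v d) (cb v d) =
            3 * (Bf T (cb u c) (cb u c) (cb v d) + Bf T (cb u c) (cb v d) (cb v d)) *
              eval (fun i => cb u c i + cb v d i) Q := by
          intro c d
          have h1 := congrArg (eval (fun i => cb u c i + cb v d i)) hQ
          rw [map_mul, eval_Bf, hPA, hPB, frm_eval, (hca c d).1, (hca c d).2] at h1
          have h2 : Bf T (fun i => cb u c i + cb v d i) (fun i => cb u c i + cb v d i)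
              (fun i => cb u c i + cb v d i) =
              3 * (Bf T (cb u c) (cb u c) (cb v d) + Bf T (cb u c) (cb v d) (cb v d)) := by
            simp only [Bf_add1, Bf_add2 hT, Bf_add3 hT]
            rw [Bf_comm12 hT (cb v d) (cb u c) (cb u c), Bf_comm23 hT (cb u c) (cb v d) (cb u c),
              Bf_comm12 hT (cb v d) (cb u c) (cb v d), Bf_comm23 hT (cb v d) (cb v d) (cb u c),
              Bf_comm12 hT (cb v d) (cb u c) (cb v d), hu, hv]
            ring
          rw [h2] at h1
          exact h1
        have hu0 : u 0 ≠ 0 := hind.ne_zero (Sum.inl 0)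
        have hv0 : v 0 ≠ 0 := hind.ne_zero (Sum.inr 0)
        have hsg : ∀ w : Fin 3 → Fin 6 → ℂ, cb w (Pi.single 0 1) = w 0 := by
          intro w
          funext i
          unfold cb
          rw [Fin.sum_univ_three]
          simp
        by_cases h0 : Bf T PA PB PB = 0
        · have h1 : ∀ c d, Bf T (cb u c) (cb v d) (cb v d) = 0 := by
            intro c d
            have h2 := congrArg (eval (fun i => cb u c i + cb v d i)) h0
            rw [eval_Bf, hPA, hPB, (hca c d).1, (hca c d).2, map_zero] at h2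
            exact h2
          apply hv0
          rw [← hsg v]
          apply zero_of_ann hT hS
          intro x
          have e5 : Bf T (cb v (cv x)) (cb v (Pi.single 0 1)) (cb v (Pi.single 0 1)) = 0 := by
            rw [Bf_comm12 hT, Bf_comm23 hT]
            exact polar_zero hT v hv _ _
          rw [hdec x, Bf_add1, h1, e5, add_zero]
        · have hQ0 : Q ≠ 0 := by
            rintro rfl
            exact h0 (by rw [hQ, mul_zero])
          have hdg := totalDegree_mul_of_isDomain hF0 hQ0
          rw [← hQ, (frm_hom T).totalDegree hF0] at hdg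
          have hdg2 : (Bf T PA PB PB).totalDegree ≤ 3 := by
            have hL1 : ∀ (c : Fin 6 → ℂ),
                (∑ m, C (c m) * X m : MvPolynomial (Fin 6) ℂ).totalDegree ≤ 1 := by
              intro c
              refine totalDegree_finsetSum_le fun m _ => ?_
              refine (totalDegree_mul _ _).trans ?_
              rw [totalDegree_C, totalDegree_X]
            exact Bf_deg T _ _ _ (cbR_deg u La fun a => hL1 _) (cbR_deg v Lv' fun a => hL1 _)
              (cbR_deg v Lv' fun a => hL1 _)
          have hQd : Q.totalDegree = 0 := by omega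
          rw [totalDegree_eq_zero_iff_eq_C] at hQd
          set q := coeff 0 Q with hq
          have hq0 : q ≠ 0 := by
            intro h1
            rw [h1, C_0] at hQd
            exact hQ0 hQd
          have hval2 : ∀ c d : Fin 3 → ℂ, Bf T (cb u c) (cb v d) (cb v d) =
              3 * (Bf T (cb u c) (cb u c) (cb v d) + Bf T (cb u c) (cb v d) (cb v d)) * q := by
            intro c d
            have h1 := hval c d
            rw [hQd, eval_C] at h1
            exact h1
          have h1 : ∀ c d, Bf T (cb u c) (cb u c) (cb v d) = 0 := by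
            intro c d
            have e1 := hval2 c d
            have e2 := hval2 ((2 : ℂ) • c) d
            rw [cb_smul] at e2
            have e3 : (2 : ℂ) • cb u c = fun i => 2 * cb u c i := rfl
            rw [e3, Bf_smul1, Bf_smul1, Bf_smul2 hT] at e2
            have e4 : q * Bf T (cb u c) (cb u c) (cb v d) = 0 := by
              linear_combination (1 / 3 : ℂ) * e1 - (1 / 6 : ℂ) * e2
            rcases mul_eq_zero.1 e4 with h | h
            · exact absurd h hq0
            · exact h
          apply hu0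
          rw [← hsg u]
          apply zero_of_ann hT hS
          intro x
          have e5 : Bf T (cb u (ca x)) (cb u (Pi.single 0 1)) (cb u (Pi.single 0 1)) = 0 := by
            rw [Bf_comm12 hT, Bf_comm23 hT]
            exact polar_zero hT u hu _ _
          have e6 : Bf T (cb v (cv x)) (cb u (Pi.single 0 1)) (cb u (Pi.single 0 1)) = 0 := by
            rw [Bf_comm12 hT, Bf_comm23 hT]
            exact h1 _ _
          rw [hdec x, Bf_add1, e5, e6, add_zero]
    · exact h

end

end Pool.Agent.R845
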