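import Mathlib
import Pool.Agent.R845.Two
import Pool.Agent.R845.Arc
import Pool.Agent.R845.Inv
import Pool.Agent.R845.Rig
import Pool.Agent.R845.Conic
import Pool.Agent.Y201.LI.Free
import Pool.Agent.Y201.LI.Thm3

/-! # Smooth cubic fourfolds have no parametrization of degree three -/

set_option autoImplicit false

namespace Pool.Agent.R845

open MvPolynomial Pool.Agent.Y201.C3 Pool.Agent.Y201.LI

/-- the symmetric tensor of a smooth cubic form -/
theorem exists_tensor (F : MvPolynomial (Fin 6) ℂ) (hF : F.IsHomogeneous 3)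
    (hsm : ∀ z : Fin 6 → ℂ, (∀ i, eval z (pderiv i F) = 0) → z = 0) :
    ∃ T : Fin 6 → Fin 6 → Fin 6 → ℂ, SymT T ∧ SmoothT T ∧ F = frm T := by
  obtain ⟨T, hT, hFT⟩ := exists_tri F hF
  have hT' : SymT T := hT
  have hF' : F = frm T := hFT
  refine ⟨T, hT', ?_, hF'⟩
  intro z hz
  apply hsm
  intro i
  rw [hF', ← aeval_eq_eval]
  have h3 : aeval z (pderiv i (frm T)) = _ := pderiv_frmG hT i z
  rw [h3]
  have h4 := hz i
  rw [smooth_iff, Bf_eq] at h4
  rw [h4, mul_zero]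

theorem no_cubic_forms (F : MvPolynomial (Fin 6) ℂ) (hF : F.IsHomogeneous 3)
    (hsm : ∀ z : Fin 6 → ℂ, (∀ i, eval z (pderiv i F) = 0) → z = 0)
    (N : ℕ) (G : Fin 6 → MvPolynomial (Fin N) ℂ) (hdeg : ∀ i, (G i).totalDegree ≤ 3)
    (hdom : aeval G F = 0 ∧ ∀ (e : ℕ) (H : MvPolynomial (Fin 6) ℂ), H.IsHomogeneous e →
      aeval G H = 0 → F ∣ H) : False := by
  obtain ⟨T, hT, hS, rfl⟩ := exists_tensor F hF hsm
  exact no_cubic (Pool.Agent.Y246.C3.cb conic) ani2 (avoid rig) arc inv hT1 hT hS hsm N G hdeg hdom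

theorem four_of_two_planes (F : MvPolynomial (Fin 6) ℂ) (hF : F.IsHomogeneous 3)
    (hsm : ∀ z : Fin 6 → ℂ, (∀ i, eval z (pderiv i F) = 0) → z = 0)
    (u v : Fin 3 → Fin 6 → ℂ) (hind : LinearIndependent ℂ (Sum.elim u v))
    (hu : ∀ c : Fin 3 → ℂ, eval (∑ i, c i • u i) F = 0)
    (hv : ∀ c : Fin 3 → ℂ, eval (∑ i, c i • v i) F = 0) :
    ∃ G : Fin 6 → MvPolynomial (Fin 4) ℂ, (∀ i, (G i).totalDegree ≤ 4) ∧
      (aeval G F = 0 ∧ ∀ (e : ℕ) (H : MvPolynomial (Fin 6) ℂ), H.IsHomogeneous e →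
        aeval G H = 0 → F ∣ H) := by
  obtain ⟨T, hT, hS, rfl⟩ := exists_tensor F hF hsm
  have key : ∀ (w : Fin 3 → Fin 6 → ℂ) (c : Fin 3 → ℂ), (∑ i, c i • w i) = cb w c := by
    intro w c
    funext i
    unfold cb
    simp
  refine two_planes hT hS u v hind (fun c => ?_) (fun c => ?_)
  · have h1 := hu c
    rw [key, frm_eval] at h1
    exact h1
  · have h1 := hv c
    rw [key, frm_eval] at h1
    exact h1

end Pool.Agent.R845
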